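import Mathlib

set_option autoImplicit false

open MeasureTheory Filter Topology Polynomial

namespace Pool.Agent.Helper368.Bel

/-- Points whose whole forward orbit stays in `[ξ, η]`. -/
def KK (g : ℝ[X]) (ξ η : ℝ) : Set ℝ := {x | ∀ n : ℕ, (fun y => g.eval y)^[n] x ∈ Set.Icc ξ η}

/-- Real dynamical data: all fibres over `KK` are real and contained in `KK`. -/
structure RD (g : ℝ[X]) (ξ η : ℝ) : Prop where
  deg : 2 ≤ g.natDegree
  lt : ξ < η
  left : ξ ∈ KK g ξ η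
  right : η ∈ KK g ξ η
  inf : (KK g ξ η).Infinite
  card_roots : ∀ t ∈ KK g ξ η, (g - C t).roots.card = g.natDegree
  roots_mem : ∀ t ∈ KK g ξ η, ∀ y, g.eval y = t → y ∈ KK g ξ η
  noint : ∀ a b : ℝ, a < b → ¬ Set.Icc a b ⊆ KK g ξ η

/-- Critical facts. -/
structure CF (g : ℝ[X]) (ξ η : ℝ) : Prop where
  card : g.derivative.roots.card = g.natDegree - 1
  nodup : g.derivative.roots.Nodup
  mem : ∀ c ∈ g.derivative.roots, c ∈ Set.Ioo ξ η
  snd : ∀ c ∈ g.derivative.roots, g.derivative.derivative.eval c ≠ 0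
  sign : ∀ c ∈ g.derivative.roots, ∀ t ∈ KK g ξ η, (g.eval c - t) * g.derivative.derivative.eval c ≤ 0
  right : ∀ x, η < x → ∀ t ∈ KK g ξ η, 0 < g.leadingCoeff * (g.eval x - t)
  left : ∀ x, x < ξ → ∀ t ∈ KK g ξ η, 0 < (-1) ^ g.natDegree * g.leadingCoeff * (g.eval x - t)

/-- The logarithmic kernel with constant `D`. -/
noncomputable def kD (D x y : ℝ) : ENNReal :=
  if x = y then ⊤ else ENNReal.ofReal (Real.log (D / |x - y|))

/-- Energy. -/
noncomputable def ED (D : ℝ) (ν : Measure ℝ) : ENNReal := ∫⁻ x, ∫⁻ y, kD D x y ∂ν ∂ν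

/-- Balanced measures, tested on polynomials. -/
def Bal (g : ℝ[X]) (μ : Measure ℝ) : Prop :=
  ∀ φ : ℝ[X], ∫ x, φ.eval x ∂μ =
    ∫ t, (((g - C t).roots.map fun y => φ.eval y).sum / (g.natDegree : ℝ)) ∂μ

end Pool.Agent.Helper368.Bel
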