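import Pool.Agent.Helper368.Bel.Defs

set_option autoImplicit false

open MeasureTheory Filter Topology Polynomial

namespace Pool.Agent.Helper368.Bel



/-- bounded orbit set -/
def BBA (f : ℂ[X]) : Set ℂ := {z : ℂ | Bornology.IsBounded
      (Set.range (fun n : ℕ => (fun w : ℂ => f.eval w)^[n] z))}

theorem exists_escapeA (f : ℂ[X]) (hd : 2 ≤ f.natDegree) :
    ∃ R : ℝ, 0 < R ∧ ∀ z : ℂ, R ≤ ‖z‖ → 2 * ‖z‖ ≤ ‖f.eval z‖ := by
  have hdeg : 0 < (divX f).degree := by
    rw [← natDegree_pos_iff_degree_pos, natDegree_divX_eq_natDegree_tsub_one]; omega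
  have h1 : Tendsto (fun z : ℂ => ‖(divX f).eval z‖) (comap norm atTop) atTop :=
    tendsto_norm_atTop _ hdeg tendsto_comap
  have h2 := h1.eventually_ge_atTop 3
  rw [Filter.eventually_comap] at h2
  obtain ⟨R0, hR0⟩ := (Filter.eventually_atTop.mp h2)
  refine ⟨max 1 (max R0 ‖f.coeff 0‖), by positivity, fun z hz => ?_⟩
  have ha : R0 ≤ ‖z‖ := le_trans (le_trans (le_max_left _ _) (le_max_right _ _)) hz
  have hb : ‖f.coeff 0‖ ≤ ‖z‖ := le_trans (le_trans (le_max_right _ _) (le_max_right _ _)) hz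
  have hc := hR0 ‖z‖ ha z rfl
  have he : f.eval z = (divX f).eval z * z + f.coeff 0 := by
    conv_lhs => rw [← divX_mul_X_add f]
    simp
  have h3 : ‖(divX f).eval z * z‖ ≤ ‖f.eval z‖ + ‖f.coeff 0‖ := by
    have : (divX f).eval z * z = f.eval z - f.coeff 0 := by rw [he]; ring
    rw [this]; exact norm_sub_le _ _
  rw [norm_mul] at h3
  have h4 : 3 * ‖z‖ ≤ ‖(divX f).eval z‖ * ‖z‖ := mul_le_mul_of_nonneg_right hc (norm_nonneg _)
  linarith

theorem memBBA_def (f : ℂ[X]) (z : ℂ) :
    z ∈ BBA f ↔ ∃ M : ℝ, ∀ n : ℕ, ‖(fun w : ℂ => f.eval w)^[n] z‖ ≤ M := by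
  show Bornology.IsBounded (Set.range (fun n : ℕ => (fun w : ℂ => f.eval w)^[n] z)) ↔ _
  rw [isBounded_iff_forall_norm_le]
  simp

theorem memBBA_iff (f : ℂ[X]) (R : ℝ) (hR : 0 < R)
    (hesc : ∀ z : ℂ, R ≤ ‖z‖ → 2 * ‖z‖ ≤ ‖f.eval z‖) (z : ℂ) :
    z ∈ BBA f ↔ ∀ n : ℕ, ‖(fun w : ℂ => f.eval w)^[n] z‖ ≤ R := by
  constructor
  · intro h n
    by_contra hcon
    push Not at hcon
    have key : ∀ k : ℕ, 2 ^ k * R ≤ ‖(fun w : ℂ => f.eval w)^[n + k] z‖ := by
      intro k
      induction k with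
      | zero => simpa using hcon.le
      | succ k ih =>
        have h1 : R ≤ ‖(fun w : ℂ => f.eval w)^[n + k] z‖ := by
          refine le_trans ?_ ih
          have : (1:ℝ) ≤ 2 ^ k := one_le_pow₀ (by norm_num)
          nlinarith
        have h2 := hesc _ h1
        rw [← add_assoc, Function.iterate_succ_apply']
        rw [pow_succ]
        nlinarith
    obtain ⟨M, hM⟩ := (memBBA_def f z).mp h
    obtain ⟨k, hk⟩ := pow_unbounded_of_one_lt (M / R) (by norm_num : (1:ℝ) < 2)
    have h1 := key k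
    have h2 := hM (n + k)
    rw [div_lt_iff₀ hR] at hk
    linarith
  · intro h
    exact (memBBA_def f z).mpr ⟨R, h⟩

theorem mem_BBA_eval_iff (f : ℂ[X]) (z : ℂ) :
    f.eval z ∈ BBA f ↔ z ∈ BBA f := by
  constructor
  · intro h
    obtain ⟨M, hM⟩ := (memBBA_def f _).mp h
    refine (memBBA_def f _).mpr ⟨max M ‖z‖, ?_⟩
    intro n
    cases n with
    | zero => simp
    | succ n =>
      have := hM n
      simp only [Function.iterate_succ_apply] at this ⊢
      exact le_trans this (le_max_left _ _)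
  · intro h
    obtain ⟨M, hM⟩ := (memBBA_def f _).mp h
    refine (memBBA_def f _).mpr ⟨M, ?_⟩
    intro n
    have := hM (n+1)
    simpa only [Function.iterate_succ_apply] using this

theorem BBA_isClosed (f : ℂ[X]) (hd : 2 ≤ f.natDegree) : IsClosed (BBA f) := by
  obtain ⟨R, hR, hesc⟩ := exists_escapeA f hd
  have : BBA f = ⋂ n : ℕ, {z | ‖(fun w : ℂ => f.eval w)^[n] z‖ ≤ R} := by
    ext z; rw [memBBA_iff f R hR hesc]; simp
  rw [this]
  refine isClosed_iInter fun n => ?_
  refine isClosed_le ?_ continuous_const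
  exact ((f.continuous).iterate n).norm

theorem BBA_isBounded (f : ℂ[X]) (hd : 2 ≤ f.natDegree) : Bornology.IsBounded (BBA f) := by
  obtain ⟨R, hR, hesc⟩ := exists_escapeA f hd
  refine isBounded_iff_forall_norm_le.mpr ⟨R, fun z hz => ?_⟩
  simpa using (memBBA_iff f R hR hesc z).mp hz 0

theorem exists_fixedA (f : ℂ[X]) (hd : 2 ≤ f.natDegree) : ∃ p : ℂ, f.eval p = p := by
  have h1 : (f - X).natDegree = f.natDegree := by
    apply natDegree_sub_eq_left_of_natDegree_lt
    rw [natDegree_X]; omega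
  have h2 : (f - X).degree ≠ 0 := by
    intro h
    have := natDegree_eq_of_degree_eq_some (n := 0) (by simpa using h)
    omega
  obtain ⟨p, hp⟩ := IsAlgClosed.exists_root (f - X) h2
  refine ⟨p, ?_⟩
  have : (f - X).eval p = 0 := hp
  rw [eval_sub, eval_X] at this
  linear_combination this

theorem fixed_mem_BBA (f : ℂ[X]) (p : ℂ) (hp : f.eval p = p) : p ∈ BBA f := by
  have : ∀ n : ℕ, (fun w : ℂ => f.eval w)^[n] p = p := by
    intro n
    exact Function.iterate_fixed hp n
  refine (memBBA_def f p).mpr ⟨‖p‖, ?_⟩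
  intro n
  simp [this]

theorem BBA_real (f : ℂ[X]) (hd : 2 ≤ f.natDegree)
    (hreal : frontier (BBA f) ⊆ Set.range ((↑) : ℝ → ℂ)) :
    BBA f ⊆ Set.range ((↑) : ℝ → ℂ) := by
  have hb := BBA_isBounded f hd
  obtain ⟨M, hM⟩ := isBounded_iff_forall_norm_le.mp hb
  intro z hz
  by_contra hcon
  have him : z.im ≠ 0 := by
    intro h
    exact hcon ⟨z.re, by apply Complex.ext <;> simp [h]⟩
  -- half plane containing z
  set s : ℝ := if 0 < z.im then 1 else -1 with hs
  have hspos : 0 < s * z.im := by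
    rw [hs]
    split_ifs with h
    · simpa using h
    · have : z.im < 0 := lt_of_le_of_ne (not_lt.mp h) him
      linarith
  have hs2 : s * s = 1 := by
    rw [hs]; split_ifs <;> norm_num
  have hconv : Convex ℝ {w : ℂ | 0 < s * w.im} := by
    intro x hx y hy a b ha hb hab
    simp only [Set.mem_ofPred_eq] at hx hy ⊢
    have : (a • x + b • y).im = a * x.im + b * y.im := by simp
    rw [this]
    rcases ha.eq_or_lt with h | h
    · have : b = 1 := by linarith
      rw [← h, this]; simpa using hy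
    · have h1 : 0 < a * (s * x.im) := mul_pos h hx
      have h2 : 0 ≤ b * (s * y.im) := mul_nonneg hb hy.le
      nlinarith
  have hpre : IsPreconnected {w : ℂ | 0 < s * w.im} := hconv.isPreconnected
  have h1 : ({w : ℂ | 0 < s * w.im} ∩ BBA f).Nonempty := ⟨z, hspos, hz⟩
  have h2 : ({w : ℂ | 0 < s * w.im} ∩ (BBA f)ᶜ).Nonempty := by
    refine ⟨((s * (|M| + 1) : ℝ) : ℂ) * Complex.I, ?_, ?_⟩
    · simp only [Set.mem_ofPred_eq, Complex.mul_im, Complex.ofReal_re, Complex.I_im,
        Complex.ofReal_im, Complex.I_re]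
      have : 0 ≤ |M| := abs_nonneg M
      nlinarith
    · intro h
      have h3 := hM _ h
      rw [norm_mul, Complex.norm_I, mul_one, Complex.norm_real, Real.norm_eq_abs, abs_mul] at h3
      have h4 : |s| = 1 := by
        rw [hs]; split_ifs <;> norm_num
      rw [h4, one_mul, abs_of_pos (by positivity)] at h3
      have := le_abs_self M
      linarith
  have hnf : ∀ w : ℂ, 0 < s * w.im → w ∉ frontier (BBA f) := by
    intro w hw hw2
    obtain ⟨x, rfl⟩ := hreal hw2
    simp at hw
  have hcl := BBA_isClosed f hd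
  have hint : ∀ w : ℂ, 0 < s * w.im → w ∈ BBA f → w ∈ interior (BBA f) := by
    intro w hw hwB
    by_contra hc
    apply hnf w hw
    rw [frontier, hcl.closure_eq]
    exact ⟨hwB, hc⟩
  obtain ⟨w, -, hw2, hw3⟩ := hpre (interior (BBA f)) (BBA f)ᶜ isOpen_interior hcl.isOpen_compl
    (fun w hw => by
      by_cases hwB : w ∈ BBA f
      · exact Or.inl (hint w hw hwB)
      · exact Or.inr hwB) ⟨z, hspos, hint z hspos hz⟩ h2
  exact hw3 (interior_subset hw2)

theorem interior_real_empty (s : Set ℂ) (hs : s ⊆ Set.range ((↑) : ℝ → ℂ)) : interior s = ∅ := by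
  by_contra h
  obtain ⟨z, hz⟩ := Set.nonempty_iff_ne_empty.mpr h
  obtain ⟨ε, hε, hb⟩ := Metric.mem_nhds_iff.mp (mem_interior_iff_mem_nhds.mp hz)
  have h1 : z + ((ε / 2 : ℝ) : ℂ) * Complex.I ∈ s := by
    apply hb
    rw [Metric.mem_ball, dist_eq_norm, add_sub_cancel_left, norm_mul, Complex.norm_I, mul_one,
      Complex.norm_real, Real.norm_eq_abs, abs_of_pos (by positivity)]
    linarith
  obtain ⟨x, hx⟩ := hs h1
  obtain ⟨y, hy⟩ := hs (interior_subset hz)
  have := congrArg Complex.im hx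
  rw [← hy] at this
  simp at this
  linarith

theorem frontier_BBA (f : ℂ[X]) (hd : 2 ≤ f.natDegree)
    (hreal : frontier (BBA f) ⊆ Set.range ((↑) : ℝ → ℂ)) : frontier (BBA f) = BBA f := by
  rw [frontier, (BBA_isClosed f hd).closure_eq, interior_real_empty _ (BBA_real f hd hreal)]
  simp

theorem BBA_infinite (f : ℂ[X]) (hd : 2 ≤ f.natDegree)
    (hreal : BBA f ⊆ Set.range ((↑) : ℝ → ℂ)) : (BBA f).Infinite := by
  intro hfin
  obtain ⟨p, hp⟩ := exists_fixedA f hd
  have hpB := fixed_mem_BBA f p hp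
  -- f is injective on B
  have hsurj : Set.SurjOn (fun z => f.eval z) (BBA f) (BBA f) := by
    intro w hw
    have h1 : (f - C w).natDegree = f.natDegree := natDegree_sub_C
    have h2 : (f - C w).degree ≠ 0 := by
      intro h
      have := natDegree_eq_of_degree_eq_some (n := 0) (by simpa using h)
      omega
    obtain ⟨z, hz⟩ := IsAlgClosed.exists_root (f - C w) h2
    have h3 : f.eval z = w := by
      have : (f - C w).eval z = 0 := hz
      rw [eval_sub, eval_C] at this
      linear_combination this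
    refine ⟨z, ?_, h3⟩
    rw [← mem_BBA_eval_iff, h3]
    exact hw
  have hmaps : Set.MapsTo (fun z => f.eval z) (BBA f) (BBA f) := by
    intro z hz
    exact (mem_BBA_eval_iff f z).mpr hz
  have hinj : Set.InjOn (fun z => f.eval z) (BBA f) := by
    have := Set.Finite.injOn_of_encard_image_eq hfin (f := fun z => f.eval z) (by
      rw [Set.SurjOn.image_eq_of_mapsTo hsurj hmaps])
    exact this
  -- unique root
  have hroots : ∀ z ∈ (f - C p).roots, z = p := by
    intro z hz
    have h0 : (f - C p).eval z = 0 := isRoot_of_mem_roots hz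
    have h3 : f.eval z = p := by
      rw [eval_sub, eval_C] at h0
      linear_combination h0
    have hzB : z ∈ BBA f := by
      rw [← mem_BBA_eval_iff, h3]; exact hpB
    exact hinj hzB hpB (by simp only [h3, hp])
  have hsplit : (f - C p).Splits := IsAlgClosed.splits _
  have hrep : (f - C p).roots = Multiset.replicate f.natDegree p := by
    rw [Multiset.eq_replicate]
    refine ⟨?_, hroots⟩
    rw [← hsplit.natDegree_eq_card_roots, natDegree_sub_C]
  have heq : ∀ z, f.eval z - p = f.leadingCoeff * (z - p) ^ f.natDegree := by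
    intro z
    have h1 := hsplit.eq_prod_roots
    rw [hrep] at h1
    have h2 := congrArg (eval z) h1
    have hlc : (f - C p).leadingCoeff = f.leadingCoeff := by
      apply leadingCoeff_sub_of_degree_lt
      refine lt_of_le_of_lt degree_C_le ?_
      rw [← natDegree_pos_iff_degree_pos]; omega
    simpa [hlc, eval_pow] using h2
  have hlc0 : 0 < ‖f.leadingCoeff‖ := by
    rw [norm_pos_iff, leadingCoeff_ne_zero]
    rintro rfl
    simp at hd
  set δ : ℝ := min 1 (1 / ‖f.leadingCoeff‖) with hδ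
  have hδ0 : 0 < δ := by positivity
  have hδ1 : δ ≤ 1 := min_le_left _ _
  have hδ2 : ‖f.leadingCoeff‖ * δ ≤ 1 := by
    have : δ ≤ 1 / ‖f.leadingCoeff‖ := min_le_right _ _
    rwa [le_div_iff₀ hlc0, mul_comm] at this
  have hstep : ∀ z, ‖z - p‖ ≤ δ → ‖f.eval z - p‖ ≤ δ := by
    intro z hz
    rw [heq z, norm_mul, norm_pow]
    obtain ⟨k, hk⟩ : ∃ k, f.natDegree = k + 2 := ⟨f.natDegree - 2, by omega⟩
    rw [hk]
    have h1 : ‖z - p‖ ^ (k + 2) ≤ δ ^ (k+2) := pow_le_pow_left₀ (norm_nonneg _) hz _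
    have h2 : δ ^ (k + 2) ≤ δ ^ 2 := pow_le_pow_of_le_one hδ0.le hδ1 (by omega)
    calc ‖f.leadingCoeff‖ * ‖z - p‖ ^ (k + 2) ≤ ‖f.leadingCoeff‖ * δ ^ 2 := by
          apply mul_le_mul_of_nonneg_left (h1.trans h2) hlc0.le
      _ = (‖f.leadingCoeff‖ * δ) * δ := by ring
      _ ≤ 1 * δ := by apply mul_le_mul_of_nonneg_right hδ2 hδ0.le
      _ = δ := one_mul _
  have hmem : ∀ z, ‖z - p‖ ≤ δ → z ∈ BBA f := by
    intro z hz
    have hit : ∀ n : ℕ, ‖(fun w : ℂ => f.eval w)^[n] z - p‖ ≤ δ := by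
      intro n
      induction n with
      | zero => simpa using hz
      | succ n ih =>
        rw [Function.iterate_succ_apply']
        exact hstep _ ih
    refine (memBBA_def f z).mpr ⟨δ + ‖p‖, fun n => ?_⟩
    calc ‖(fun w : ℂ => f.eval w)^[n] z‖ = ‖((fun w : ℂ => f.eval w)^[n] z - p) + p‖ := by
          rw [sub_add_cancel]
      _ ≤ _ := norm_add_le _ _
      _ ≤ _ := by linarith [hit n]
  have h1 : p + ((δ : ℝ) : ℂ) * Complex.I ∈ BBA f := by
    apply hmem
    rw [add_sub_cancel_left, norm_mul, Complex.norm_I, mul_one,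
      Complex.norm_real, Real.norm_eq_abs, abs_of_pos hδ0]
  obtain ⟨x, hx⟩ := hreal h1
  obtain ⟨y, hy⟩ := hreal hpB
  have := congrArg Complex.im hx
  rw [← hy] at this
  simp at this
  linarith

theorem iterate_castA (g : ℝ[X]) (f : ℂ[X]) (hfg : f = g.map (algebraMap ℝ ℂ)) (n : ℕ) (x : ℝ) :
    (fun w : ℂ => f.eval w)^[n] (x : ℂ) = (((fun y => g.eval y)^[n] x : ℝ) : ℂ) := by
  induction n with
  | zero => rfl
  | succ n ih =>
    rw [Function.iterate_succ_apply', Function.iterate_succ_apply', ih, hfg]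
    exact eval_map_apply (algebraMap ℝ ℂ) _

theorem RD_of_julia (f : ℂ[X]) (hd : 2 ≤ f.natDegree) (J : Set ℂ)
    (hJ : J = frontier {z : ℂ | Bornology.IsBounded
      (Set.range (fun n : ℕ => (fun w : ℂ => f.eval w)^[n] z))})
    (hreal : J ⊆ Set.range ((↑) : ℝ → ℂ)) (htd : IsTotallyDisconnected J) :
    ∃ (g : ℝ[X]) (ξ η : ℝ), f = g.map (algebraMap ℝ ℂ) ∧ RD g ξ η ∧
      J = (fun x : ℝ => (x : ℂ)) '' KK g ξ η ∧ Metric.diam J = η - ξ := by
  change J = frontier (BBA f) at hJ
  rw [hJ] at hreal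
  have hBr := BBA_real f hd hreal
  rw [frontier_BBA f hd hreal] at hJ
  have hinf := BBA_infinite f hd hBr
  -- real polynomial
  have hconj : f.map (starRingEnd ℂ) = f := by
    apply eq_of_infinite_eval_eq
    refine hinf.mono ?_
    intro z hz
    obtain ⟨x, rfl⟩ := hBr hz
    obtain ⟨y, hy⟩ := hBr ((mem_BBA_eval_iff f _).mpr hz)
    show eval (x : ℂ) (f.map (starRingEnd ℂ)) = eval (x:ℂ) f
    have h1 : (x : ℂ) = (starRingEnd ℂ) (x : ℂ) := (Complex.conj_ofReal x).symm
    conv_lhs => rw [h1, eval_map, eval₂_at_apply, ← hy, Complex.conj_ofReal]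
    exact hy
  have hlift : f ∈ lifts (algebraMap ℝ ℂ) := by
    rw [lifts_iff_coeff_lifts]
    intro n
    have h1 := congrArg (fun p => coeff p n) hconj
    simp only [coeff_map] at h1
    exact ⟨(f.coeff n).re, Complex.conj_eq_iff_re.mp h1⟩
  obtain ⟨g, hg⟩ := (mem_lifts f).mp hlift
  have hfg : f = g.map (algebraMap ℝ ℂ) := hg.symm
  have hdg : g.natDegree = f.natDegree := by
    rw [hfg, natDegree_map]
  set K : Set ℝ := (fun x : ℝ => (x : ℂ)) ⁻¹' BBA f with hK
  have himg : BBA f = (fun x : ℝ => (x : ℂ)) '' K := by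
    rw [hK, Set.image_preimage_eq_inter_range]
    exact (Set.inter_eq_left.mpr hBr).symm
  have hKinf : K.Infinite := by
    intro h
    exact hinf (by rw [himg]; exact h.image _)
  have hKcl : IsClosed K := (BBA_isClosed f hd).preimage Complex.continuous_ofReal
  have hKbd : Bornology.IsBounded K := by
    obtain ⟨M, hM⟩ := isBounded_iff_forall_norm_le.mp (BBA_isBounded f hd)
    refine isBounded_iff_forall_norm_le.mpr ⟨M, fun x hx => ?_⟩
    have := hM _ hx
    simpa using this
  have hKcpt : IsCompact K := Metric.isCompact_of_isClosed_isBounded hKcl hKbd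
  have hKne : K.Nonempty := hKinf.nonempty
  have hξ : sInf K ∈ K := hKcpt.sInf_mem hKne
  have hη : sSup K ∈ K := hKcpt.sSup_mem hKne
  have hsub : K ⊆ Set.Icc (sInf K) (sSup K) := fun x hx =>
    ⟨csInf_le hKcpt.bddBelow hx, le_csSup hKcpt.bddAbove hx⟩
  have hlt : sInf K < sSup K := by
    by_contra h
    have h1 : K ⊆ {sInf K} := by
      intro x hx
      have h2 := hsub hx
      rw [Set.mem_singleton_iff]
      exact le_antisymm (h2.2.trans (not_lt.mp h)) h2.1
    exact hKinf ((Set.finite_singleton _).subset h1)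
  have hKg : ∀ x, x ∈ K ↔ g.eval x ∈ K := by
    intro x
    show (x : ℂ) ∈ BBA f ↔ ((g.eval x : ℝ) : ℂ) ∈ BBA f
    rw [← mem_BBA_eval_iff]
    have : eval (x : ℂ) f = ((g.eval x : ℝ) : ℂ) := by
      have := iterate_castA g f hfg 1 x
      simpa using this
    rw [this]
  have hKK : KK g (sInf K) (sSup K) = K := by
    ext x
    constructor
    · intro hx
      show (x : ℂ) ∈ BBA f
      rw [memBBA_def]
      refine ⟨max |sInf K| |sSup K|, fun n => ?_⟩
      rw [iterate_castA g f hfg, Complex.norm_real, Real.norm_eq_abs]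
      have := hx n
      exact abs_le_max_abs_abs this.1 this.2
    · intro hx n
      apply hsub
      induction n with
      | zero => exact hx
      | succ n ih =>
        rw [Function.iterate_succ_apply']
        exact (hKg _).mp ih
  refine ⟨g, sInf K, sSup K, hfg, ?_, ?_, ?_⟩
  · refine ⟨by omega, hlt, by rw [hKK]; exact hξ, by rw [hKK]; exact hη, by rw [hKK]; exact hKinf,
      ?_, ?_, ?_⟩
    · rw [hKK]
      intro t ht
      have hmap : (g - C t).map (algebraMap ℝ ℂ) = f - C (t : ℂ) := by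
        rw [Polynomial.map_sub, map_C, ← hfg]; rfl
      have hs : (g - C t).Splits := by
        refine Splits.of_splits_map (algebraMap ℝ ℂ) (IsAlgClosed.splits _) ?_
        intro a ha
        rw [hmap] at ha
        have h0 : (f - C (t:ℂ)).eval a = 0 := isRoot_of_mem_roots ha
        have h3 : f.eval a = t := by
          rw [eval_sub, eval_C] at h0
          linear_combination h0
        have haB : a ∈ BBA f := by
          rw [← mem_BBA_eval_iff, h3]; exact ht
        obtain ⟨y, hy⟩ := hBr haB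
        exact ⟨y, hy⟩
      rw [← hs.natDegree_eq_card_roots, natDegree_sub_C]
    · rw [hKK]
      intro t ht y hy
      rw [hKg, hy]
      exact ht
    · rw [hKK]
      intro a b hab hsub2
      have h1 : IsPreconnected ((fun x : ℝ => (x : ℂ)) '' Set.Icc a b) :=
        isPreconnected_Icc.image _ Complex.continuous_ofReal.continuousOn
      have h2 : (fun x : ℝ => (x : ℂ)) '' Set.Icc a b ⊆ J := by
        rw [hJ, himg]
        exact Set.image_mono hsub2
      have h3 := htd _ h2 h1
      have h4 := h3 (Set.mem_image_of_mem _ (Set.left_mem_Icc.mpr hab.le))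
        (Set.mem_image_of_mem _ (Set.right_mem_Icc.mpr hab.le))
      exact hab.ne (Complex.ofReal_injective h4)
  · rw [hJ, hKK]; exact himg
  · rw [hJ, himg, Complex.isometry_ofReal.diam_image, Real.diam_eq hKbd]

end Pool.Agent.Helper368.Bel
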