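import Pool.Agent.Helper368.Bel.Defs

set_option autoImplicit false

open MeasureTheory Filter Topology Polynomial

namespace Pool.Agent.Helper368.Bel



theorem jB_laguerre (s : Multiset ℝ) (x : ℝ) :
    0 ≤ ((s.map (fun y => X - C y)).prod.derivative.eval x) ^ 2 -
      (s.map (fun y => X - C y)).prod.eval x *
        (s.map (fun y => X - C y)).prod.derivative.derivative.eval x := by
  induction s using Multiset.induction_on with
  | empty => simp
  | cons a s ih =>
    rw [Multiset.map_cons, Multiset.prod_cons]
    generalize (s.map (fun y => X - C y)).prod = q at *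
    have h1 : ((X - C a) * q).derivative = q + (X - C a) * q.derivative := by
      rw [derivative_mul]; simp
    have h2 : (q + (X - C a) * q.derivative).derivative =
        q.derivative + (q.derivative + (X - C a) * q.derivative.derivative) := by
      rw [derivative_add, derivative_mul]; simp
    rw [h1, h2]
    simp only [eval_add, eval_mul, eval_sub, eval_X, eval_C]
    have h3 : (eval x q + (x - a) * eval x (derivative q)) ^ 2 -
        (x - a) * eval x q * (eval x (derivative q) + (eval x (derivative q) +
          (x - a) * eval x (derivative (derivative q)))) =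
        eval x q ^ 2 + (x - a) ^ 2 * (eval x (derivative q) ^ 2 -
          eval x q * eval x (derivative (derivative q))) := by ring
    rw [h3]
    positivity

theorem jB_right (s : Multiset ℝ) (x : ℝ) (hs : ∀ y ∈ s, y < x) :
    0 < (s.map (fun y => X - C y)).prod.eval x ∧
    0 ≤ (s.map (fun y => X - C y)).prod.derivative.eval x ∧
    (s ≠ 0 → 0 < (s.map (fun y => X - C y)).prod.derivative.eval x) := by
  induction s using Multiset.induction_on with
  | empty => simp
  | cons a s ih =>
    have ih' := ih (fun y hy => hs y (Multiset.mem_cons_of_mem hy))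
    have ha := hs a (Multiset.mem_cons_self _ _)
    rw [Multiset.map_cons, Multiset.prod_cons]
    generalize (s.map (fun y => X - C y)).prod = q at *
    have h1 : ((X - C a) * q).derivative = q + (X - C a) * q.derivative := by
      rw [derivative_mul]; simp
    rw [h1]
    simp only [eval_add, eval_mul, eval_sub, eval_X, eval_C]
    have h2 : 0 < x - a := by linarith
    have h3 := ih'.1
    have h4 := ih'.2.1
    have h5 : 0 < eval x q + (x - a) * eval x (derivative q) := by positivity
    exact ⟨by positivity, h5.le, fun _ => h5⟩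

theorem jB_left (s : Multiset ℝ) (x : ℝ) (hs : ∀ y ∈ s, x < y) :
    0 < (-1) ^ (Multiset.card s) * (s.map (fun y => X - C y)).prod.eval x ∧
    (-1) ^ (Multiset.card s) * (s.map (fun y => X - C y)).prod.derivative.eval x ≤ 0 ∧
    (s ≠ 0 → (-1) ^ (Multiset.card s) * (s.map (fun y => X - C y)).prod.derivative.eval x < 0) := by
  induction s using Multiset.induction_on with
  | empty => simp
  | cons a s ih =>
    have ih' := ih (fun y hy => hs y (Multiset.mem_cons_of_mem hy))
    have ha := hs a (Multiset.mem_cons_self _ _)
    rw [Multiset.map_cons, Multiset.prod_cons, Multiset.card_cons, pow_succ]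
    generalize (s.map (fun y => X - C y)).prod = q at *
    generalize ((-1 : ℝ) ^ (Multiset.card s)) = e at *
    have h1 : ((X - C a) * q).derivative = q + (X - C a) * q.derivative := by
      rw [derivative_mul]; simp
    rw [h1]
    simp only [eval_add, eval_mul, eval_sub, eval_X, eval_C]
    have h2 : 0 < a - x := by linarith
    have h3 := ih'.1
    have h4 := ih'.2.1
    have h5 : e * -1 * (eval x q + (x - a) * eval x (derivative q)) < 0 := by
      have h6 : e * -1 * (eval x q + (x - a) * eval x (derivative q)) =
          -(e * eval x q) + (a - x) * (e * eval x (derivative q)) := by ring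
      rw [h6]
      nlinarith [mul_nonneg h2.le (neg_nonneg.2 h4)]
    refine ⟨?_, h5.le, fun _ => h5⟩
    have h7 : e * -1 * ((x - a) * eval x q) = (a - x) * (e * eval x q) := by ring
    rw [h7]
    positivity

theorem CF_of_RD {g : ℝ[X]} {ξ η : ℝ} (h : RD g ξ η) : CF g ξ η := by
  classical
  have hdeg := h.deg
  have hg0 : g ≠ 0 := by
    rintro rfl
    simp at hdeg
  have hlc : g.leadingCoeff ≠ 0 := leadingCoeff_ne_zero.2 hg0
  have hKI : ∀ t ∈ KK g ξ η, ξ ≤ t ∧ t ≤ η := fun t ht => ht 0
  have hnd : ∀ t : ℝ, (g - C t).natDegree = g.natDegree := fun t => natDegree_sub_C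
  have hlct : ∀ t : ℝ, (g - C t).leadingCoeff = g.leadingCoeff := by
    intro t
    rw [leadingCoeff, hnd, coeff_sub, coeff_C, if_neg (by omega), sub_zero, leadingCoeff]
  have hderiv : ∀ t : ℝ, (g - C t).derivative = g.derivative := by
    intro t; rw [derivative_sub, derivative_C, sub_zero]
  have hp0 : ∀ t : ℝ, g - C t ≠ 0 := by
    intro t ht
    have := hnd t
    rw [ht] at this
    simp at this
    omega
  have hprod : ∀ t ∈ KK g ξ η, g - C t =
      C g.leadingCoeff * ((g - C t).roots.map (fun y => X - C y)).prod := by
    intro t ht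
    have h1 := C_leadingCoeff_mul_prod_multiset_X_sub_C (p := g - C t)
      (by rw [h.card_roots t ht, hnd])
    rw [hlct] at h1
    exact h1.symm
  have hroots : ∀ t ∈ KK g ξ η, ∀ y ∈ (g - C t).roots, ξ ≤ y ∧ y ≤ η := by
    intro t ht y hy
    apply hKI
    apply h.roots_mem t ht
    have := (mem_roots (hp0 t)).1 hy
    rw [IsRoot.def, eval_sub, eval_C, sub_eq_zero] at this
    exact this
  have hd'0 : g.derivative ≠ 0 := by
    intro h0
    have := derivative_eq_zero.1 h0
    omega
  have hdn : g.derivative.natDegree ≤ g.natDegree - 1 := natDegree_derivative_le g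
  -- a regular value
  obtain ⟨t0, ht0, hreg⟩ : ∃ t0 ∈ KK g ξ η, ∀ c ∈ g.derivative.roots, g.eval c ≠ t0 := by
    have hfin : ((g.derivative.roots.toFinset.image (fun c => g.eval c) : Finset ℝ) : Set ℝ).Finite :=
      Finset.finite_toSet _
    obtain ⟨t0, ht0, ht1⟩ := (h.inf.sdiff hfin).nonempty
    refine ⟨t0, ht0, fun c hc hct => ht1 ?_⟩
    apply Finset.mem_coe.2
    exact Finset.mem_image.2 ⟨c, Multiset.mem_toFinset.2 hc, hct⟩
  have hsimple : (g - C t0).roots.Nodup := by
    rw [Multiset.nodup_iff_count_le_one]
    intro y
    rw [count_roots]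
    by_contra hcon
    have h1 := (one_lt_rootMultiplicity_iff_isRoot (hp0 t0)).1 (not_le.1 hcon)
    have h2 : y ∈ g.derivative.roots := by
      rw [mem_roots hd'0, ← hderiv t0]; exact h1.2
    apply hreg y h2
    have := h1.1
    rw [IsRoot.def, eval_sub, eval_C, sub_eq_zero] at this
    exact this
  have hcard1 : g.natDegree ≤ g.derivative.roots.toFinset.card + 1 := by
    have h1 := card_roots_toFinset_le_derivative (g - C t0)
    rw [hderiv, Multiset.toFinset_card_of_nodup hsimple, h.card_roots t0 ht0] at h1
    exact h1
  have hcard2 : Multiset.card g.derivative.roots ≤ g.derivative.natDegree := card_roots' _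
  have hcard3 : g.derivative.roots.toFinset.card ≤ Multiset.card g.derivative.roots :=
    Multiset.toFinset_card_le _
  have hnodup : g.derivative.roots.Nodup := by
    rw [← Multiset.toFinset_card_eq_card_iff_nodup]
    omega
  have hmem : ∀ c ∈ g.derivative.roots, c ∈ Set.Ioo ξ η := by
    intro c hc
    have hc0 : (g - C t0).derivative.eval c = 0 := by
      rw [hderiv]; exact (mem_roots hd'0).1 hc
    have hcr : ∀ y ∈ (g - C t0).roots, y ≠ c := by
      rintro y hy rfl
      apply hreg y hc
      have := (mem_roots (hp0 t0)).1 hy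
      rw [IsRoot.def, eval_sub, eval_C, sub_eq_zero] at this
      exact this
    have hne : (g - C t0).roots ≠ 0 := by
      intro h0
      have := h.card_roots t0 ht0
      rw [h0, Multiset.card_zero] at this
      omega
    rw [hprod t0 ht0, derivative_C_mul, eval_mul, eval_C] at hc0
    have hc1 := (mul_eq_zero.1 hc0).resolve_left hlc
    constructor
    · by_contra hcon
      have h1 := (jB_left (g - C t0).roots c (fun y hy => lt_of_le_of_ne
        ((not_lt.1 hcon).trans (hroots t0 ht0 y hy).1) (hcr y hy).symm)).2.2 hne
      rw [hc1, mul_zero] at h1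
      exact lt_irrefl _ h1
    · by_contra hcon
      have h1 := (jB_right (g - C t0).roots c (fun y hy => lt_of_le_of_ne
        ((hroots t0 ht0 y hy).2.trans (not_lt.1 hcon)) (hcr y hy))).2.2 hne
      rw [hc1] at h1
      exact lt_irrefl _ h1
  refine ⟨by omega, hnodup, hmem, ?_, ?_, ?_, ?_⟩
  · intro c hc h0
    have h1 := (one_lt_rootMultiplicity_iff_isRoot hd'0).2 ⟨(mem_roots hd'0).1 hc, h0⟩
    rw [← count_roots] at h1
    have h2 := Multiset.nodup_iff_count_le_one.1 hnodup c
    omega
  · intro c hc t ht
    have hc0 : (g - C t).derivative.eval c = 0 := by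
      rw [hderiv]; exact (mem_roots hd'0).1 hc
    have h1 := jB_laguerre (g - C t).roots c
    have h2 : (g.eval c - t) * g.derivative.derivative.eval c =
        (g - C t).eval c * (g - C t).derivative.derivative.eval c := by
      rw [hderiv, eval_sub, eval_C]
    rw [h2]
    rw [hprod t ht] at hc0 ⊢
    generalize ((g - C t).roots.map (fun y => X - C y)).prod = q at *
    simp only [derivative_C_mul, eval_mul, eval_C] at hc0 ⊢
    have h3 := (mul_eq_zero.1 hc0).resolve_left hlc
    rw [h3] at h1
    nlinarith [mul_nonneg (sq_nonneg g.leadingCoeff) (by linarith : 0 ≤ -(eval c q *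
      eval c (derivative (derivative q))))]
  · intro x hx t ht
    have h1 := (jB_right (g - C t).roots x
      (fun y hy => lt_of_le_of_lt (hroots t ht y hy).2 hx)).1
    have h2 : g.eval x - t = (g - C t).eval x := by rw [eval_sub, eval_C]
    rw [h2, hprod t ht, eval_mul, eval_C, ← mul_assoc]
    have : 0 < g.leadingCoeff * g.leadingCoeff := mul_self_pos.2 hlc
    exact mul_pos this h1
  · intro x hx t ht
    have h1 := (jB_left (g - C t).roots x
      (fun y hy => lt_of_lt_of_le hx (hroots t ht y hy).1)).1
    rw [h.card_roots t ht] at h1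
    have h2 : g.eval x - t = (g - C t).eval x := by rw [eval_sub, eval_C]
    rw [h2, hprod t ht, eval_mul, eval_C]
    generalize ((g - C t).roots.map (fun y => X - C y)).prod = q at *
    have h3 : 0 < g.leadingCoeff * g.leadingCoeff := mul_self_pos.2 hlc
    have h4 : (-1) ^ g.natDegree * g.leadingCoeff * (g.leadingCoeff * eval x q) =
      (g.leadingCoeff * g.leadingCoeff) * ((-1) ^ g.natDegree * eval x q) := by ring
    rw [h4]
    exact mul_pos h3 h1

end Pool.Agent.Helper368.Bel
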