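import Pool.Agent.Helper368.Bel.Defs

set_option autoImplicit false

open MeasureTheory Filter Topology Polynomial

namespace Pool.Agent.Helper368.Bel



theorem two_mul_le_sq' (a b : ENNReal) : 2 * (a * b) ≤ a * a + b * b := by
  wlog h : a ≤ b generalizing a b
  · rw [mul_comm a b, add_comm]
    exact this b a (le_of_not_ge h)
  · obtain ⟨c, rfl⟩ := exists_add_of_le h
    have e : a * a + (a + c) * (a + c) = 2 * (a * (a + c)) + c * c := by ring
    rw [e]
    exact le_self_add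

theorem eq_of_sq_le {a b : ENNReal} (ha : a ≠ ⊤) (hb : b ≠ ⊤) (h : a * a + b * b ≤ 2 * (a * b)) : a = b := by
  lift a to NNReal using ha
  lift b to NNReal using hb
  have h' : (a:ℝ) * a + b * b ≤ 2 * (a * b) := by exact_mod_cast h
  have : (a:ℝ) - b = 0 := by nlinarith [sq_nonneg ((a:ℝ) - b)]
  have h2 : (a:ℝ) = b := by linarith
  exact_mod_cast h2

theorem swap3' {Ω : Type*} [MeasurableSpace Ω] (m : Measure Ω) [SFinite m] (α β : Measure ℝ)
    [SFinite α] [SFinite β] (g : Ω → ℝ → ENNReal) (hg : Measurable (Function.uncurry g)) :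
    ∫⁻ x, ∫⁻ y, ∫⁻ ω, g ω x * g ω y ∂m ∂β ∂α =
      ∫⁻ ω, (∫⁻ x, g ω x ∂α) * (∫⁻ y, g ω y ∂β) ∂m := by
  have m1 : ∀ ω, Measurable fun x => g ω x := fun ω => hg.comp (measurable_const.prodMk measurable_id)
  have m2 : ∀ x, Measurable fun ω => g ω x := fun x => hg.comp (measurable_id.prodMk measurable_const)
  have mG : Measurable fun ω => ∫⁻ y, g ω y ∂β := hg.lintegral_prod_right'
  have e1 : ∀ x, ∫⁻ y, ∫⁻ ω, g ω x * g ω y ∂m ∂β = ∫⁻ ω, g ω x * ∫⁻ y, g ω y ∂β ∂m := by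
    intro x
    rw [lintegral_lintegral_swap]
    · exact lintegral_congr fun ω => lintegral_const_mul _ (m1 ω)
    · have : Measurable fun p : ℝ × Ω => g p.2 x * g p.2 p.1 :=
        ((m2 x).comp measurable_snd).mul (hg.comp (measurable_snd.prodMk measurable_fst))
      exact this.aemeasurable
  simp only [e1]
  rw [lintegral_lintegral_swap]
  · exact lintegral_congr fun ω => lintegral_mul_const _ (m1 ω)
  · have : Measurable fun p : ℝ × Ω => g p.2 p.1 * ∫⁻ y, g p.2 y ∂β :=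
      (hg.comp (measurable_snd.prodMk measurable_fst)).mul (mG.comp measurable_snd)
    exact this.aemeasurable

theorem pd_gen' {Ω : Type*} [MeasurableSpace Ω] (m : Measure Ω) [SFinite m] (α β : Measure ℝ)
    [SFinite α] [SFinite β] (g : Ω → ℝ → ENNReal) (hg : Measurable (Function.uncurry g)) :
    2 * ∫⁻ x, ∫⁻ y, ∫⁻ ω, g ω x * g ω y ∂m ∂β ∂α ≤
      ∫⁻ x, ∫⁻ y, ∫⁻ ω, g ω x * g ω y ∂m ∂α ∂α + ∫⁻ x, ∫⁻ y, ∫⁻ ω, g ω x * g ω y ∂m ∂β ∂β := by
  have mA : Measurable fun ω => ∫⁻ y, g ω y ∂α := hg.lintegral_prod_right'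
  have mB : Measurable fun ω => ∫⁻ y, g ω y ∂β := hg.lintegral_prod_right'
  rw [swap3' m α β g hg, swap3' m α α g hg, swap3' m β β g hg]
  have e1 : 2 * ∫⁻ ω, (∫⁻ x, g ω x ∂α) * (∫⁻ y, g ω y ∂β) ∂m =
      ∫⁻ ω, 2 * ((∫⁻ x, g ω x ∂α) * (∫⁻ y, g ω y ∂β)) ∂m :=
    (lintegral_const_mul _ (mA.mul mB)).symm
  have e2 : ∫⁻ ω, (∫⁻ x, g ω x ∂α) * (∫⁻ y, g ω y ∂α) ∂m +
      ∫⁻ ω, (∫⁻ x, g ω x ∂β) * (∫⁻ y, g ω y ∂β) ∂m =
      ∫⁻ ω, ((∫⁻ x, g ω x ∂α) * (∫⁻ y, g ω y ∂α) + (∫⁻ x, g ω x ∂β) * (∫⁻ y, g ω y ∂β)) ∂m :=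
    (lintegral_add_left (mA.mul mA) _).symm
  rw [e1, e2]
  exact lintegral_mono fun ω => two_mul_le_sq' _ _

theorem uniq_gen {Ω : Type*} [MeasurableSpace Ω] (m : Measure Ω) [SFinite m] (α β : Measure ℝ)
    [SFinite α] [SFinite β] (g : Ω → ℝ → ENNReal) (hg : Measurable (Function.uncurry g))
    (hfa : ∫⁻ x, ∫⁻ y, ∫⁻ ω, g ω x * g ω y ∂m ∂α ∂α < ⊤)
    (hfb : ∫⁻ x, ∫⁻ y, ∫⁻ ω, g ω x * g ω y ∂m ∂β ∂β < ⊤)
    (hA : ∀ ω, ∫⁻ x, g ω x ∂α ≠ ⊤) (hB : ∀ ω, ∫⁻ x, g ω x ∂β ≠ ⊤)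
    (h : ∫⁻ x, ∫⁻ y, ∫⁻ ω, g ω x * g ω y ∂m ∂α ∂α + ∫⁻ x, ∫⁻ y, ∫⁻ ω, g ω x * g ω y ∂m ∂β ∂β ≤
      2 * ∫⁻ x, ∫⁻ y, ∫⁻ ω, g ω x * g ω y ∂m ∂β ∂α) :
    ∀ᵐ ω ∂m, ∫⁻ x, g ω x ∂α = ∫⁻ x, g ω x ∂β := by
  have mA : Measurable fun ω => ∫⁻ y, g ω y ∂α := hg.lintegral_prod_right'
  have mB : Measurable fun ω => ∫⁻ y, g ω y ∂β := hg.lintegral_prod_right'
  rw [swap3' m α β g hg, swap3' m α α g hg, swap3' m β β g hg] at h
  rw [swap3' m α α g hg] at hfa
  rw [swap3' m β β g hg] at hfb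
  have e1 : 2 * ∫⁻ ω, (∫⁻ x, g ω x ∂α) * (∫⁻ y, g ω y ∂β) ∂m =
      ∫⁻ ω, 2 * ((∫⁻ x, g ω x ∂α) * (∫⁻ y, g ω y ∂β)) ∂m :=
    (lintegral_const_mul _ (mA.mul mB)).symm
  have e2 : ∫⁻ ω, (∫⁻ x, g ω x ∂α) * (∫⁻ y, g ω y ∂α) ∂m +
      ∫⁻ ω, (∫⁻ x, g ω x ∂β) * (∫⁻ y, g ω y ∂β) ∂m =
      ∫⁻ ω, ((∫⁻ x, g ω x ∂α) * (∫⁻ y, g ω y ∂α) + (∫⁻ x, g ω x ∂β) * (∫⁻ y, g ω y ∂β)) ∂m :=
    (lintegral_add_left (mA.mul mA) _).symm
  have hf : ∫⁻ ω, 2 * ((∫⁻ x, g ω x ∂α) * (∫⁻ y, g ω y ∂β)) ∂m ≠ ⊤ := by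
    refine ne_top_of_le_ne_top (ENNReal.add_lt_top.2 ⟨hfa, hfb⟩).ne ?_
    rw [e2]
    exact lintegral_mono fun ω => two_mul_le_sq' _ _
  rw [e1, e2] at h
  have h2 := ae_eq_of_ae_le_of_lintegral_le (μ := m)
    (f := fun ω => 2 * ((∫⁻ x, g ω x ∂α) * (∫⁻ y, g ω y ∂β)))
    (g := fun ω => ((∫⁻ x, g ω x ∂α) * (∫⁻ y, g ω y ∂α) + (∫⁻ x, g ω x ∂β) * (∫⁻ y, g ω y ∂β)))
    (Eventually.of_forall fun ω => two_mul_le_sq' _ _) hf
    ((mA.mul mA).add (mB.mul mB)).aemeasurable h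
  filter_upwards [h2] with ω hω
  exact eq_of_sq_le (hA ω) (hB ω) hω.symm.le

open Classical in
/-- The window kernel. -/
noncomputable def gw' (ω : ℝ × ℝ) (x : ℝ) : ENNReal :=
  if ω.2 ∈ Set.Icc (x - ω.1 / 2) (x + ω.1 / 2) then 1 else 0

theorem measurable_gw' : Measurable (Function.uncurry gw') := by
  unfold Function.uncurry gw'
  apply Measurable.ite _ measurable_const measurable_const
  have h1 : Measurable fun p : (ℝ × ℝ) × ℝ => p.1.2 := measurable_snd.comp measurable_fst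
  have h2 : Measurable fun p : (ℝ × ℝ) × ℝ => p.2 - p.1.1 / 2 :=
    measurable_snd.sub ((measurable_fst.comp measurable_fst).div_const 2)
  have h3 : Measurable fun p : (ℝ × ℝ) × ℝ => p.2 + p.1.1 / 2 :=
    measurable_snd.add ((measurable_fst.comp measurable_fst).div_const 2)
  exact (measurableSet_le h2 h1).inter (measurableSet_le h1 h3)

theorem gw_int' (r x y : ℝ) : ∫⁻ t, gw' (r, t) x * gw' (r, t) y = ENNReal.ofReal (r - |x - y|) := by
  have e : ∀ t, gw' (r, t) x * gw' (r, t) y =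
      (Set.Icc (max (x - r / 2) (y - r / 2)) (min (x + r / 2) (y + r / 2))).indicator 1 t := by
    intro t
    rw [← Set.Icc_inter_Icc]
    unfold gw'
    by_cases h1 : t ∈ Set.Icc (x - r / 2) (x + r / 2) <;>
    by_cases h2 : t ∈ Set.Icc (y - r / 2) (y + r / 2) <;>
    simp [h1, h2]
  simp only [e]
  rw [lintegral_indicator_one measurableSet_Icc, Real.volume_Icc]
  congr 1
  rcases le_total x y with h | h
  · rw [max_eq_right (by linarith), min_eq_left (by linarith), abs_of_nonpos (by linarith)]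
    ring
  · rw [max_eq_left (by linarith), min_eq_right (by linarith), abs_of_nonneg (by linarith)]
    ring

/-- The mixing measure. -/
noncomputable def rhoD (D : ℝ) : Measure ℝ :=
  (ENNReal.ofReal (1 / D)) • Measure.dirac D +
    (volume.restrict (Set.Ioc (0:ℝ) D)).withDensity (fun r => ENNReal.ofReal ((r ^ 2)⁻¹))

instance (D : ℝ) : SFinite (rhoD D) := by unfold rhoD; infer_instance

theorem int_calc' {D u : ℝ} (hu : 0 < u) (hu2 : u ≤ D) :
    IntegrableOn (fun r => (r ^ 2)⁻¹ * (r - u)) (Set.Ioc u D) ∧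
    ∫ r in Set.Ioc u D, (r ^ 2)⁻¹ * (r - u) = Real.log (D / u) - 1 + u / D := by
  have hD : 0 < D := hu.trans_le hu2
  have hd : ∀ r ∈ Set.uIcc u D, HasDerivAt (fun r => Real.log r + u * r⁻¹) ((r ^ 2)⁻¹ * (r - u)) r := by
    intro r hr
    rw [Set.uIcc_of_le hu2] at hr
    have hr0 : r ≠ 0 := ne_of_gt (lt_of_lt_of_le hu hr.1)
    have h1 := (Real.hasDerivAt_log hr0).add ((hasDerivAt_inv hr0).const_mul u)
    refine HasDerivAt.congr_deriv h1 ?_
    field_simp
    ring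
  have hi : IntervalIntegrable (fun r => (r ^ 2)⁻¹ * (r - u)) volume u D := by
    apply ContinuousOn.intervalIntegrable
    rw [Set.uIcc_of_le hu2]
    apply ContinuousOn.mul
    · apply ContinuousOn.inv₀ (continuous_pow 2).continuousOn
      intro r hr
      exact pow_ne_zero 2 (ne_of_gt (lt_of_lt_of_le hu hr.1))
    · exact (continuous_id.sub continuous_const).continuousOn
  have h1 := intervalIntegral.integral_eq_sub_of_hasDerivAt hd hi
  rw [intervalIntegral.integral_of_le hu2] at h1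
  rw [intervalIntegrable_iff_integrableOn_Ioc_of_le hu2] at hi
  refine ⟨hi, ?_⟩
  rw [h1, Real.log_div hD.ne' hu.ne', mul_inv_cancel₀ hu.ne']
  ring

/-- The mixture kernel. -/
noncomputable def GmD (D u : ℝ) : ENNReal := ∫⁻ r, ENNReal.ofReal (r - u) ∂(rhoD D)

theorem GmD_anti {D u v : ℝ} (h : u ≤ v) : GmD D v ≤ GmD D u :=
  lintegral_mono fun r => ENNReal.ofReal_le_ofReal (by linarith)

theorem GmD_eq {D u : ℝ} (hu : 0 < u) (hu2 : u ≤ D) : GmD D u = ENNReal.ofReal (Real.log (D / u)) := by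
  have hD : 0 < D := hu.trans_le hu2
  unfold GmD rhoD
  rw [lintegral_add_measure, lintegral_smul_measure, lintegral_dirac,
    lintegral_withDensity_eq_lintegral_mul _ (by fun_prop) (by fun_prop)]
  have e1 : ∫⁻ r in Set.Ioc (0:ℝ) D, ((fun r => ENNReal.ofReal ((r ^ 2)⁻¹)) * fun r => ENNReal.ofReal (r - u)) r =
      ENNReal.ofReal (Real.log (D / u) - 1 + u / D) := by
    obtain ⟨h1, h2⟩ := int_calc' hu hu2
    rw [← h2, ofReal_integral_eq_lintegral_ofReal h1, ← lintegral_indicator measurableSet_Ioc,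
      ← lintegral_indicator measurableSet_Ioc]
    · apply lintegral_congr
      intro r
      by_cases hr : r ∈ Set.Ioc u D
      · rw [Set.indicator_of_mem hr, Set.indicator_of_mem (show r ∈ Set.Ioc (0:ℝ) D from ⟨hu.trans hr.1, hr.2⟩),
          Pi.mul_apply,
          ← ENNReal.ofReal_mul (by positivity)]
      · rw [Set.indicator_of_notMem hr]
        by_cases hr2 : r ∈ Set.Ioc (0:ℝ) D
        · rw [Set.indicator_of_mem hr2, Pi.mul_apply]
          have : r ≤ u := by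
            by_contra hc
            exact hr ⟨lt_of_not_ge hc, hr2.2⟩
          rw [ENNReal.ofReal_of_nonpos (by linarith : r - u ≤ 0), mul_zero]
        · rw [Set.indicator_of_notMem hr2]
    · rw [Filter.EventuallyLE, ae_restrict_iff' measurableSet_Ioc]
      refine Eventually.of_forall fun r hr => ?_
      have := hr.1
      change 0 ≤ (r ^ 2)⁻¹ * (r - u)
      exact mul_nonneg (by positivity) (by linarith)
  have h3 := Real.one_sub_inv_le_log_of_pos (show 0 < D / u by positivity)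
  rw [inv_div] at h3
  have h4 : u / D ≤ 1 := (div_le_one hD).2 hu2
  rw [e1, smul_eq_mul, ← ENNReal.ofReal_mul (by positivity), ← ENNReal.ofReal_add]
  · congr 1; field_simp; ring
  · have : 1 / D * (D - u) = 1 - u / D := by field_simp
    rw [this]; linarith
  · linarith

theorem GmD_zero {D : ℝ} (hD : 0 < D) : GmD D 0 = ⊤ := by
  apply ENNReal.eq_top_of_forall_nnreal_le
  intro M
  set u := D * Real.exp (-(M:ℝ) - 1) with hu
  have hu0 : 0 < u := by positivity
  have hu2 : u ≤ D := by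
    have : Real.exp (-(M:ℝ) - 1) ≤ 1 := Real.exp_le_one_iff.2 (by have := M.2; linarith)
    nlinarith
  refine le_trans ?_ (GmD_anti hu0.le)
  rw [GmD_eq hu0 hu2, hu, ← ENNReal.ofReal_coe_nnreal]
  have e : D / (D * Real.exp (-(M:ℝ) - 1)) = Real.exp (M + 1) := by
    rw [div_mul_cancel_left₀ hD.ne', ← Real.exp_neg]
    congr 1; ring
  rw [e, Real.log_exp]
  apply ENNReal.ofReal_le_ofReal
  linarith

theorem kD_mix {D ξ η x y : ℝ} (hD : η - ξ < D) (hx : x ∈ Set.Icc ξ η) (hy : y ∈ Set.Icc ξ η) :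
    kD D x y = GmD D |x - y| := by
  have hD0 : 0 < D := by have := hx.1.trans hx.2; linarith
  unfold kD
  by_cases h : x = y
  · rw [if_pos h, h, sub_self, abs_zero, GmD_zero hD0]
  · rw [if_neg h, GmD_eq (abs_pos.2 (sub_ne_zero.2 h))]
    rw [abs_le]
    constructor <;> linarith [hx.1, hx.2, hy.1, hy.2]

theorem GmD_prod (D x y : ℝ) : GmD D |x - y| = ∫⁻ ω, gw' ω x * gw' ω y ∂((rhoD D).prod volume) := by
  have m2 : ∀ x, Measurable fun ω => gw' ω x := fun x =>
    measurable_gw'.comp (measurable_id.prodMk measurable_const)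
  rw [lintegral_prod (fun ω => gw' ω x * gw' ω y) ((m2 x).mul (m2 y)).aemeasurable]
  unfold GmD
  exact lintegral_congr fun r => (gw_int' r x y).symm

theorem kD_congr {D ξ η : ℝ} (hD : η - ξ < D) {α β : Measure ℝ} (hα : α (Set.Icc ξ η)ᶜ = 0)
    (hβ : β (Set.Icc ξ η)ᶜ = 0) :
    ∫⁻ x, ∫⁻ y, kD D x y ∂β ∂α =
      ∫⁻ x, ∫⁻ y, ∫⁻ ω, gw' ω x * gw' ω y ∂((rhoD D).prod volume) ∂β ∂α := by
  have hα' : ∀ᵐ x ∂α, x ∈ Set.Icc ξ η := hα
  have hβ' : ∀ᵐ x ∂β, x ∈ Set.Icc ξ η := hβ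
  apply lintegral_congr_ae
  filter_upwards [hα'] with x hx
  apply lintegral_congr_ae
  filter_upwards [hβ'] with y hy
  rw [kD_mix hD hx hy, GmD_prod]

theorem energy_pd {D ξ η : ℝ} (hD : η - ξ < D) (α β : Measure ℝ) [IsProbabilityMeasure α]
    [IsProbabilityMeasure β] (hα : α (Set.Icc ξ η)ᶜ = 0) (hβ : β (Set.Icc ξ η)ᶜ = 0) :
    2 * ∫⁻ x, ∫⁻ y, kD D x y ∂β ∂α ≤ ED D α + ED D β := by
  unfold ED
  rw [kD_congr hD hα hβ, kD_congr hD hα hα, kD_congr hD hβ hβ]
  exact pd_gen' _ α β gw' measurable_gw'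

theorem gw_lint (α : Measure ℝ) [IsProbabilityMeasure α] (r t : ℝ) :
    ∫⁻ x, gw' (r, t) x ∂α = α (Set.Icc (t - r / 2) (t + r / 2)) := by
  have e : ∀ x, gw' (r, t) x = (Set.Icc (t - r / 2) (t + r / 2)).indicator 1 x := by
    intro x
    unfold gw'
    by_cases h : x ∈ Set.Icc (t - r / 2) (t + r / 2)
    · rw [Set.indicator_of_mem h, if_pos]
      · rfl
      · constructor <;> simp only [] <;> linarith [h.1, h.2]
    · rw [Set.indicator_of_notMem h, if_neg]
      intro h2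
      apply h
      have h3 := h2.1
      have h4 := h2.2
      simp only [] at h3 h4
      constructor <;> linarith
  simp only [e]
  exact lintegral_indicator_one measurableSet_Icc

theorem char_win (α : Measure ℝ) [IsProbabilityMeasure α] (r ζ : ℝ) :
    ∫ t : ℝ, Complex.exp (ζ * t * Complex.I) * ((α.real (Set.Icc (t - r / 2) (t + r / 2)) : ℝ) : ℂ) =
      charFun α ζ * ∫ s in Set.Icc (-(r / 2)) (r / 2), Complex.exp (ζ * s * Complex.I) := by
  have mS : MeasurableSet {p : ℝ × ℝ | p.1 - p.2 ∈ Set.Icc (-(r / 2)) (r / 2)} :=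
    measurableSet_Icc.preimage (measurable_fst.sub measurable_snd)
  set F : ℝ → ℝ → ℂ := fun t x => {p : ℝ × ℝ | p.1 - p.2 ∈ Set.Icc (-(r / 2)) (r / 2)}.indicator
    (fun p => Complex.exp (ζ * p.1 * Complex.I)) (t, x) with hF
  have mF : Measurable (Function.uncurry F) := by
    have : Function.uncurry F = {p : ℝ × ℝ | p.1 - p.2 ∈ Set.Icc (-(r / 2)) (r / 2)}.indicator
        (fun p => Complex.exp (ζ * p.1 * Complex.I)) := by
      funext p; rfl
    rw [this]
    exact Measurable.indicator (by fun_prop) mS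
  have nF : ∀ t x, ‖F t x‖ₑ = {p : ℝ × ℝ | p.1 - p.2 ∈ Set.Icc (-(r / 2)) (r / 2)}.indicator 1 (t, x) := by
    intro t x
    by_cases h : (t, x) ∈ {p : ℝ × ℝ | p.1 - p.2 ∈ Set.Icc (-(r / 2)) (r / 2)}
    · simp only [hF]
      rw [Set.indicator_of_mem h, Set.indicator_of_mem h]
      have : ‖Complex.exp (ζ * t * Complex.I)‖ = 1 := by
        rw [show (ζ : ℂ) * t * Complex.I = ((ζ * t : ℝ) : ℂ) * Complex.I by push_cast; ring]
        exact Complex.norm_exp_ofReal_mul_I _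
      rw [← ofReal_norm, this]; simp
    · simp only [hF]
      rw [Set.indicator_of_notMem h, Set.indicator_of_notMem h]; simp
  have iF : Integrable (Function.uncurry F) ((volume : Measure ℝ).prod α) := by
    refine ⟨mF.aestronglyMeasurable, ?_⟩
    rw [HasFiniteIntegral, lintegral_prod_symm _ mF.enorm.aemeasurable]
    have : ∀ x, ∫⁻ t : ℝ, ‖Function.uncurry F (t, x)‖ₑ = ENNReal.ofReal r := by
      intro x
      simp only [Function.uncurry_apply_pair, nF]
      have e : ∀ t : ℝ, {p : ℝ × ℝ | p.1 - p.2 ∈ Set.Icc (-(r / 2)) (r / 2)}.indicator (1 : ℝ × ℝ → ENNReal) (t, x) =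
          (Set.Icc (x - r / 2) (x + r / 2)).indicator 1 t := by
        intro t
        by_cases h : t ∈ Set.Icc (x - r / 2) (x + r / 2)
        · rw [Set.indicator_of_mem h, Set.indicator_of_mem]
          · rfl
          · show t - x ∈ Set.Icc (-(r / 2)) (r / 2)
            constructor <;> linarith [h.1, h.2]
        · rw [Set.indicator_of_notMem h, Set.indicator_of_notMem]
          intro h2
          apply h
          have h3 : t - x ∈ Set.Icc (-(r/2)) (r/2) := h2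
          constructor <;> linarith [h3.1, h3.2]
      simp only [e]
      rw [lintegral_indicator_one measurableSet_Icc, Real.volume_Icc]
      congr 1; ring
    simp only [this]
    simp
  have e1 : ∀ t : ℝ, Complex.exp (ζ * t * Complex.I) * ((α.real (Set.Icc (t - r / 2) (t + r / 2)) : ℝ) : ℂ) =
      ∫ x, F t x ∂α := by
    intro t
    have e : ∀ x, F t x = (Set.Icc (t - r / 2) (t + r / 2)).indicator (fun _ => Complex.exp (ζ * t * Complex.I)) x := by
      intro x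
      simp only [hF]
      by_cases h : x ∈ Set.Icc (t - r / 2) (t + r / 2)
      · rw [Set.indicator_of_mem h, Set.indicator_of_mem]
        show t - x ∈ Set.Icc (-(r / 2)) (r / 2)
        constructor <;> linarith [h.1, h.2]
      · rw [Set.indicator_of_notMem h, Set.indicator_of_notMem]
        intro h2
        apply h
        have h3 : t - x ∈ Set.Icc (-(r/2)) (r/2) := h2
        constructor <;> linarith [h3.1, h3.2]
    simp only [e]
    rw [integral_indicator_const _ measurableSet_Icc]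
    rw [Complex.real_smul, mul_comm]
  have e2 : ∀ x : ℝ, ∫ t : ℝ, F t x = Complex.exp (ζ * x * Complex.I) *
      ∫ s in Set.Icc (-(r / 2)) (r / 2), Complex.exp (ζ * s * Complex.I) := by
    intro x
    rw [← integral_add_right_eq_self (fun t => F t x) x, ← integral_indicator measurableSet_Icc,
      ← integral_const_mul]
    apply integral_congr_ae
    refine Eventually.of_forall fun s => ?_
    simp only [hF]
    by_cases h : s ∈ Set.Icc (-(r / 2)) (r / 2)
    · rw [Set.indicator_of_mem h, Set.indicator_of_mem]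
      · rw [← Complex.exp_add]
        congr 1; push_cast; ring
      · show s + x - x ∈ Set.Icc (-(r / 2)) (r / 2)
        rwa [add_sub_cancel_right]
    · rw [Set.indicator_of_notMem h, Set.indicator_of_notMem]
      · simp
      · intro h2
        apply h
        have h3 : s + x - x ∈ Set.Icc (-(r/2)) (r/2) := h2
        rwa [add_sub_cancel_right] at h3
  simp only [e1]
  rw [integral_integral_swap iF]
  simp only [e2]
  rw [integral_mul_const, charFun_apply_real]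

theorem energy_unique {D ξ η : ℝ} (hD : η - ξ < D) (α β : Measure ℝ) [IsProbabilityMeasure α]
    [IsProbabilityMeasure β] (hα : α (Set.Icc ξ η)ᶜ = 0) (hβ : β (Set.Icc ξ η)ᶜ = 0)
    (fα : ED D α < ⊤) (fβ : ED D β < ⊤)
    (heq : ED D α + ED D β ≤ 2 * ∫⁻ x, ∫⁻ y, kD D x y ∂β ∂α) : α = β := by
  have hD0 : 0 < D := by
    have hα' : ∀ᵐ x ∂α, x ∈ Set.Icc ξ η := hα
    obtain ⟨x, hx⟩ := hα'.exists
    have := hx.1.trans hx.2; linarith
  unfold ED at fα fβ heq
  rw [kD_congr hD hα hβ, kD_congr hD hα hα, kD_congr hD hβ hβ] at heq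
  rw [kD_congr hD hα hα] at fα
  rw [kD_congr hD hβ hβ] at fβ
  have hA : ∀ (γ : Measure ℝ) [IsProbabilityMeasure γ], ∀ ω : ℝ × ℝ, ∫⁻ x, gw' ω x ∂γ ≠ ⊤ := by
    intro γ _ ω
    have := gw_lint γ ω.1 ω.2
    rw [show ((ω.1, ω.2) : ℝ × ℝ) = ω from rfl] at this
    rw [this]
    exact measure_ne_top _ _
  have h1 := uniq_gen _ α β gw' measurable_gw' fα fβ (hA α) (hA β) heq
  have h2 := Measure.ae_ae_of_ae_prod h1
  have h3 : ∀ᵐ r ∂(volume.restrict (Set.Ioc (0:ℝ) D)), ∀ᵐ t : ℝ,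
      ∫⁻ x, gw' (r, t) x ∂α = ∫⁻ x, gw' (r, t) x ∂β := by
    unfold rhoD at h2
    rw [ae_add_measure_iff] at h2
    have h4 := h2.2
    rw [ae_withDensity_iff (by fun_prop)] at h4
    filter_upwards [h4, ae_restrict_mem measurableSet_Ioc] with r hr hr2
    apply hr
    have : 0 < (r ^ 2)⁻¹ := by have := hr2.1; positivity
    exact (ENNReal.ofReal_pos.2 this).ne'
  apply Measure.ext_of_charFun
  funext ζ
  -- choose r
  set δ : ℝ := min D (1 / (|ζ| + 1)) with hδ
  have hδ0 : 0 < δ := by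
    apply lt_min hD0
    positivity
  have h5 : ∃ r ∈ Set.Ioc (0:ℝ) δ, ∀ᵐ t : ℝ, ∫⁻ x, gw' (r, t) x ∂α = ∫⁻ x, gw' (r, t) x ∂β := by
    by_contra hc
    have h6 : ∀ᵐ r ∂(volume.restrict (Set.Ioc (0:ℝ) δ)), ∀ᵐ t : ℝ,
        ∫⁻ x, gw' (r, t) x ∂α = ∫⁻ x, gw' (r, t) x ∂β :=
      ae_mono (Measure.restrict_mono (Set.Ioc_subset_Ioc_right (min_le_left _ _)) le_rfl) h3
    have h7 : ∀ᵐ r ∂(volume.restrict (Set.Ioc (0:ℝ) δ)), False := by
      filter_upwards [h6, ae_restrict_mem measurableSet_Ioc] with r hr hr2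
      exact hc ⟨r, hr2, hr⟩
    rw [ae_iff] at h7
    simp at h7
    linarith
  obtain ⟨r, hr, hrt⟩ := h5
  have ha := char_win α r ζ
  have hb := char_win β r ζ
  have hab : ∫ t : ℝ, Complex.exp (ζ * t * Complex.I) * ((α.real (Set.Icc (t - r / 2) (t + r / 2)) : ℝ) : ℂ) =
      ∫ t : ℝ, Complex.exp (ζ * t * Complex.I) * ((β.real (Set.Icc (t - r / 2) (t + r / 2)) : ℝ) : ℂ) := by
    apply integral_congr_ae
    filter_upwards [hrt] with t ht
    rw [gw_lint, gw_lint] at ht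
    simp only [Measure.real, ht]
  rw [hab, hb] at ha
  have hS : (∫ s in Set.Icc (-(r / 2)) (r / 2), Complex.exp (ζ * s * Complex.I)) ≠ 0 := by
    intro h0
    have hint : IntegrableOn (fun s : ℝ => Complex.exp (ζ * s * Complex.I)) (Set.Icc (-(r / 2)) (r / 2)) := by
      apply ContinuousOn.integrableOn_Icc
      fun_prop
    have h1 := congrArg Complex.re h0
    have h1' : (∫ s in Set.Icc (-(r / 2)) (r / 2), (Complex.exp (ζ * s * Complex.I)).re) = 0 := by
      have := integral_re hint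
      simp only [RCLike.re_to_complex] at this
      rw [this, h1]; simp
    have h2 : (1/2 : ℝ) * r ≤ ∫ s in Set.Icc (-(r / 2)) (r / 2), (Complex.exp (ζ * s * Complex.I)).re := by
      have h3 : ∫ s in Set.Icc (-(r / 2)) (r / 2), (1/2:ℝ) = (1/2 : ℝ) * r := by
        rw [setIntegral_const]
        simp only [Measure.real, Real.volume_Icc, smul_eq_mul]
        rw [ENNReal.toReal_ofReal (by linarith [hr.1])]
        ring
      rw [← h3]
      apply setIntegral_mono_on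
      · exact integrableOn_const (by simp)
      · exact hint.re
      · exact measurableSet_Icc
      · intro s hs
        rw [show (ζ : ℂ) * s * Complex.I = ((ζ * s : ℝ) : ℂ) * Complex.I by push_cast; ring,
          Complex.exp_ofReal_mul_I_re]
        have h4 := Real.one_sub_sq_div_two_le_cos (x := ζ * s)
        have h5 : |ζ * s| ≤ 1 := by
          rw [abs_mul]
          have h6 : |s| ≤ r := abs_le.2 ⟨by linarith [hs.1, hr.1], by linarith [hs.2, hr.1]⟩
          have h7 : r ≤ 1 / (|ζ| + 1) := hr.2.trans (min_le_right _ _)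
          have h8 : |ζ| * |s| ≤ |ζ| * (1 / (|ζ| + 1)) := by gcongr; exact h6.trans h7
          have h9 : |ζ| * (1 / (|ζ| + 1)) ≤ 1 := by
            rw [mul_one_div, div_le_one (by positivity)]; linarith
          linarith
        have h10 : (ζ * s) ^ 2 ≤ 1 := by
          rw [← sq_abs]; nlinarith [abs_nonneg (ζ * s)]
        linarith
    have := hr.1
    linarith
  exact (mul_right_cancel₀ hS ha).symm

end Pool.Agent.Helper368.Bel
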