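import Pool.Agent.Helper368.Bel.Defs

set_option autoImplicit false

open MeasureTheory Filter Topology Polynomial

namespace Pool.Agent.Helper368.Bel



section br

variable {g : ℝ[X]} {ξ η : ℝ}

theorem br_gcont (g : ℝ[X]) : Continuous (fun y => g.eval y) := g.continuous

/-- the finite set of end points of the pieces -/
noncomputable def brS (g : ℝ[X]) (ξ η : ℝ) : Finset ℝ := insert ξ (insert η g.derivative.roots.toFinset)

theorem brS_card (h : RD g ξ η) (hc : CF g ξ η) : (brS g ξ η).card = g.natDegree + 1 := by
  unfold brS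
  have h1 : η ∉ g.derivative.roots.toFinset := by
    intro h2
    exact lt_irrefl _ (hc.mem η (Multiset.mem_toFinset.1 h2)).2
  have h3 : ξ ∉ insert η g.derivative.roots.toFinset := by
    intro h2
    rcases Finset.mem_insert.1 h2 with h2 | h2
    · exact h.lt.ne h2
    · exact lt_irrefl _ (hc.mem ξ (Multiset.mem_toFinset.1 h2)).1
  rw [Finset.card_insert_of_notMem h3, Finset.card_insert_of_notMem h1,
    Multiset.toFinset_card_of_nodup hc.nodup, hc.card]
  have := h.deg
  omega

theorem KK_sub {x : ℝ} (hx : x ∈ KK g ξ η) : x ∈ Set.Icc ξ η := hx 0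

theorem KK_step {x : ℝ} (hx : x ∈ KK g ξ η) : g.eval x ∈ Set.Icc ξ η := hx 1

theorem br_lc (h : RD g ξ η) : g.leadingCoeff ≠ 0 := by
  intro h0
  have : g = 0 := Polynomial.leadingCoeff_eq_zero.1 h0
  have h2 := h.deg
  rw [this] at h2
  simp at h2

theorem br_val (h : RD g ξ η) (hc : CF g ξ η) {c : ℝ} (hcS : c ∈ brS g ξ η) :
    g.eval c ≤ ξ ∨ η ≤ g.eval c := by
  have hlt := h.lt
  have hlc := br_lc h
  unfold brS at hcS
  rcases Finset.mem_insert.1 hcS with rfl | hcS
  · have h1 : ∀ t ∈ KK g c η, 0 ≤ (-1) ^ g.natDegree * g.leadingCoeff * (g.eval c - t) := by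
      intro t ht
      have hcont : Continuous fun x => (-1) ^ g.natDegree * g.leadingCoeff * (g.eval x - t) :=
        continuous_const.mul (g.continuous.sub continuous_const)
      have h2 : Tendsto (fun x => (-1) ^ g.natDegree * g.leadingCoeff * (g.eval x - t)) (𝓝[<] c)
          (𝓝 ((-1) ^ g.natDegree * g.leadingCoeff * (g.eval c - t))) :=
        (hcont.tendsto c).mono_left nhdsWithin_le_nhds
      refine ge_of_tendsto h2 ?_
      filter_upwards [self_mem_nhdsWithin] with x hx
      exact (hc.left x hx t ht).le
    have h2 := h1 c h.left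
    have h3 := h1 η h.right
    have h4 : (-1 : ℝ) ^ g.natDegree * g.leadingCoeff ≠ 0 :=
      mul_ne_zero (pow_ne_zero _ (by norm_num)) hlc
    rcases lt_or_gt_of_ne h4 with h5 | h5
    · left
      by_contra h6
      push Not at h6
      nlinarith
    · right
      by_contra h6
      push Not at h6
      nlinarith
  rcases Finset.mem_insert.1 hcS with rfl | hcS
  · have h1 : ∀ t ∈ KK g ξ c, 0 ≤ g.leadingCoeff * (g.eval c - t) := by
      intro t ht
      have hcont : Continuous fun x => g.leadingCoeff * (g.eval x - t) :=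
        continuous_const.mul (g.continuous.sub continuous_const)
      have h2 : Tendsto (fun x => g.leadingCoeff * (g.eval x - t)) (𝓝[>] c)
          (𝓝 (g.leadingCoeff * (g.eval c - t))) :=
        (hcont.tendsto c).mono_left nhdsWithin_le_nhds
      refine ge_of_tendsto h2 ?_
      filter_upwards [self_mem_nhdsWithin] with x hx
      exact (hc.right x hx t ht).le
    have h2 := h1 ξ h.left
    have h3 := h1 c h.right
    rcases lt_or_gt_of_ne hlc with h5 | h5
    · left
      by_contra h6
      push Not at h6
      nlinarith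
    · right
      by_contra h6
      push Not at h6
      nlinarith
  · have hcr := Multiset.mem_toFinset.1 hcS
    have h2 := hc.sign c hcr ξ h.left
    have h3 := hc.sign c hcr η h.right
    have h4 := hc.snd c hcr
    rcases lt_or_gt_of_ne h4 with h5 | h5
    · right
      by_contra h6
      push Not at h6
      nlinarith
    · left
      by_contra h6
      push Not at h6
      nlinarith

end br

theorem branches {g : ℝ[X]} {ξ η : ℝ} (h : RD g ξ η) (hc : CF g ξ η) :
    ∃ σ : Fin g.natDegree → ℝ → ℝ, (∀ i, Continuous (σ i)) ∧ (∀ i t, σ i t ∈ Set.Icc ξ η) ∧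
      (∀ i, ∀ t ∈ Set.Icc ξ η, g.eval (σ i t) = t) ∧
      (∀ t ∈ Set.Icc ξ η, g - C t = C g.leadingCoeff * ∏ i, (X - C (σ i t))) := by
  classical
  set d := g.natDegree with hd
  have hlt := h.lt
  have hlc := br_lc h
  have hScard : (brS g ξ η).card = d + 1 := brS_card h hc
  set c : Fin (d + 1) ↪o ℝ := (brS g ξ η).orderEmbOfFin hScard with hcdef
  have hcmem : ∀ j, c j ∈ brS g ξ η := fun j => Finset.orderEmbOfFin_mem _ hScard j
  have hcrange : ∀ x ∈ brS g ξ η, ∃ j, c j = x := by
    intro x hx
    have := Finset.range_orderEmbOfFin (brS g ξ η) hScard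
    have hx' : x ∈ Set.range ((brS g ξ η).orderEmbOfFin hScard) := by rw [this]; exact hx
    exact hx'
  have hSIcc : ∀ x ∈ brS g ξ η, x ∈ Set.Icc ξ η := by
    intro x hx
    unfold brS at hx
    rcases Finset.mem_insert.1 hx with rfl | hx
    · exact ⟨le_rfl, hlt.le⟩
    rcases Finset.mem_insert.1 hx with rfl | hx
    · exact ⟨hlt.le, le_rfl⟩
    · have := hc.mem x (Multiset.mem_toFinset.1 hx)
      exact ⟨this.1.le, this.2.le⟩
  have hc0 : c 0 = ξ := by
    obtain ⟨j, hj⟩ := hcrange ξ (by unfold brS; simp)
    have h1 : c 0 ≤ c j := c.monotone (Fin.zero_le j)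
    have h2 := (hSIcc _ (hcmem 0)).1
    rw [hj] at h1
    exact le_antisymm h1 h2
  have hclast : c (Fin.last d) = η := by
    obtain ⟨j, hj⟩ := hcrange η (by unfold brS; simp)
    have h1 : c j ≤ c (Fin.last d) := c.monotone (Fin.le_last j)
    have h2 := (hSIcc _ (hcmem (Fin.last d))).2
    rw [hj] at h1
    exact le_antisymm h2 h1
  have hcons : ∀ i : Fin d, c i.castSucc < c i.succ := fun i => c.strictMono (Fin.castSucc_lt_succ)
  have hderiv : ∀ i : Fin d, ∀ x ∈ Set.Ioo (c i.castSucc) (c i.succ), g.derivative.eval x ≠ 0 := by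
    intro i x hx h0
    have hg' : g.derivative ≠ 0 := by
      intro h1
      have h2 := hc.card
      rw [h1] at h2
      have := h.deg
      simp at h2
      omega
    have hxr : x ∈ g.derivative.roots := (Polynomial.mem_roots hg').2 h0
    obtain ⟨j, hj⟩ := hcrange x (by unfold brS; simp [hxr])
    rw [← hj] at hx
    have h1 := c.lt_iff_lt.1 hx.1
    have h2 := c.lt_iff_lt.1 hx.2
    rw [Fin.lt_def] at h1 h2
    simp at h1 h2
    omega
  have hmono : ∀ i : Fin d, StrictMonoOn (fun y => g.eval y) (Set.Icc (c i.castSucc) (c i.succ)) ∨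
      StrictAntiOn (fun y => g.eval y) (Set.Icc (c i.castSucc) (c i.succ)) := by
    intro i
    have h1 := hasDerivWithinAt_forall_lt_or_forall_gt_of_forall_ne
      (s := Set.Ioo (c i.castSucc) (c i.succ)) (f := fun y => g.eval y)
      (f' := fun y => g.derivative.eval y) (m := 0) (convex_Ioo _ _)
      (fun x _ => (g.hasDerivAt x).hasDerivWithinAt) (hderiv i)
    rcases h1 with h1 | h1
    · right
      refine strictAntiOn_of_deriv_neg (convex_Icc _ _) g.continuous.continuousOn ?_
      intro x hx
      rw [interior_Icc] at hx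
      rw [Polynomial.deriv]
      exact h1 x hx
    · left
      refine strictMonoOn_of_deriv_pos (convex_Icc _ _) g.continuous.continuousOn ?_
      intro x hx
      rw [interior_Icc] at hx
      rw [Polynomial.deriv]
      exact h1 x hx
  have hinj : ∀ i : Fin d, Set.InjOn (fun y => g.eval y) (Set.Icc (c i.castSucc) (c i.succ)) := by
    intro i
    rcases hmono i with h1 | h1
    · exact h1.injOn
    · exact h1.injOn
  have hpiece : ∀ y ∈ Set.Icc ξ η, y ∉ brS g ξ η →
      ∃ i : Fin d, y ∈ Set.Ioo (c i.castSucc) (c i.succ) := by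
    intro y hy hyS
    by_contra hno
    push Not at hno
    have hall : ∀ j : Fin (d + 1), c j < y := by
      intro j
      induction j using Fin.induction with
      | zero =>
        rw [hc0]
        refine lt_of_le_of_ne hy.1 ?_
        rintro rfl
        exact hyS (by unfold brS; simp)
      | succ i ih =>
        have h1 := hno i
        have h2 : c i.succ ≤ y := by
          by_contra h3
          exact h1 ⟨ih, not_le.1 h3⟩
        refine lt_of_le_of_ne h2 ?_
        intro h3
        exact hyS (h3 ▸ hcmem _)
    have := hall (Fin.last d)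
    rw [hclast] at this
    exact absurd hy.2 (not_le.2 this)
  have hval : ∀ j, g.eval (c j) ≤ ξ ∨ η ≤ g.eval (c j) := fun j => br_val h hc (hcmem j)
  -- an interior point of KK
  obtain ⟨t0, ht0, ht0'⟩ : ∃ t0 ∈ KK g ξ η, t0 ∈ Set.Ioo ξ η := by
    have h1 : (KK g ξ η \ {ξ, η}).Infinite := h.inf.sdiff (Set.toFinite _)
    obtain ⟨t, ht⟩ := h1.nonempty
    refine ⟨t, ht.1, ?_⟩
    have h2 := KK_sub ht.1
    have h3 := ht.2
    simp only [Set.mem_insert_iff, Set.mem_singleton_iff, not_or] at h3
    exact ⟨lt_of_le_of_ne h2.1 (Ne.symm h3.1), lt_of_le_of_ne h2.2 h3.2⟩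
  have hne0 : g - C t0 ≠ 0 := by
    intro h1
    have h2 : g = C t0 := sub_eq_zero.1 h1
    have h3 := h.deg
    rw [h2, natDegree_C] at h3
    omega
  have hroot : ∀ y ∈ (g - C t0).roots, g.eval y = t0 := by
    intro y hy
    have := (Polynomial.mem_roots hne0).1 hy
    simp only [IsRoot.def, eval_sub, eval_C] at this
    linarith
  have hrp : ∀ y ∈ (g - C t0).roots, ∃ i : Fin d, y ∈ Set.Ioo (c i.castSucc) (c i.succ) := by
    intro y hy
    have h1 := hroot y hy
    refine hpiece y (KK_sub (h.roots_mem t0 ht0 y h1)) ?_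
    intro h2
    rcases br_val h hc h2 with h3 | h3
    · rw [h1] at h3; exact absurd ht0'.1 (not_lt.2 h3)
    · rw [h1] at h3; exact absurd ht0'.2 (not_lt.2 h3)
  have hnodup : (g - C t0).roots.Nodup := by
    rw [Multiset.nodup_iff_count_le_one]
    intro y
    rw [Polynomial.count_roots]
    by_contra h1
    push Not at h1
    by_cases hy : y ∈ (g - C t0).roots
    · obtain ⟨i, hi⟩ := hrp y hy
      have h2 := (Polynomial.one_lt_rootMultiplicity_iff_isRoot hne0).1 h1
      have h3 := h2.2
      simp only [derivative_sub, derivative_C, sub_zero, IsRoot.def] at h3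
      exact hderiv i y hi h3
    · have : (g - C t0).rootMultiplicity y = 0 := by
        rw [← Polynomial.count_roots]
        exact Multiset.count_eq_zero_of_notMem hy
      omega
  have hcardR : (g - C t0).roots.toFinset.card = d := by
    rw [Multiset.toFinset_card_of_nodup hnodup, h.card_roots t0 ht0]
  have hneF : Nonempty (Fin d) := ⟨⟨0, by have := h.deg; omega⟩⟩
  choose! ρ hρ using hrp
  have hsurj : ∀ i : Fin d, ∃ y ∈ (g - C t0).roots, ρ y = i := by
    have h1 : Set.InjOn ρ ((g - C t0).roots.toFinset : Set ℝ) := by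
      intro y hy z hz hyz
      have hy' := Multiset.mem_toFinset.1 (Finset.mem_coe.1 hy)
      have hz' := Multiset.mem_toFinset.1 (Finset.mem_coe.1 hz)
      have h2 := hρ y hy'
      have h3 := hρ z hz'
      rw [← hyz] at h3
      refine hinj (ρ y) ⟨h2.1.le, h2.2.le⟩ ⟨h3.1.le, h3.2.le⟩ ?_
      show g.eval y = g.eval z
      rw [hroot y hy', hroot z hz']
    have h2 : ((g - C t0).roots.toFinset.image ρ).card = Fintype.card (Fin d) := by
      rw [Finset.card_image_of_injOn h1, hcardR, Fintype.card_fin]
    have h3 : (g - C t0).roots.toFinset.image ρ = Finset.univ :=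
      Finset.eq_univ_of_card _ h2
    intro i
    have h4 : i ∈ (g - C t0).roots.toFinset.image ρ := by rw [h3]; exact Finset.mem_univ i
    obtain ⟨y, hy, hy'⟩ := Finset.mem_image.1 h4
    exact ⟨y, Multiset.mem_toFinset.1 hy, hy'⟩
  -- surjectivity on each piece
  have honto : ∀ i : Fin d, ∀ t ∈ Set.Icc ξ η, ∃ x ∈ Set.Icc (c i.castSucc) (c i.succ),
      g.eval x = t := by
    intro i t ht
    obtain ⟨y, hy, rfl⟩ := hsurj i
    have hyI := hρ y hy
    have hyt := hroot y hy
    set i := ρ y
    have hle := (hcons i).le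
    have hl : c i.castSucc ∈ Set.Icc (c i.castSucc) (c i.succ) := ⟨le_rfl, hle⟩
    have hr : c i.succ ∈ Set.Icc (c i.castSucc) (c i.succ) := ⟨hle, le_rfl⟩
    have hym : y ∈ Set.Icc (c i.castSucc) (c i.succ) := ⟨hyI.1.le, hyI.2.le⟩
    rcases hmono i with hm | hm
    · have h1 : g.eval (c i.castSucc) < t0 := by
        have := hm hl hym hyI.1; simp only at this; rwa [hyt] at this
      have h2 : t0 < g.eval (c i.succ) := by
        have := hm hym hr hyI.2; simp only at this; rwa [hyt] at this
      have h3 : g.eval (c i.castSucc) ≤ ξ := by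
        rcases hval i.castSucc with h | h
        · exact h
        · exact absurd (h.trans_lt h1) (not_lt.2 ht0'.2.le)
      have h4 : η ≤ g.eval (c i.succ) := by
        rcases hval i.succ with h | h
        · exact absurd (h2.trans_le h) (not_lt.2 ht0'.1.le)
        · exact h
      have h5 := intermediate_value_Icc hle (f := fun y => g.eval y) g.continuous.continuousOn
      obtain ⟨x, hx, hx'⟩ := h5 ⟨h3.trans ht.1, ht.2.trans h4⟩
      exact ⟨x, hx, hx'⟩
    · have h1 : t0 < g.eval (c i.castSucc) := by
        have := hm hl hym hyI.1; simp only at this; rwa [hyt] at this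
      have h2 : g.eval (c i.succ) < t0 := by
        have := hm hym hr hyI.2; simp only at this; rwa [hyt] at this
      have h3 : η ≤ g.eval (c i.castSucc) := by
        rcases hval i.castSucc with h | h
        · exact absurd (h1.trans_le h) (not_lt.2 ht0'.1.le)
        · exact h
      have h4 : g.eval (c i.succ) ≤ ξ := by
        rcases hval i.succ with h | h
        · exact h
        · exact absurd (h.trans_lt h2) (not_lt.2 ht0'.2.le)
      have h5 := intermediate_value_Icc' hle (f := fun y => g.eval y) g.continuous.continuousOn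
      obtain ⟨x, hx, hx'⟩ := h5 ⟨h4.trans ht.1, ht.2.trans h3⟩
      exact ⟨x, hx, hx'⟩
  -- the inverse branches
  have hφ : ∀ i : Fin d, ∃ φ : Set.Icc ξ η → Set.Icc (c i.castSucc) (c i.succ), Continuous φ ∧
      ∀ t, g.eval (φ t : ℝ) = t := by
    intro i
    have h1 : ∀ t : Set.Icc ξ η, ∃ x : Set.Icc (c i.castSucc) (c i.succ), g.eval (x : ℝ) = t := by
      intro t
      obtain ⟨x, hx, hx'⟩ := honto i t t.2
      exact ⟨⟨x, hx⟩, hx'⟩
    choose φ hφ using h1
    refine ⟨φ, ?_, hφ⟩
    let F : Set.Icc (c i.castSucc) (c i.succ) → ℝ := fun x => g.eval (x : ℝ)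
    have hF : Continuous F := g.continuous.comp continuous_subtype_val
    have hFinj : Function.Injective F := by
      intro x y hxy
      exact Subtype.ext (hinj i x.2 y.2 hxy)
    have hFe : IsClosedEmbedding F := hF.isClosedEmbedding hFinj
    rw [hFe.isEmbedding.continuous_iff]
    have : F ∘ φ = Subtype.val := by
      funext t
      exact hφ t
    rw [this]
    exact continuous_subtype_val
  choose φ hφc hφe using hφ
  have hσmem : ∀ i (t : Set.Icc ξ η), ((φ i t : ℝ)) ∈ Set.Icc ξ η := by
    intro i t
    have h1 := (φ i t).2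
    have h2 := (hSIcc _ (hcmem i.castSucc)).1
    have h3 := (hSIcc _ (hcmem i.succ)).2
    exact ⟨h2.trans h1.1, h1.2.trans h3⟩
  refine ⟨fun i t => (φ i (Set.projIcc ξ η hlt.le t) : ℝ), ?_, ?_, ?_, ?_⟩
  · intro i
    exact continuous_subtype_val.comp ((hφc i).comp continuous_projIcc)
  · intro i t
    exact hσmem i _
  · intro i t ht
    have h1 := hφe i (Set.projIcc ξ η hlt.le t)
    rw [Set.projIcc_of_mem hlt.le ht] at h1
    simpa [Set.projIcc_of_mem hlt.le ht] using h1
  · set σ : Fin d → ℝ → ℝ := fun i t => (φ i (Set.projIcc ξ η hlt.le t) : ℝ) with hσ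
    have hσc : ∀ i, Continuous (σ i) := fun i =>
      continuous_subtype_val.comp ((hφc i).comp continuous_projIcc)
    have hσe : ∀ i, ∀ t ∈ Set.Icc ξ η, g.eval (σ i t) = t := by
      intro i t ht
      have h1 := hφe i (Set.projIcc ξ η hlt.le t)
      rw [Set.projIcc_of_mem hlt.le ht] at h1
      simpa [hσ, Set.projIcc_of_mem hlt.le ht] using h1
    have hσI : ∀ i t, σ i t ∈ Set.Icc (c i.castSucc) (c i.succ) := fun i t => (φ i _).2
    have hIoo : ∀ t ∈ Set.Ioo ξ η, g - C t = C g.leadingCoeff * ∏ i, (X - C (σ i t)) := by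
      intro t ht
      have htI : t ∈ Set.Icc ξ η := ⟨ht.1.le, ht.2.le⟩
      have hσo : ∀ i, σ i t ∈ Set.Ioo (c i.castSucc) (c i.succ) := by
        intro i
        have h1 := hσI i t
        have h2 := hσe i t htI
        have h3 : ∀ j, σ i t ≠ c j := by
          intro j h4
          rw [h4] at h2
          rcases hval j with h5 | h5
          · rw [h2] at h5; exact absurd ht.1 (not_lt.2 h5)
          · rw [h2] at h5; exact absurd ht.2 (not_lt.2 h5)
        exact ⟨lt_of_le_of_ne h1.1 (Ne.symm (h3 _)), lt_of_le_of_ne h1.2 (h3 _)⟩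
      have hσinj : Function.Injective fun i => σ i t := by
        intro i j hij
        simp only at hij
        by_contra hne
        rcases lt_or_gt_of_ne hne with hlt' | hlt'
        · have h1 : c i.succ ≤ c j.castSucc := c.monotone (by
            rw [Fin.le_def]; simp; exact hlt')
          have h2 := (hσo i).2
          have h3 := (hσo j).1
          linarith
        · have h1 : c j.succ ≤ c i.castSucc := c.monotone (by
            rw [Fin.le_def]; simp; exact hlt')
          have h2 := (hσo j).2
          have h3 := (hσo i).1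
          linarith
      have hd1 : (g - C t).natDegree = d := by rw [natDegree_sub_C]
      have hl1 : (g - C t).leadingCoeff = g.leadingCoeff := by
        rw [leadingCoeff, hd1, leadingCoeff, coeff_sub, coeff_C]
        have : d ≠ 0 := by have := h.deg; omega
        rw [if_neg this, sub_zero]
      have hmon : (∏ i, (X - C (σ i t)) : ℝ[X]).Monic := monic_prod_of_monic _ _ fun i _ =>
        monic_X_sub_C _
      have hd2 : (∏ i, (X - C (σ i t)) : ℝ[X]).natDegree = d := by
        rw [natDegree_prod_of_monic _ _ fun i _ => monic_X_sub_C _]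
        simp
      have hl2 : (C g.leadingCoeff * ∏ i, (X - C (σ i t)) : ℝ[X]).leadingCoeff = g.leadingCoeff := by
        rw [leadingCoeff_mul, hmon.leadingCoeff, leadingCoeff_C, mul_one]
      have hne1 : g - C t ≠ 0 := by
        intro h0
        rw [h0] at hl1
        simp at hl1
        exact hlc (by rw [← leadingCoeff_eq_zero] at *; simpa using hl1.symm)
      have hne2 : (C g.leadingCoeff * ∏ i, (X - C (σ i t)) : ℝ[X]) ≠ 0 := by
        intro h0
        rw [h0] at hl2
        simp at hl2
        exact hlc (by rw [← leadingCoeff_eq_zero] at *; simpa using hl2.symm)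
      have hd3 : (C g.leadingCoeff * ∏ i, (X - C (σ i t)) : ℝ[X]).natDegree = d := by
        rw [natDegree_C_mul hlc, hd2]
      have hdeg : (g - C t).degree = (C g.leadingCoeff * ∏ i, (X - C (σ i t)) : ℝ[X]).degree := by
        rw [degree_eq_natDegree hne1, degree_eq_natDegree hne2, hd1, hd3]
      have hlt2 := degree_sub_lt_left hdeg hne1 (hl1.trans hl2.symm)
      refine Polynomial.eq_of_degree_sub_lt_of_eval_finset_eq (Finset.univ.image fun i => σ i t)
        ?_ ?_
      · rw [Finset.card_image_of_injective _ hσinj, Finset.card_univ, Fintype.card_fin]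
        refine hlt2.trans_le ?_
        rw [degree_eq_natDegree hne1, hd1]
      · intro x hx
        obtain ⟨i, _, rfl⟩ := Finset.mem_image.1 hx
        rw [eval_sub, eval_C, hσe i t htI, sub_self, eval_mul, eval_prod]
        rw [Finset.prod_eq_zero (Finset.mem_univ i) (by simp), mul_zero]
    intro t ht
    refine Polynomial.funext fun x => ?_
    have hcl : IsClosed {t : ℝ | (g - C t).eval x =
        (C g.leadingCoeff * ∏ i, (X - C (σ i t))).eval x} := by
      refine isClosed_eq ?_ ?_
      · simp only [eval_sub, eval_C]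
        exact continuous_const.sub continuous_id
      · simp only [eval_mul, eval_C, eval_prod, eval_sub, eval_X]
        exact continuous_const.mul (continuous_finsetProd _ fun i _ =>
          continuous_const.sub (hσc i))
    have hsub : closure (Set.Ioo ξ η) ⊆ {t : ℝ | (g - C t).eval x =
        (C g.leadingCoeff * ∏ i, (X - C (σ i t))).eval x} := by
      refine closure_minimal ?_ hcl
      intro s hs
      show (g - C s).eval x = _
      rw [hIoo s hs]
    rw [closure_Ioo hlt.ne] at hsub
    exact hsub ht

end Pool.Agent.Helper368.Bel
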