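import Pool.Agent.Helper368.Bel.Defs

set_option autoImplicit false

open MeasureTheory Filter Topology Polynomial

namespace Pool.Agent.Helper368.Bel



/-- `cmp σ i J t = σ (i 0) (σ (i 1) (... (σ (i (J-1)) t)))`. -/
def cmp {d : ℕ} (σ : Fin d → ℝ → ℝ) : (ℕ → Fin d) → ℕ → ℝ → ℝ
  | _, 0, t => t
  | i, (J + 1), t => σ (i 0) (cmp σ (fun k => i (k + 1)) J t)

theorem cmp_succ733 {d : ℕ} (σ : Fin d → ℝ → ℝ) (J : ℕ) (i : ℕ → Fin d) (t : ℝ) :
    cmp σ i (J + 1) t = cmp σ i J (σ (i J) t) := by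
  induction J generalizing i with
  | zero => rfl
  | succ J ih =>
    show σ (i 0) (cmp σ (fun k => i (k + 1)) (J + 1) t) =
      σ (i 0) (cmp σ (fun k => i (k + 1)) J (σ (i (J + 1)) t))
    rw [ih]

theorem cmp_cont733 {d : ℕ} (σ : Fin d → ℝ → ℝ) (h1 : ∀ i, Continuous (σ i)) (J : ℕ) (i : ℕ → Fin d) :
    Continuous (cmp σ i J) := by
  induction J generalizing i with
  | zero => exact continuous_id
  | succ J ih =>
    show Continuous (fun t => σ (i 0) (cmp σ (fun k => i (k + 1)) J t))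
    exact (h1 _).comp (ih _)

theorem coding_conv {g : ℝ[X]} {ξ η : ℝ} (h : RD g ξ η) {σ : Fin g.natDegree → ℝ → ℝ}
    (h1 : ∀ i, Continuous (σ i)) (h2 : ∀ i t, σ i t ∈ Set.Icc ξ η)
    (h3 : ∀ i, ∀ t ∈ Set.Icc ξ η, g.eval (σ i t) = t) (i : ℕ → Fin g.natDegree) :
    ∃ x ∈ KK g ξ η, ∀ t : ℕ → ℝ, (∀ J, t J ∈ Set.Icc ξ η) →
      Tendsto (fun J => cmp σ i J (t J)) atTop (𝓝 x) := by
  have hmem : ∀ (J : ℕ) (i : ℕ → Fin g.natDegree) (t : ℝ), t ∈ Set.Icc ξ η →
      cmp σ i J t ∈ Set.Icc ξ η := by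
    intro J
    induction J with
    | zero => intro i t ht; exact ht
    | succ J ih => intro i t ht; exact h2 _ _
  have hiter : ∀ (J : ℕ) (i : ℕ → Fin g.natDegree) (t : ℝ), t ∈ Set.Icc ξ η →
      ∀ n ≤ J, (fun y => g.eval y)^[n] (cmp σ i J t) ∈ Set.Icc ξ η := by
    intro J
    induction J with
    | zero =>
      intro i t ht n hn
      have : n = 0 := by omega
      subst this
      exact ht
    | succ J ih =>
      intro i t ht n hn
      cases n with
      | zero => exact hmem _ _ _ ht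
      | succ n =>
        rw [Function.iterate_succ_apply]
        have e : g.eval (cmp σ i (J + 1) t) = cmp σ (fun k => i (k + 1)) J t :=
          h3 _ _ (hmem _ _ _ ht)
        rw [e]
        exact ih _ _ ht n (by omega)
  set K : ℕ → Set ℝ := fun J => (cmp σ i J) '' Set.Icc ξ η with hK
  have hcpt : ∀ J, IsCompact (K J) := fun J => isCompact_Icc.image (cmp_cont733 σ h1 J i)
  have hconn : ∀ J, (K J).OrdConnected := fun J =>
    (isPreconnected_Icc.image _ (cmp_cont733 σ h1 J i).continuousOn).ordConnected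
  have hne : ∀ J, (K J).Nonempty := fun J => (Set.nonempty_Icc.2 h.lt.le).image _
  have hanti : ∀ J, K (J + 1) ⊆ K J := by
    rintro J x ⟨t, ht, rfl⟩
    rw [cmp_succ733]
    exact ⟨_, h2 _ _, rfl⟩
  have hKK : (⋂ J, K J) ⊆ KK g ξ η := by
    intro x hx n
    obtain ⟨t, ht, rfl⟩ := Set.mem_iInter.1 hx n
    exact hiter n i t ht n le_rfl
  obtain ⟨x, hx⟩ := IsCompact.nonempty_iInter_of_sequence_nonempty_isCompact_isClosed K hanti hne
    (hcpt 0) (fun J => (hcpt J).isClosed)
  have huniq : ∀ y ∈ ⋂ J, K J, y = x := by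
    intro y hy
    by_contra hne
    rcases lt_or_gt_of_ne hne with hlt | hlt
    · apply h.noint y x hlt
      intro z hz
      apply hKK
      rw [Set.mem_iInter]
      intro J
      exact (hconn J).out (Set.mem_iInter.1 hy J) (Set.mem_iInter.1 hx J) hz
    · apply h.noint x y hlt
      intro z hz
      apply hKK
      rw [Set.mem_iInter]
      intro J
      exact (hconn J).out (Set.mem_iInter.1 hx J) (Set.mem_iInter.1 hy J) hz
  refine ⟨x, hKK hx, ?_⟩
  intro t ht
  rw [tendsto_def]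
  intro U hU
  have hant : Antitone K := antitone_nat_of_succ_le hanti
  obtain ⟨J, hJ⟩ := exists_subset_nhds_of_isCompact (V := K)
    (directed_of_isDirected_le (fun a b hab => hant hab)) hcpt (U := U) (by
      intro y hy
      rw [huniq y hy]
      exact hU)
  filter_upwards [eventually_ge_atTop J] with n hn
  exact hJ (hant hn ⟨t n, ht n, rfl⟩)

end Pool.Agent.Helper368.Bel
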