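import Pool.Agent.Helper368.Bel.JE

set_option autoImplicit false

open MeasureTheory Filter Topology Polynomial

namespace Pool.Agent.Helper368.Bel






theorem kD_self (D x : ℝ) : kD D x x = ⊤ := by unfold kD; simp

theorem kD_ne {D x y : ℝ} (h : x ≠ y) : kD D x y = ENNReal.ofReal (Real.log (D / |x - y|)) := by
  unfold kD; rw [if_neg h]

theorem measurable_kD (D : ℝ) : Measurable fun p : ℝ × ℝ => kD D p.1 p.2 := by
  unfold kD
  apply Measurable.ite
  · exact measurableSet_eq_fun measurable_fst measurable_snd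
  · exact measurable_const
  · apply ENNReal.measurable_ofReal.comp
    apply Real.measurable_log.comp
    apply Measurable.const_div
    exact (measurable_fst.sub measurable_snd).abs

theorem lt_kD {D : ℝ} (hD : 0 < D) (M : NNReal) {x y : ℝ} (h : |x - y| < D * Real.exp (-(M : ℝ) - 1)) :
    (M : ENNReal) < kD D x y := by
  by_cases hxy : x = y
  · rw [hxy, kD_self]; exact ENNReal.coe_lt_top
  · rw [kD_ne hxy]
    have hpos : 0 < |x - y| := abs_pos.2 (sub_ne_zero.2 hxy)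
    have h1 : (M : ℝ) + 1 < Real.log (D / |x - y|) := by
      rw [Real.lt_log_iff_exp_lt (by positivity), lt_div_iff₀ hpos]
      have h2 : Real.exp ((M:ℝ) + 1) * |x - y| < Real.exp ((M:ℝ) + 1) * (D * Real.exp (-(M : ℝ) - 1)) :=
        mul_lt_mul_of_pos_left h (Real.exp_pos _)
      have h3 : Real.exp ((M:ℝ) + 1) * (D * Real.exp (-(M : ℝ) - 1)) = D := by
        rw [mul_left_comm, ← Real.exp_add]
        have : (M:ℝ) + 1 + (-(M:ℝ) - 1) = 0 := by ring
        rw [this, Real.exp_zero, mul_one]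
      linarith
    rw [← ENNReal.ofReal_coe_nnreal]
    have hM : (0:ℝ) ≤ M := M.2
    rw [ENNReal.ofReal_lt_ofReal_iff (by linarith)]
    linarith

theorem kD_tendsto {D : ℝ} (hD : 0 < D) {x y : ℕ → ℝ} {a b : ℝ} (hx : Tendsto x atTop (𝓝 a))
    (hy : Tendsto y atTop (𝓝 b)) :
    Tendsto (fun n => kD D (x n) (y n)) atTop (𝓝 (kD D a b)) := by
  have hxy : Tendsto (fun n => |x n - y n|) atTop (𝓝 |a - b|) := (hx.sub hy).abs
  by_cases h : a = b
  · rw [h, kD_self, ENNReal.tendsto_nhds_top_iff_nnreal]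
    intro M
    rw [h, sub_self, abs_zero] at hxy
    have := hxy.eventually_lt_const (u := D * Real.exp (-(M : ℝ) - 1)) (by positivity)
    exact this.mono fun n hn => lt_kD hD M hn
  · rw [kD_ne h]
    have hab : |a - b| ≠ 0 := abs_ne_zero.2 (sub_ne_zero.2 h)
    have h1 : Tendsto (fun n => ENNReal.ofReal (Real.log (D / |x n - y n|))) atTop
        (𝓝 (ENNReal.ofReal (Real.log (D / |a - b|)))) := by
      apply (ENNReal.continuous_ofReal.tendsto _).comp
      apply (Real.continuousAt_log (div_ne_zero hD.ne' hab)).tendsto.comp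
      exact tendsto_const_nhds.div hxy hab
    apply h1.congr'
    have := hxy.eventually_ne hab
    refine this.mono fun n hn => ?_
    change ENNReal.ofReal (Real.log (D / |x n - y n|)) = kD D (x n) (y n)
    rw [kD_ne]
    intro h2
    exact hn (by rw [h2]; simp)

/-- shift -/
noncomputable def Sh (d : ℕ) (w : ℝ) : ℝ := Int.fract ((d : ℝ) * w)

/-- digit -/
noncomputable def dg (d : ℕ) (hd : 0 < d) (w : ℝ) : Fin d :=
  ⟨⌊(d : ℝ) * Int.fract w⌋₊, by
    have hd' : (0:ℝ) < d := by exact_mod_cast hd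
    rw [Nat.floor_lt (mul_nonneg hd'.le (Int.fract_nonneg w))]
    have := Int.fract_lt_one w
    nlinarith⟩

theorem measurable_Sh (d : ℕ) : Measurable (Sh d) := by
  unfold Sh
  exact measurable_fract.comp (measurable_const_mul _)

theorem measurable_dg (d : ℕ) (hd : 0 < d) : Measurable (dg d hd) := by
  apply measurable_to_countable'
  intro i
  have h1 : Measurable fun w : ℝ => ⌊(d : ℝ) * Int.fract w⌋₊ :=
    Nat.measurable_floor.comp (measurable_fract.const_mul _)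
  have : dg d hd ⁻¹' {i} = (fun w : ℝ => ⌊(d : ℝ) * Int.fract w⌋₊) ⁻¹' {(i : ℕ)} := by
    ext w
    simp [dg, Fin.ext_iff]
  rw [this]
  exact h1 (measurableSet_singleton _)

theorem Sh_aux {d : ℕ} (hd : 0 < d) {i : ℕ} {u : ℝ} (hu : u ∈ Set.Ico (0:ℝ) 1) :
    Sh d ((i + u) / d) = u := by
  unfold Sh
  have hd' : (d:ℝ) ≠ 0 := by exact_mod_cast hd.ne'
  rw [mul_div_cancel₀ _ hd']
  rw [Int.fract_natCast_add, Int.fract_eq_self.2 ⟨hu.1, hu.2⟩]

theorem dg_aux {d : ℕ} (hd : 0 < d) (i : Fin d) {u : ℝ} (hu : u ∈ Set.Ico (0:ℝ) 1) :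
    dg d hd (((i:ℕ) + u) / d) = i := by
  have hd' : (0:ℝ) < d := by exact_mod_cast hd
  have hi : ((i:ℕ):ℝ) + 1 ≤ d := by exact_mod_cast i.2
  apply Fin.ext
  unfold dg
  simp only
  have h1 : Int.fract ((((i:ℕ):ℝ) + u) / d) = (((i:ℕ):ℝ) + u) / d := by
    rw [Int.fract_eq_self]
    have := hu.1
    have := hu.2
    constructor
    · positivity
    · rw [div_lt_one hd']; linarith
  rw [h1, mul_div_cancel₀ _ hd'.ne']
  rw [Nat.floor_eq_iff (by have := hu.1; positivity)]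
  exact ⟨by linarith [hu.1], by linarith [hu.2]⟩

/-- the base measure -/
noncomputable def P0 : Measure ℝ := volume.restrict (Set.Ico (0:ℝ) 1)

instance : IsProbabilityMeasure P0 := ⟨by unfold P0; simp⟩

theorem piece {d : ℕ} (hd : 0 < d) (i : ℕ) {G : ℝ → ENNReal} (hG : Measurable G) :
    (d : ENNReal) * ∫⁻ x in Set.Ico ((i:ℝ) / d) (((i + 1 : ℕ) : ℝ) / d), G x =
      ∫⁻ u, G ((i + u) / d) ∂P0 := by
  have hd' : (0:ℝ) < d := by exact_mod_cast hd
  have hmap : Measure.map (fun u : ℝ => (i + u) / d) volume = ENNReal.ofReal d • (volume : Measure ℝ) := by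
    have e1 : (fun u : ℝ => ((i:ℝ) + u) / d) = (fun u => (d:ℝ)⁻¹ * u) ∘ (fun u => (i:ℝ) + u) := by
      funext u; simp [div_eq_inv_mul]
    rw [e1, ← Measure.map_map (measurable_const_mul _) (measurable_const_add _), map_add_left_eq_self,
      Real.map_volume_mul_left (inv_ne_zero hd'.ne'), inv_inv, abs_of_pos hd']
  have hm : Measurable fun u : ℝ => ((i:ℝ) + u) / d := by fun_prop
  have hI : MeasurableSet (Set.Ico ((i:ℝ) / d) (((i + 1 : ℕ) : ℝ) / d)) := measurableSet_Ico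
  have h1 := lintegral_map (μ := (volume : Measure ℝ)) (hG.indicator hI) hm
  rw [hmap, lintegral_smul_measure, lintegral_indicator hI] at h1
  rw [ENNReal.ofReal_natCast, smul_eq_mul] at h1
  rw [h1]
  unfold P0
  rw [← lintegral_indicator measurableSet_Ico]
  apply lintegral_congr
  intro u
  have : ((i:ℝ) + u) / d ∈ Set.Ico ((i:ℝ) / d) (((i + 1 : ℕ) : ℝ) / d) ↔ u ∈ Set.Ico (0:ℝ) 1 := by
    push_cast
    simp only [Set.mem_Ico]
    rw [div_le_div_iff_of_pos_right hd', div_lt_div_iff_of_pos_right hd']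
    constructor
    · rintro ⟨h1, h2⟩; exact ⟨by linarith, by linarith⟩
    · rintro ⟨h1, h2⟩; exact ⟨by linarith, by linarith⟩
  by_cases hu : u ∈ Set.Ico (0:ℝ) 1
  · rw [Set.indicator_of_mem hu, Set.indicator_of_mem (this.2 hu)]
  · rw [Set.indicator_of_notMem hu, Set.indicator_of_notMem (fun h => hu (this.1 h))]

theorem pieces {d : ℕ} (hd : 0 < d) (k : ℕ) (G : ℝ → ENNReal) :
    ∫⁻ x in Set.Ico (0:ℝ) ((k:ℝ) / d), G x =
      ∑ i ∈ Finset.range k, ∫⁻ x in Set.Ico ((i:ℝ) / d) (((i + 1 : ℕ) : ℝ) / d), G x := by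
  have hd' : (0:ℝ) < d := by exact_mod_cast hd
  induction k with
  | zero => simp
  | succ k ih =>
    rw [Finset.sum_range_succ, ← ih, ← lintegral_union measurableSet_Ico]
    · congr 2
      rw [Set.Ico_union_Ico_eq_Ico]
      · positivity
      · apply div_le_div_of_nonneg_right _ hd'.le
        push_cast; linarith
    · rw [Set.disjoint_left]
      intro x h1 h2
      exact absurd h1.2 (not_lt.2 h2.1)

theorem key_lint {d : ℕ} (hd : 0 < d) {G : ℝ → ENNReal} (hG : Measurable G) :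
    (d : ENNReal) * ∫⁻ x, G x ∂P0 = ∑ i : Fin d, ∫⁻ u, G (((i:ℕ) + u) / d) ∂P0 := by
  have hd' : (0:ℝ) < d := by exact_mod_cast hd
  have h1 := pieces hd d G
  rw [div_self hd'.ne'] at h1
  have h2 : ∫⁻ x, G x ∂P0 = ∫⁻ x in Set.Ico (0:ℝ) 1, G x := rfl
  rw [h2, h1, Finset.mul_sum]
  rw [Finset.sum_range]
  apply Finset.sum_congr rfl
  intro i _
  exact piece hd i hG

theorem key_F {d : ℕ} (hd : 0 < d) {F : Fin d → ℝ → ENNReal} (hF : ∀ i, Measurable (F i)) :
    (d : ENNReal) * ∫⁻ w, F (dg d hd w) (Sh d w) ∂P0 = ∑ i : Fin d, ∫⁻ u, F i u ∂P0 := by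
  have hF' : Measurable fun p : Fin d × ℝ => F p.1 p.2 :=
    measurable_from_prod_countable_right hF
  have hG : Measurable fun w => F (dg d hd w) (Sh d w) :=
    hF'.comp ((measurable_dg d hd).prodMk (measurable_Sh d))
  rw [key_lint hd hG]
  apply Finset.sum_congr rfl
  intro i _
  unfold P0
  apply setLIntegral_congr_fun measurableSet_Ico
  intro u hu
  simp only
  rw [dg_aux hd i hu, Sh_aux hd hu]

theorem key_S {d : ℕ} (hd : 0 < d) {F : ℝ → ENNReal} (hF : Measurable F) :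
    ∫⁻ w, F (Sh d w) ∂P0 = ∫⁻ u, F u ∂P0 := by
  have h := key_F hd (F := fun _ => F) (fun _ => hF)
  rw [Finset.sum_const, Finset.card_univ, Fintype.card_fin, nsmul_eq_mul] at h
  exact (ENNReal.mul_right_inj (by exact_mod_cast hd.ne') (ENNReal.natCast_ne_top d)).1 h

/-- approximations of the coding map -/
noncomputable def QJ {d : ℕ} (hd : 0 < d) (ξ η : ℝ) (σ : Fin d → ℝ → ℝ) : ℕ → ℝ → ℝ
  | 0, w => ξ + (η - ξ) * Int.fract w
  | (J + 1), w => σ (dg d hd w) (QJ hd ξ η σ J (Sh d w))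

theorem QJ_mem {d : ℕ} (hd : 0 < d) {ξ η : ℝ} (hξ : ξ < η) {σ : Fin d → ℝ → ℝ}
    (h2 : ∀ i t, σ i t ∈ Set.Icc ξ η) (J : ℕ) (w : ℝ) : QJ hd ξ η σ J w ∈ Set.Icc ξ η := by
  cases J with
  | zero =>
    have h1 := Int.fract_nonneg w
    have h2 := Int.fract_lt_one w
    rw [QJ]
    constructor <;> nlinarith
  | succ J => rw [QJ]; exact h2 _ _

theorem measurable_QJ {d : ℕ} (hd : 0 < d) {ξ η : ℝ} {σ : Fin d → ℝ → ℝ}
    (h1 : ∀ i, Continuous (σ i)) (J : ℕ) : Measurable (QJ hd ξ η σ J) := by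
  induction J with
  | zero =>
    have : QJ hd ξ η σ 0 = fun w => ξ + (η - ξ) * Int.fract w := by funext w; rw [QJ]
    rw [this]
    exact (measurable_fract.const_mul _).const_add _
  | succ J ih =>
    have : QJ hd ξ η σ (J + 1) = fun w => σ (dg d hd w) (QJ hd ξ η σ J (Sh d w)) := by funext w; rw [QJ]
    rw [this]
    have hF' : Measurable fun p : Fin d × ℝ => σ p.1 p.2 :=
      measurable_from_prod_countable_right fun i => (h1 i).measurable
    exact hF'.comp ((measurable_dg d hd).prodMk (ih.comp (measurable_Sh d)))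

theorem QJ_cmp {d : ℕ} (hd : 0 < d) (ξ η : ℝ) (σ : Fin d → ℝ → ℝ) (J : ℕ) : ∀ w,
    QJ hd ξ η σ J w = cmp σ (fun k => dg d hd ((Sh d)^[k] w)) J (QJ hd ξ η σ 0 ((Sh d)^[J] w)) := by
  induction J with
  | zero => intro w; rfl
  | succ J ih =>
    intro w
    show σ (dg d hd w) (QJ hd ξ η σ J (Sh d w)) = _
    rw [ih (Sh d w)]
    rfl

theorem pot_rec {g : ℝ[X]} {ξ η C0 : ℝ} {d : ℕ} (hd : 0 < d) {σ : Fin d → ℝ → ℝ}
    (h1 : ∀ i, Continuous (σ i))
    (hk : ∀ x ∈ Set.Icc ξ η, g.eval x ∈ Set.Icc ξ η → ∀ t ∈ Set.Icc ξ η,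
      ∑ i, kD (η - ξ + 1) x (σ i t) = ENNReal.ofReal C0 + kD (η - ξ + 1) (g.eval x) t)
    {x : ℝ} (hx : x ∈ Set.Icc ξ η) (hgx : g.eval x ∈ Set.Icc ξ η)
    {q q' : ℝ → ℝ} (hq' : Measurable q') (hm' : ∀ w, q' w ∈ Set.Icc ξ η)
    (hqq : ∀ w, q w = σ (dg d hd w) (q' (Sh d w))) :
    (d : ENNReal) * ∫⁻ w, kD (η - ξ + 1) x (q w) ∂P0 =
      ENNReal.ofReal C0 + ∫⁻ w, kD (η - ξ + 1) (g.eval x) (q' w) ∂P0 := by
  have m1 : ∀ i, Measurable fun u => kD (η - ξ + 1) x (σ i (q' u)) := fun i =>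
    (measurable_kD _).comp (measurable_const.prodMk ((h1 i).measurable.comp hq'))
  have h := key_F hd (F := fun i u => kD (η - ξ + 1) x (σ i (q' u))) m1
  simp only [← hqq] at h
  rw [h, ← lintegral_finsetSum _ (fun i _ => m1 i)]
  have e : ∀ u, ∑ i, kD (η - ξ + 1) x (σ i (q' u)) =
      ENNReal.ofReal C0 + kD (η - ξ + 1) (g.eval x) (q' u) := fun u => hk x hx hgx _ (hm' u)
  simp only [e]
  rw [lintegral_add_left measurable_const, lintegral_const]
  simp

theorem en_rec {g : ℝ[X]} {ξ η C0 : ℝ} {d : ℕ} (hd : 0 < d) {σ : Fin d → ℝ → ℝ}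
    (h1 : ∀ i, Continuous (σ i)) (h2 : ∀ i t, σ i t ∈ Set.Icc ξ η)
    (h3 : ∀ i, ∀ t ∈ Set.Icc ξ η, g.eval (σ i t) = t)
    (hk : ∀ x ∈ Set.Icc ξ η, g.eval x ∈ Set.Icc ξ η → ∀ t ∈ Set.Icc ξ η,
      ∑ i, kD (η - ξ + 1) x (σ i t) = ENNReal.ofReal C0 + kD (η - ξ + 1) (g.eval x) t)
    {q q' : ℝ → ℝ} (hq : Measurable q) (hq' : Measurable q') (hm' : ∀ w, q' w ∈ Set.Icc ξ η)
    (hqq : ∀ w, q w = σ (dg d hd w) (q' (Sh d w))) :
    (d : ENNReal) * ∫⁻ v, ∫⁻ w, kD (η - ξ + 1) (q v) (q w) ∂P0 ∂P0 =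
      ENNReal.ofReal C0 + ∫⁻ v, ∫⁻ w, kD (η - ξ + 1) (q' v) (q' w) ∂P0 ∂P0 := by
  have m3 : Measurable fun p : ℝ × ℝ => kD (η - ξ + 1) (q p.1) (q p.2) :=
    (measurable_kD _).comp ((hq.comp measurable_fst).prodMk (hq.comp measurable_snd))
  have m4 : Measurable fun p : ℝ × ℝ => kD (η - ξ + 1) (q' p.1) (q' p.2) :=
    (measurable_kD _).comp ((hq'.comp measurable_fst).prodMk (hq'.comp measurable_snd))
  have m1 : Measurable fun v => ∫⁻ w, kD (η - ξ + 1) (q v) (q w) ∂P0 := m3.lintegral_prod_right'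
  have m2 : Measurable fun v => ∫⁻ w, kD (η - ξ + 1) (q' v) (q' w) ∂P0 := m4.lintegral_prod_right'
  rw [← lintegral_const_mul _ m1]
  have hgq : ∀ v, g.eval (q v) = q' (Sh d v) := by
    intro v
    rw [hqq v, h3 _ _ (hm' _)]
  have e : ∀ v, (d : ENNReal) * ∫⁻ w, kD (η - ξ + 1) (q v) (q w) ∂P0 =
      ENNReal.ofReal C0 + ∫⁻ w, kD (η - ξ + 1) (q' (Sh d v)) (q' w) ∂P0 := by
    intro v
    rw [pot_rec (g := g) hd h1 hk (by rw [hqq]; exact h2 _ _) (by rw [hgq]; exact hm' _) hq' hm' hqq, hgq]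
  simp only [e]
  rw [lintegral_add_left measurable_const, lintegral_const, key_S hd m2]
  simp

theorem log_lint : ∫⁻ u in Set.Ico (-1:ℝ) 1, ‖Real.log u‖ₑ < ⊤ := by
  have h := (intervalIntegral.intervalIntegrable_log' (a := -1) (b := 1))
  rw [intervalIntegrable_iff_integrableOn_Ico_of_le (by norm_num)] at h
  exact h.2

theorem kD_q0 {ξ η s t : ℝ} (hξ : ξ < η) (h : s ≠ t) :
    kD (η - ξ + 1) (ξ + (η - ξ) * s) (ξ + (η - ξ) * t) ≤
      ENNReal.ofReal |Real.log ((η - ξ + 1) / (η - ξ))| + ‖Real.log (t - s)‖ₑ := by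
  have hL : 0 < η - ξ := by linarith
  have hne : ξ + (η - ξ) * s ≠ ξ + (η - ξ) * t := by
    intro h2
    apply h
    have : (η - ξ) * s = (η - ξ) * t := by linarith
    exact mul_left_cancel₀ hL.ne' this
  rw [kD_ne hne]
  have e1 : ξ + (η - ξ) * s - (ξ + (η - ξ) * t) = (η - ξ) * (s - t) := by ring
  have d : |s - t| ≠ 0 := abs_ne_zero.2 (sub_ne_zero.2 h)
  rw [e1, abs_mul, abs_of_pos hL, ← div_div, Real.log_div (by positivity) d, Real.log_abs]
  rw [← Real.log_neg_eq_log (s - t), neg_sub]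
  rw [← ofReal_norm, ← ENNReal.ofReal_add (abs_nonneg _) (norm_nonneg _)]
  apply ENNReal.ofReal_le_ofReal
  rw [Real.norm_eq_abs]
  have := neg_abs_le (Real.log (t - s))
  have := le_abs_self (Real.log ((η - ξ + 1) / (η - ξ)))
  linarith

theorem I0_ne_top {d : ℕ} (hd : 0 < d) {ξ η : ℝ} (hξ : ξ < η) (σ : Fin d → ℝ → ℝ) :
    ∫⁻ v, ∫⁻ w, kD (η - ξ + 1) (QJ hd ξ η σ 0 v) (QJ hd ξ η σ 0 w) ∂P0 ∂P0 ≠ ⊤ := by
  set A : ENNReal := ENNReal.ofReal |Real.log ((η - ξ + 1) / (η - ξ))| with hA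
  set B : ENNReal := ∫⁻ u in Set.Ico (-1:ℝ) 1, ‖Real.log u‖ₑ with hB
  have key : ∀ s ∈ Set.Ico (0:ℝ) 1, ∫⁻ w, kD (η - ξ + 1) (QJ hd ξ η σ 0 s) (QJ hd ξ η σ 0 w) ∂P0 ≤ A + B := by
    intro s hs
    have h1 : ∫⁻ t in Set.Ico (0:ℝ) 1, kD (η - ξ + 1) (QJ hd ξ η σ 0 s) (QJ hd ξ η σ 0 t) ≤
        ∫⁻ t in Set.Ico (0:ℝ) 1, (A + (Set.Ico (-1:ℝ) 1).indicator (fun u => ‖Real.log u‖ₑ) (t - s)) := by
      apply lintegral_mono_ae
      rw [ae_restrict_iff' measurableSet_Ico]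
      have : ∀ᵐ t : ℝ, t ≠ s := by
        rw [ae_iff]; simp
      filter_upwards [this] with t hts ht
      rw [QJ, QJ, Int.fract_eq_self.2 ⟨hs.1, hs.2⟩, Int.fract_eq_self.2 ⟨ht.1, ht.2⟩, Set.indicator_of_mem]
      · exact kD_q0 hξ (Ne.symm hts)
      · simp only [Set.mem_Ico] at hs ht ⊢
        constructor <;> linarith
    refine h1.trans ?_
    rw [lintegral_add_left measurable_const, lintegral_const]
    have h2 : A * (volume.restrict (Set.Ico (0:ℝ) 1)) Set.univ = A := by simp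
    rw [h2]
    gcongr
    refine (setLIntegral_le_lintegral _ _).trans ?_
    rw [lintegral_sub_right_eq_self (fun u => (Set.Ico (-1:ℝ) 1).indicator (fun u => ‖Real.log u‖ₑ) u) s,
      lintegral_indicator measurableSet_Ico]
  have h2 : ∫⁻ v, ∫⁻ w, kD (η - ξ + 1) (QJ hd ξ η σ 0 v) (QJ hd ξ η σ 0 w) ∂P0 ∂P0 ≤
      ∫⁻ _ in Set.Ico (0:ℝ) 1, (A + B) := by
    apply setLIntegral_mono measurable_const
    exact key
  refine ne_top_of_le_ne_top ?_ h2
  rw [lintegral_const]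
  simp only [Measure.restrict_apply MeasurableSet.univ, Set.univ_inter, Real.volume_Ico, sub_zero,
    ENNReal.ofReal_one, mul_one]
  exact ENNReal.add_ne_top.2 ⟨ENNReal.ofReal_ne_top, log_lint.ne⟩

/-- finite sums for the constant -/
noncomputable def Vn (d : ℕ) (c : ENNReal) : ℕ → ENNReal
  | 0 => 0
  | (n + 1) => (c + Vn d c n) / d

theorem Vn_le {d : ℕ} (hd : 2 ≤ d) (c : ENNReal) (n : ℕ) : Vn d c n ≤ c := by
  induction n with
  | zero => exact zero_le
  | succ n ih =>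
    rw [Vn]
    apply ENNReal.div_le_of_le_mul
    calc c + Vn d c n ≤ c + c := by gcongr
      _ = c * 2 := (mul_two c).symm
      _ ≤ c * d := by gcongr; exact_mod_cast hd

theorem kernel_id {g : ℝ[X]} {ξ η : ℝ} (hξ : ξ < η) (hdeg : 2 ≤ g.natDegree)
    {σ : Fin g.natDegree → ℝ → ℝ} (h2 : ∀ i t, σ i t ∈ Set.Icc ξ η)
    (h3 : ∀ i, ∀ t ∈ Set.Icc ξ η, g.eval (σ i t) = t)
    (h4 : ∀ t ∈ Set.Icc ξ η, g - C t = C g.leadingCoeff * ∏ i, (X - C (σ i t))) :
    ∀ x ∈ Set.Icc ξ η, g.eval x ∈ Set.Icc ξ η → ∀ t ∈ Set.Icc ξ η,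
      ∑ i, kD (η - ξ + 1) x (σ i t) =
        ENNReal.ofReal (Real.log ((η - ξ + 1) ^ (g.natDegree - 1) * |g.leadingCoeff|)) +
          kD (η - ξ + 1) (g.eval x) t := by
  have ha : g.leadingCoeff ≠ 0 := by
    rw [Ne, leadingCoeff_eq_zero]
    intro h; rw [h] at hdeg; simp at hdeg
  set a := g.leadingCoeff with hadef
  set D := η - ξ + 1 with hD
  have hD0 : 0 < D := by rw [hD]; linarith
  have hD1 : 1 ≤ D := by rw [hD]; linarith
  have hL0 : 0 < η - ξ := by linarith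
  have ev : ∀ x t, t ∈ Set.Icc ξ η → g.eval x - t = a * ∏ i, (x - σ i t) := by
    intro x t ht
    have := congrArg (fun p => p.eval x) (h4 t ht)
    simpa [eval_prod] using this
  -- C0 ≥ 0
  have hC0 : 1 ≤ D ^ (g.natDegree - 1) * |a| := by
    have hd0 : 0 < g.natDegree := by omega
    have hηm : η ∈ Set.Icc ξ η := ⟨hξ.le, le_rfl⟩
    have hξm : ξ ∈ Set.Icc ξ η := ⟨le_rfl, hξ.le⟩
    set x0 := σ ⟨0, hd0⟩ η with hx0
    have h5 := ev x0 ξ hξm
    rw [hx0, h3 _ _ hηm, ← hx0] at h5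
    have h6 : η - ξ = |a| * ∏ i, |x0 - σ i ξ| := by
      rw [← Finset.abs_prod, ← abs_mul, ← h5, abs_of_pos hL0]
    have h7 : ∏ i, |x0 - σ i ξ| ≤ ∏ _i : Fin g.natDegree, (η - ξ) := by
      apply Finset.prod_le_prod
      · intro i _; exact abs_nonneg _
      · intro i _
        have m1 := h2 ⟨0, hd0⟩ η
        have m2 := h2 i ξ
        rw [← hx0] at m1
        rw [abs_le]
        constructor <;> linarith [m1.1, m1.2, m2.1, m2.2]
    rw [Finset.prod_const, Finset.card_univ, Fintype.card_fin] at h7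
    have h8 : η - ξ ≤ |a| * (η - ξ) ^ g.natDegree := by
      rw [h6] at *
      have := mul_le_mul_of_nonneg_left h7 (abs_nonneg a)
      linarith
    have h9 : (η - ξ) ^ g.natDegree = (η - ξ) ^ (g.natDegree - 1) * (η - ξ) := by
      rw [← pow_succ]; congr 1; omega
    rw [h9] at h8
    have h10 : 1 ≤ |a| * (η - ξ) ^ (g.natDegree - 1) := by
      by_contra hc
      push Not at hc
      have := mul_lt_mul_of_pos_right hc hL0
      linarith [mul_assoc |a| ((η - ξ) ^ (g.natDegree - 1)) (η - ξ)]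
    calc (1:ℝ) ≤ |a| * (η - ξ) ^ (g.natDegree - 1) := h10
      _ ≤ |a| * D ^ (g.natDegree - 1) := by
        apply mul_le_mul_of_nonneg_left _ (abs_nonneg a)
        apply pow_le_pow_left₀ hL0.le
        rw [hD]; linarith
      _ = _ := mul_comm _ _
  have bound : ∀ {u v : ℝ}, u ∈ Set.Icc ξ η → v ∈ Set.Icc ξ η → u ≠ v → 0 ≤ Real.log (D / |u - v|) := by
    intro u v hu hv huv
    apply Real.log_nonneg
    rw [le_div_iff₀ (abs_pos.2 (sub_ne_zero.2 huv)), one_mul, abs_le]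
    constructor <;> linarith [hu.1, hu.2, hv.1, hv.2]
  intro x hx hgx t ht
  by_cases hxt : g.eval x = t
  · have h5 := ev x t ht
    rw [hxt, sub_self] at h5
    have h6 : ∏ i, (x - σ i t) = 0 := by
      rcases mul_eq_zero.1 h5.symm with h | h
      · exact absurd h ha
      · exact h
    rw [Finset.prod_eq_zero_iff] at h6
    obtain ⟨i, _, hi⟩ := h6
    rw [hxt, kD_self, add_top]
    have : kD D x (σ i t) = ⊤ := by
      have : x = σ i t := by linarith
      rw [← this, kD_self]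
    exact ENNReal.sum_eq_top.2 ⟨i, Finset.mem_univ i, this⟩
  · have h5 := ev x t ht
    have hne : ∀ i, x ≠ σ i t := by
      intro i hi
      apply hxt
      rw [hi, h3 _ _ ht]
    rw [kD_ne hxt]
    have e1 : ∀ i, kD D x (σ i t) = ENNReal.ofReal (Real.log (D / |x - σ i t|)) := fun i => kD_ne (hne i)
    simp only [e1]
    rw [← ENNReal.ofReal_sum_of_nonneg (fun i _ => bound hx (h2 i t) (hne i)),
      ← ENNReal.ofReal_add (Real.log_nonneg hC0) (bound hgx ht hxt)]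
    congr 1
    have habs : |g.eval x - t| = |a| * ∏ i, |x - σ i t| := by
      rw [h5, abs_mul, Finset.abs_prod]
    have hap : |a| ≠ 0 := abs_ne_zero.2 ha
    have hp : ∀ i, |x - σ i t| ≠ 0 := fun i => abs_ne_zero.2 (sub_ne_zero.2 (hne i))
    rw [habs, Real.log_mul (by positivity) hap, Real.log_div hD0.ne'
      (mul_ne_zero hap (Finset.prod_ne_zero_iff.2 fun i _ => hp i)),
      Real.log_mul hap (Finset.prod_ne_zero_iff.2 fun i _ => hp i), Real.log_prod (fun i _ => hp i),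
      Real.log_pow]
    have e2 : ∀ i, Real.log (D / |x - σ i t|) = Real.log D - Real.log |x - σ i t| := fun i =>
      Real.log_div hD0.ne' (hp i)
    simp only [e2]
    rw [Finset.sum_sub_distrib, Finset.sum_const, Finset.card_univ, Fintype.card_fin, nsmul_eq_mul]
    have e3 : ((g.natDegree - 1 : ℕ) : ℝ) = (g.natDegree : ℝ) - 1 := by
      rw [Nat.cast_sub (by omega)]; simp
    rw [e3]
    ring

theorem exists_balanced {g : ℝ[X]} {ξ η : ℝ} (h : RD g ξ η) {σ : Fin g.natDegree → ℝ → ℝ}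
    (h1 : ∀ i, Continuous (σ i)) (h2 : ∀ i t, σ i t ∈ Set.Icc ξ η)
    (h3 : ∀ i, ∀ t ∈ Set.Icc ξ η, g.eval (σ i t) = t)
    (h4 : ∀ t ∈ Set.Icc ξ η, g - C t = C g.leadingCoeff * ∏ i, (X - C (σ i t)))
    (h5 : ∀ i : ℕ → Fin g.natDegree, ∃ x ∈ KK g ξ η, ∀ t : ℕ → ℝ, (∀ J, t J ∈ Set.Icc ξ η) →
      Tendsto (fun J => cmp σ i J (t J)) atTop (𝓝 x))
    (hpd : ∀ (α β : Measure ℝ), IsProbabilityMeasure α → IsProbabilityMeasure β →
      α (Set.Icc ξ η)ᶜ = 0 → β (Set.Icc ξ η)ᶜ = 0 →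
      2 * ∫⁻ x, ∫⁻ y, kD (η - ξ + 1) x y ∂β ∂α ≤ ED (η - ξ + 1) α + ED (η - ξ + 1) β)
    (huq : ∀ (α β : Measure ℝ), IsProbabilityMeasure α → IsProbabilityMeasure β →
      α (Set.Icc ξ η)ᶜ = 0 → β (Set.Icc ξ η)ᶜ = 0 →
      ED (η - ξ + 1) α < ⊤ → ED (η - ξ + 1) β < ⊤ →
      ED (η - ξ + 1) α + ED (η - ξ + 1) β ≤ 2 * ∫⁻ x, ∫⁻ y, kD (η - ξ + 1) x y ∂β ∂α → α = β) :
    ∃ μ : Measure ℝ, IsProbabilityMeasure μ ∧ μ (KK g ξ η)ᶜ = 0 ∧ Bal g μ ∧ ED (η - ξ + 1) μ < ⊤ ∧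
      ∀ ν : Measure ℝ, IsProbabilityMeasure ν → ν (KK g ξ η)ᶜ = 0 →
        ED (η - ξ + 1) ν ≤ ED (η - ξ + 1) μ → ν = μ := by
  have hd : 0 < g.natDegree := by have := h.deg; omega
  have hdeg := h.deg
  have hξ := h.lt
  have hD0 : 0 < η - ξ + 1 := by linarith
  set C0 : ℝ := Real.log ((η - ξ + 1) ^ (g.natDegree - 1) * |g.leadingCoeff|) with hC0
  have hk := kernel_id hξ h.deg h2 h3 h4
  have hKI : ∀ x ∈ KK g ξ η, x ∈ Set.Icc ξ η := fun x hx => hx 0
  have hKg : ∀ x ∈ KK g ξ η, g.eval x ∈ KK g ξ η := fun x hx n => by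
    have := hx (n + 1)
    rwa [Function.iterate_succ_apply] at this
  -- the coding map
  have hch : ∀ w : ℝ, ∃ x ∈ KK g ξ η, Tendsto (fun J => QJ hd ξ η σ J w) atTop (𝓝 x) := by
    intro w
    obtain ⟨x, hx, hx2⟩ := h5 (fun k => dg g.natDegree hd ((Sh g.natDegree)^[k] w))
    refine ⟨x, hx, ?_⟩
    have := hx2 (fun J => QJ hd ξ η σ 0 ((Sh g.natDegree)^[J] w)) (fun J => QJ_mem hd hξ h2 0 _)
    refine this.congr fun J => ?_
    exact (QJ_cmp hd ξ η σ J w).symm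
  choose Q hQK hQt using hch
  have mQJ := fun J => measurable_QJ (ξ := ξ) (η := η) hd h1 J
  have mQ : Measurable Q := measurable_of_tendsto_metrizable mQJ (tendsto_pi_nhds.2 hQt)
  have hQI : ∀ w, Q w ∈ Set.Icc ξ η := fun w => hKI _ (hQK w)
  have hQeq : ∀ w, Q w = σ (dg g.natDegree hd w) (Q (Sh g.natDegree w)) := by
    intro w
    have e1 := (hQt w).comp (tendsto_add_atTop_nat 1)
    have e2 : Tendsto (fun J => σ (dg g.natDegree hd w) (QJ hd ξ η σ J (Sh g.natDegree w))) atTop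
        (𝓝 (σ (dg g.natDegree hd w) (Q (Sh g.natDegree w)))) := ((h1 _).tendsto _).comp (hQt (Sh g.natDegree w))
    exact tendsto_nhds_unique e1 e2
  set μ : Measure ℝ := Measure.map Q P0 with hμ
  have hμp : IsProbabilityMeasure μ := Measure.isProbabilityMeasure_map mQ.aemeasurable
  have hKm : MeasurableSet (KK g ξ η) := by
    have : KK g ξ η = ⋂ n : ℕ, (fun y => g.eval y)^[n] ⁻¹' Set.Icc ξ η := by
      ext x; simp [KK]
    rw [this]
    apply MeasurableSet.iInter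
    intro n
    exact ((g.continuous.iterate n).measurable) measurableSet_Icc
  have hμK : μ (KK g ξ η)ᶜ = 0 := by
    rw [hμ, Measure.map_apply mQ hKm.compl]
    have : Q ⁻¹' (KK g ξ η)ᶜ = ∅ := by
      ext w; simp [hQK w]
    rw [this]; simp
  have hIc : ∀ ν : Measure ℝ, ν (KK g ξ η)ᶜ = 0 → ν (Set.Icc ξ η)ᶜ = 0 := by
    intro ν hν
    apply measure_mono_null _ hν
    intro x hx hx2
    exact hx (hKI x hx2)
  -- energy
  set I0 := ∫⁻ v, ∫⁻ w, kD (η - ξ + 1) (QJ hd ξ η σ 0 v) (QJ hd ξ η σ 0 w) ∂P0 ∂P0 with hI0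
  have hI0t : I0 ≠ ⊤ := I0_ne_top hd hξ σ
  have hd0 : (g.natDegree : ENNReal) ≠ 0 := by exact_mod_cast hd.ne'
  have hdt : (g.natDegree : ENNReal) ≠ ⊤ := ENNReal.natCast_ne_top g.natDegree
  set c : ENNReal := ENNReal.ofReal C0 with hc
  have hIJ : ∀ J, ∫⁻ v, ∫⁻ w, kD (η - ξ + 1) (QJ hd ξ η σ J v) (QJ hd ξ η σ J w) ∂P0 ∂P0 =
      Vn g.natDegree c J + I0 * ((g.natDegree : ENNReal)⁻¹) ^ J := by
    intro J
    induction J with
    | zero => simp [Vn, hI0]
    | succ J ih =>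
      have e1 := en_rec (g := g) hd h1 h2 h3 hk (mQJ (J + 1)) (mQJ J) (QJ_mem hd hξ h2 J) (fun w => by rw [QJ])
      rw [ih] at e1
      have e2 : ∀ z : ENNReal, z = ((g.natDegree : ENNReal) * z) / g.natDegree := fun z => by
        rw [mul_comm, ENNReal.mul_div_cancel_right hd0 hdt]
      rw [e2 (∫⁻ v, ∫⁻ w, kD (η - ξ + 1) (QJ hd ξ η σ (J + 1) v) (QJ hd ξ η σ (J + 1) w) ∂P0 ∂P0), e1, Vn,
        ← add_assoc, ENNReal.add_div, pow_succ, ← mul_assoc, div_eq_mul_inv (I0 * _)]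
  set V := ⨆ n, Vn g.natDegree c n with hV
  have hVt : V ≠ ⊤ := ne_top_of_le_ne_top ENNReal.ofReal_ne_top (iSup_le fun n => Vn_le hdeg c n)
  have hVn : ∀ n, Vn g.natDegree c n ≤ V := fun n => le_iSup (fun n => Vn g.natDegree c n) n
  have mk : Measurable fun p : ℝ × ℝ => kD (η - ξ + 1) p.1 p.2 := measurable_kD _
  have hEn : ∫⁻ v, ∫⁻ w, kD (η - ξ + 1) (Q v) (Q w) ∂P0 ∂P0 ≤ V := by
    have m3 : ∀ J, Measurable fun p : ℝ × ℝ => kD (η - ξ + 1) (QJ hd ξ η σ J p.1) (QJ hd ξ η σ J p.2) :=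
      fun J => mk.comp (((mQJ J).comp measurable_fst).prodMk ((mQJ J).comp measurable_snd))
    have m1 : ∀ J, Measurable fun v => ∫⁻ w, kD (η - ξ + 1) (QJ hd ξ η σ J v) (QJ hd ξ η σ J w) ∂P0 :=
      fun J => (m3 J).lintegral_prod_right'
    have e : ∀ v w, kD (η - ξ + 1) (Q v) (Q w) =
        liminf (fun J => kD (η - ξ + 1) (QJ hd ξ η σ J v) (QJ hd ξ η σ J w)) atTop :=
      fun v w => ((kD_tendsto hD0 (hQt v) (hQt w)).liminf_eq).symm
    have f1 : ∫⁻ v, ∫⁻ w, kD (η - ξ + 1) (Q v) (Q w) ∂P0 ∂P0 ≤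
        liminf (fun J => ∫⁻ v, ∫⁻ w, kD (η - ξ + 1) (QJ hd ξ η σ J v) (QJ hd ξ η σ J w) ∂P0 ∂P0) atTop := by
      simp only [e]
      refine le_trans (lintegral_mono fun v => ?_) (lintegral_liminf_le m1)
      exact lintegral_liminf_le fun J => (m3 J).comp (measurable_const.prodMk measurable_id)
    refine f1.trans ?_
    have f2 : Tendsto (fun J : ℕ => V + I0 * ((g.natDegree : ENNReal)⁻¹) ^ J) atTop (𝓝 (V + 0)) := by
      apply Tendsto.const_add
      have : Tendsto (fun J : ℕ => I0 * ((g.natDegree : ENNReal)⁻¹) ^ J) atTop (𝓝 (I0 * 0)) := by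
        apply ENNReal.Tendsto.const_mul _ (Or.inr hI0t)
        apply ENNReal.tendsto_pow_atTop_nhds_zero_of_lt_one
        rw [ENNReal.inv_lt_one]
        exact_mod_cast hdeg
      rwa [mul_zero] at this
    rw [add_zero] at f2
    rw [← f2.liminf_eq]
    refine liminf_le_liminf (Eventually.of_forall fun J => ?_)
    simp only [hIJ J]
    exact add_le_add (hVn J) le_rfl
  have hpot : ∀ x, ∫⁻ y, kD (η - ξ + 1) x y ∂μ = ∫⁻ w, kD (η - ξ + 1) x (Q w) ∂P0 := by
    intro x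
    have mx : Measurable (fun y => kD (η - ξ + 1) x y) := mk.comp (measurable_const.prodMk measurable_id)
    rw [hμ, lintegral_map mx mQ]
  have hED : ED (η - ξ + 1) μ = ∫⁻ v, ∫⁻ w, kD (η - ξ + 1) (Q v) (Q w) ∂P0 ∂P0 := by
    unfold ED
    simp only [hpot]
    rw [hμ, lintegral_map _ mQ]
    have : Measurable fun p : ℝ × ℝ => kD (η - ξ + 1) p.1 (Q p.2) :=
      mk.comp (measurable_fst.prodMk (mQ.comp measurable_snd))
    exact this.lintegral_prod_right'
  have hEDt : ED (η - ξ + 1) μ < ⊤ := by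
    rw [hED]; exact lt_of_le_of_lt hEn (lt_top_iff_ne_top.2 hVt)
  have hU : ∀ n, ∀ x ∈ KK g ξ η, Vn g.natDegree c n ≤ ∫⁻ w, kD (η - ξ + 1) x (Q w) ∂P0 := by
    intro n
    induction n with
    | zero => intro x _; exact zero_le
    | succ n ih =>
      intro x hx
      have e1 := ih _ (hKg x hx)
      have e2 := pot_rec (g := g) (q := Q) (q' := Q) hd h1 hk (hKI x hx) (hKI _ (hKg x hx)) mQ hQI hQeq
      rw [Vn]
      apply ENNReal.div_le_of_le_mul
      rw [mul_comm (∫⁻ w, kD (η - ξ + 1) x (Q w) ∂P0), e2]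
      exact add_le_add le_rfl e1
  refine ⟨μ, hμp, hμK, ?_, hEDt, ?_⟩
  · -- balanced
    intro φ
    have hsum : (g.natDegree : ENNReal) • μ = Measure.sum (fun i : Fin g.natDegree => Measure.map (σ i) μ) := by
      ext A hA
      rw [Measure.smul_apply, Measure.sum_apply _ hA, tsum_fintype, smul_eq_mul]
      have e0 : μ A = ∫⁻ w, A.indicator 1 (σ (dg g.natDegree hd w) (Q (Sh g.natDegree w))) ∂P0 := by
        simp only [← hQeq]
        rw [hμ, ← lintegral_indicator_one hA, lintegral_map (measurable_one.indicator hA) mQ]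
      rw [e0]
      have m1 : ∀ i, Measurable fun u => A.indicator (1 : ℝ → ENNReal) (σ i (Q u)) := fun i =>
        (measurable_one.indicator hA).comp ((h1 i).measurable.comp mQ)
      have := key_F hd (F := fun i u => A.indicator (1 : ℝ → ENNReal) (σ i (Q u))) m1
      rw [this]
      apply Finset.sum_congr rfl
      intro i _
      rw [hμ, Measure.map_map (h1 i).measurable mQ, Measure.map_apply ((h1 i).measurable.comp mQ) hA]
      have e3 : (fun u => A.indicator (1 : ℝ → ENNReal) (σ i (Q u))) = ((σ i ∘ Q) ⁻¹' A).indicator 1 := by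
        funext u
        rfl
      rw [e3, lintegral_indicator_one (((h1 i).measurable.comp mQ) hA)]
    obtain ⟨B, hB⟩ : ∃ B, ∀ x ∈ Set.Icc ξ η, ‖φ.eval x‖ ≤ B :=
      (isCompact_Icc).exists_bound_of_continuousOn φ.continuous.continuousOn
    have hint : ∀ i, Integrable (fun t => φ.eval (σ i t)) μ := by
      intro i
      refine Integrable.mono' (integrable_const B) ?_ (Eventually.of_forall fun t => hB _ (h2 i t))
      exact (φ.continuous.comp (h1 i)).measurable.aestronglyMeasurable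
    have hroots : ∀ t ∈ Set.Icc ξ η, ((g - C t).roots.map fun y => φ.eval y).sum = ∑ i, φ.eval (σ i t) := by
      intro t ht
      have ha : g.leadingCoeff ≠ 0 := by
        rw [Ne, leadingCoeff_eq_zero]
        intro h; rw [h] at hdeg; simp at hdeg
      rw [h4 t ht, roots_C_mul _ ha]
      have : (∏ i, (X - C (σ i t))) = (Multiset.map (fun x => X - C x) (Finset.univ.val.map fun i => σ i t)).prod := by
        rw [Multiset.map_map]; rfl
      rw [this, roots_multiset_prod_X_sub_C, Multiset.map_map]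
      rfl
    have hae : ∀ᵐ t ∂μ, t ∈ Set.Icc ξ η := by
      rw [ae_iff]
      exact hIc μ hμK
    have e1 : ∫ t, (((g - C t).roots.map fun y => φ.eval y).sum / (g.natDegree : ℝ)) ∂μ =
        ∫ t, ((∑ i, φ.eval (σ i t)) / (g.natDegree : ℝ)) ∂μ := by
      apply integral_congr_ae
      filter_upwards [hae] with t ht
      rw [hroots t ht]
    rw [e1, integral_div, integral_finset_sum _ (fun i _ => hint i)]
    have hdR : (g.natDegree : ℝ) ≠ 0 := by exact_mod_cast hd.ne'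
    rw [eq_div_iff hdR]
    have e2 : ∀ i, ∫ t, φ.eval (σ i t) ∂μ = ∫ t, φ.eval t ∂(Measure.map (σ i) μ) := by
      intro i
      rw [integral_map (h1 i).measurable.aemeasurable φ.continuous.measurable.aestronglyMeasurable]
    simp only [e2]
    have hint2 : ∀ i, Integrable (fun t => φ.eval t) (Measure.map (σ i) μ) := by
      intro i
      rw [integrable_map_measure φ.continuous.measurable.aestronglyMeasurable (h1 i).measurable.aemeasurable]
      exact hint i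
    rw [← integral_finset_sum_measure (fun i _ => hint2 i), ← Measure.sum_fintype, ← hsum,
      integral_smul_measure]
    simp [mul_comm]
  · intro ν hνp hνK hνE
    have e1 : V ≤ ∫⁻ x, ∫⁻ y, kD (η - ξ + 1) x y ∂μ ∂ν := by
      have : ∫⁻ _ : ℝ, V ∂ν = V := by simp
      rw [← this]
      apply lintegral_mono_ae
      have hae : ∀ᵐ t ∂ν, t ∈ KK g ξ η := by
        rw [ae_iff]
        exact hνK
      filter_upwards [hae] with x hx
      rw [hpot x]
      exact iSup_le fun n => hU n x hx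
    have e2 : ED (η - ξ + 1) μ ≤ V := by rw [hED]; exact hEn
    apply huq ν μ hνp hμp (hIc ν hνK) (hIc μ hμK) (lt_of_le_of_lt hνE hEDt) hEDt
    calc ED (η - ξ + 1) ν + ED (η - ξ + 1) μ ≤ V + V := add_le_add (hνE.trans e2) e2
      _ = 2 * V := (two_mul V).symm
      _ ≤ _ := by gcongr

end Pool.Agent.Helper368.Bel
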