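import Pool.Agent.Helper368.Bel.Defs

set_option autoImplicit false

open MeasureTheory Filter Topology Polynomial

namespace Pool.Agent.Helper368.Bel



theorem ej {p : ℝ[X]} (hd : 1 ≤ p.natDegree) (hc : p.roots.card = p.natDegree) (hn : p.roots.Nodup)
    (r : ℝ[X]) (hr : r.natDegree < p.natDegree) :
    ∑ y ∈ p.roots.toFinset, r.eval y / p.derivative.eval y =
      r.coeff (p.natDegree - 1) / p.leadingCoeff := by
  classical
  set s := p.roots.toFinset with hs
  have hval : s.val = p.roots := by
    rw [hs, Multiset.toFinset_val, Multiset.dedup_eq_self.mpr hn]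
  have hcard : s.card = p.natDegree := by
    rw [Finset.card_def, hval, hc]
  have hp : p = C p.leadingCoeff * Lagrange.nodal s (fun y : ℝ => y) := by
    conv_lhs => rw [← Polynomial.C_leadingCoeff_mul_prod_multiset_X_sub_C hc]
    congr 1
    unfold Lagrange.nodal
    rw [Finset.prod_eq_multiset_prod, hval]
  have hder : ∀ y ∈ s, p.derivative.eval y = p.leadingCoeff * ∏ j ∈ s.erase y, (y - j) := by
    intro y hy
    have h1 := Lagrange.eval_nodal_derivative_eval_node_eq (s := s) (v := fun y : ℝ => y) hy
    have h2 : p.derivative = C p.leadingCoeff * derivative (Lagrange.nodal s (fun y : ℝ => y)) := by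
      conv_lhs => rw [hp]
      rw [derivative_C_mul]
    rw [h2, eval_mul, eval_C, h1, Lagrange.eval_nodal]
  have hrd : r.degree < s.card := by
    rw [hcard]
    by_cases h0 : r = 0
    · rw [h0, degree_zero]; exact WithBot.bot_lt_coe _
    · rw [degree_eq_natDegree h0]; exact_mod_cast hr
  have key := Lagrange.coeff_eq_sum (s := s) (v := fun y : ℝ => y) (Function.injective_id.injOn) hrd
  rw [hcard] at key
  rw [key, Finset.sum_div]
  apply Finset.sum_congr rfl
  intro y hy
  rw [hder y hy]
  field_simp

theorem ej_const (g : ℝ[X]) (hd : 1 ≤ g.natDegree) (q : ℝ[X]) (hq : q.natDegree ≤ 2 * g.natDegree - 2) :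
    ∃ κ : ℝ, (q.natDegree < g.natDegree - 1 → κ = 0) ∧
      ∀ t, (g - C t).roots.card = g.natDegree → (g - C t).roots.Nodup →
        ∑ y ∈ (g - C t).roots.toFinset, q.eval y / g.derivative.eval y = κ := by
  have hg0 : g ≠ 0 := by
    rintro rfl
    simp at hd
  have hmodlt : (q % g).natDegree < g.natDegree := natDegree_mod_lt q (by omega)
  refine ⟨(q % g).coeff (g.natDegree - 1) / g.leadingCoeff, ?_, ?_⟩
  · intro hlt
    have hdeg : q.degree < g.degree := by
      apply degree_lt_degree; omega
    rw [(mod_eq_self_iff hg0).mpr hdeg, coeff_eq_zero_of_natDegree_lt hlt, zero_div]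
  · intro t hcard hnd
    have hdivc : (q / g).coeff (g.natDegree - 1) = 0 ∧ (q / g).natDegree < g.natDegree := by
      by_cases hlt : q.natDegree < g.natDegree
      · have hdeg : q.degree < g.degree := degree_lt_degree hlt
        rw [(Polynomial.div_eq_zero_iff hg0).mpr hdeg]
        simp; omega
      · have hle : g.natDegree ≤ q.natDegree := not_lt.mp hlt
        have hq0 : q ≠ 0 := by
          rintro rfl
          rw [natDegree_zero] at hle; omega
        have hdle : g.degree ≤ q.degree := by
          rw [degree_eq_natDegree hg0, degree_eq_natDegree hq0]; exact_mod_cast hle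
        have hadd := degree_add_div hg0 hdle
        have hqg0 : q / g ≠ 0 := by
          intro h0
          rw [Polynomial.div_eq_zero_iff hg0] at h0
          exact absurd h0 (not_lt.mpr hdle)
        rw [degree_eq_natDegree hg0, degree_eq_natDegree hq0, degree_eq_natDegree hqg0] at hadd
        have hnd2 : g.natDegree + (q / g).natDegree = q.natDegree := by exact_mod_cast hadd
        refine ⟨coeff_eq_zero_of_natDegree_lt (by omega), by omega⟩
    have hnat : (g - C t).natDegree = g.natDegree := natDegree_sub_C
    have hlead : (g - C t).leadingCoeff = g.leadingCoeff := by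
      unfold leadingCoeff
      rw [hnat, coeff_sub, coeff_C, if_neg (by omega), sub_zero]
    have hder : (g - C t).derivative = g.derivative := by
      rw [derivative_sub, derivative_C, sub_zero]
    have h1 := ej (p := g - C t) (by rw [hnat]; exact hd) (by rw [hnat]; exact hcard) hnd
      (q % g + C t * (q / g)) (by
        rw [hnat]
        refine (natDegree_add_le _ _).trans_lt (max_lt hmodlt ?_)
        exact (natDegree_C_mul_le _ _).trans_lt hdivc.2)
    rw [hnat, hlead, hder, coeff_add, coeff_C_mul, hdivc.1, mul_zero, add_zero] at h1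
    rw [← h1]
    apply Finset.sum_congr rfl
    intro y hy
    congr 1
    rw [Multiset.mem_toFinset] at hy
    have hy2 : g.eval y = t := by
      have := (mem_roots'.mp hy).2
      rw [IsRoot.def, eval_sub, eval_C, sub_eq_zero] at this
      exact this
    have h2 : q = g * (q / g) + q % g := (EuclideanDomain.div_add_mod q g).symm
    conv_lhs => rw [h2]
    rw [eval_add, eval_mul, hy2, eval_add, eval_mul, eval_C, add_comm]

end Pool.Agent.Helper368.Bel
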