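import Pool.Agent.Helper368.Bel.Defs

set_option autoImplicit false

open MeasureTheory Filter Topology Polynomial

namespace Pool.Agent.Helper368.Bel



theorem disc_op (s : Finset ℝ) (Ω : ℝ → ℝ) (hΩ : ∀ c ∈ s, 0 < Ω c) (k : ℕ) (hk : k ≤ s.card) :
    ∃ A : ℝ[X], A.Monic ∧ A.natDegree = k ∧
      ∀ r : ℝ[X], r.degree < k → ∑ c ∈ s, Ω c * (A.eval c * r.eval c) = 0 := by
  classical
  have hdeg : ∀ a : Fin k → ℝ, (∑ i, C (a i) * X ^ (i : ℕ) : ℝ[X]).degree < k := by
    intro a
    exact Polynomial.degree_sum_fin_lt a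
  have hev : ∀ (a : Fin k → ℝ) (c : ℝ), (∑ i, C (a i) * X ^ (i : ℕ) : ℝ[X]).eval c = ∑ i, a i * c ^ (i : ℕ) := by
    intro a c
    rw [Polynomial.eval_finsetSum]
    simp
  let T : (Fin k → ℝ) →ₗ[ℝ] (Fin k → ℝ) :=
    { toFun := fun a j => ∑ c ∈ s, Ω c * ((∑ i, a i * c ^ (i : ℕ)) * c ^ (j : ℕ))
      map_add' := by
        intro a b
        funext j
        simp only [Pi.add_apply, add_mul, Finset.sum_add_distrib, mul_add]
      map_smul' := by
        intro t a
        funext j
        simp only [Pi.smul_apply, smul_eq_mul, RingHom.id_apply, Finset.mul_sum]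
        refine Finset.sum_congr rfl fun c _ => ?_
        rw [Finset.sum_mul, Finset.sum_mul, Finset.mul_sum, Finset.mul_sum, Finset.mul_sum]
        refine Finset.sum_congr rfl fun i _ => ?_
        ring }
  have hT : ∀ a j, T a j = ∑ c ∈ s, Ω c * ((∑ i, a i * c ^ (i : ℕ)) * c ^ (j : ℕ)) := fun a j => rfl
  have hinj : Function.Injective T := by
    rw [← LinearMap.ker_eq_bot, LinearMap.ker_eq_bot']
    intro a ha
    have h1 : ∑ c ∈ s, Ω c * (∑ i, a i * c ^ (i : ℕ)) ^ 2 = 0 := by
      have h2 : ∑ j, a j * T a j = 0 := by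
        rw [ha]; simp
      rw [← h2]
      simp only [hT, Finset.mul_sum]
      rw [Finset.sum_comm]
      refine Finset.sum_congr rfl fun c _ => ?_
      rw [sq, mul_comm (∑ i, a i * c ^ (i : ℕ)), Finset.sum_mul, Finset.mul_sum]
      refine Finset.sum_congr rfl fun j _ => ?_
      ring
    have h3 : ∀ c ∈ s, (∑ i, a i * c ^ (i : ℕ)) = 0 := by
      intro c hc
      have h4 := (Finset.sum_eq_zero_iff_of_nonneg (fun c hc => mul_nonneg (hΩ c hc).le (sq_nonneg _))).1 h1 c hc
      rcases mul_eq_zero.1 h4 with h5 | h5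
      · exact absurd h5 (hΩ c hc).ne'
      · exact pow_eq_zero_iff (two_ne_zero) |>.1 h5
    have h6 : (∑ i, C (a i) * X ^ (i : ℕ) : ℝ[X]) = 0 := by
      refine Polynomial.eq_zero_of_degree_lt_of_eval_finset_eq_zero s ?_ ?_
      · exact (hdeg a).trans_le (by exact_mod_cast hk)
      · intro c hc
        rw [hev]; exact h3 c hc
    funext i
    have h7 := congrArg (fun p : ℝ[X] => p.coeff i) h6
    simp only [Polynomial.finsetSum_coeff, Polynomial.coeff_C_mul, Polynomial.coeff_X_pow,
      Polynomial.coeff_zero] at h7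
    rw [Finset.sum_eq_single i] at h7
    · simpa using h7
    · intro j _ hj
      rw [if_neg (fun h => hj (Fin.ext h.symm)), mul_zero]
    · intro h; exact absurd (Finset.mem_univ i) h
  obtain ⟨a, ha⟩ := (LinearMap.injective_iff_surjective.1 hinj) (fun j => -∑ c ∈ s, Ω c * (c ^ k * c ^ (j : ℕ)))
  refine ⟨X ^ k + ∑ i, C (a i) * X ^ (i : ℕ), Polynomial.monic_X_pow_add (hdeg a), ?_, ?_⟩
  · rcases Nat.eq_zero_or_pos k with hk0 | hk0
    · subst hk0; simp
    · refine Polynomial.natDegree_eq_of_degree_eq_some ?_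
      rw [Polynomial.degree_add_eq_left_of_degree_lt, Polynomial.degree_X_pow]
      rw [Polynomial.degree_X_pow]; exact hdeg a
  · intro r hr
    have hr' : ∀ c, r.eval c = ∑ j : Fin k, r.coeff j * c ^ (j : ℕ) := by
      intro c
      rcases Nat.eq_zero_or_pos k with hk0 | hk0
      · subst hk0
        have : r = 0 := by
          rw [← Polynomial.degree_eq_bot]
          exact Nat.WithBot.lt_zero_iff.1 (by simpa using hr)
        rw [this]; simp
      · have h1 : r.natDegree < k := by
          by_cases h0 : r = 0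
          · rw [h0]; simpa using hk0
          · exact (Polynomial.natDegree_lt_iff_degree_lt h0).2 hr
        rw [Polynomial.eval_eq_sum_range' h1, Finset.sum_range]
    have h8 : ∀ j : Fin k, ∑ c ∈ s, Ω c * ((X ^ k + ∑ i, C (a i) * X ^ (i : ℕ) : ℝ[X]).eval c * c ^ (j : ℕ)) = 0 := by
      intro j
      have h9 := congrFun ha j
      rw [hT] at h9
      simp only [Polynomial.eval_add, Polynomial.eval_pow, Polynomial.eval_X, hev, add_mul, mul_add,
        Finset.sum_add_distrib]
      rw [h9]; ring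
    simp only [hr', Finset.mul_sum]
    rw [Finset.sum_comm]
    refine Finset.sum_eq_zero fun j _ => ?_
    have h10 := h8 j
    calc _ = r.coeff j * ∑ c ∈ s, Ω c * ((X ^ k + ∑ i, C (a i) * X ^ (i : ℕ) : ℝ[X]).eval c * c ^ (j : ℕ)) := by
          rw [Finset.mul_sum]
          refine Finset.sum_congr rfl fun c _ => ?_
          ring
      _ = 0 := by rw [h10, mul_zero]

end Pool.Agent.Helper368.Bel

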