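import Pool.Agent.Helper368.Bel.Defs

set_option autoImplicit false

open MeasureTheory Filter Topology Polynomial

namespace Pool.Agent.Helper368.Bel



theorem exists_AB {g : ℝ[X]} {ξ η : ℝ} (h : RD g ξ η) (hc : CF g ξ η)
    (hdisc : ∀ (s : Finset ℝ) (Ω : ℝ → ℝ), (∀ c ∈ s, 0 < Ω c) → ∀ k : ℕ, k ≤ s.card →
      ∃ A : ℝ[X], A.Monic ∧ A.natDegree = k ∧
        ∀ r : ℝ[X], r.degree < k → ∑ c ∈ s, Ω c * (A.eval c * r.eval c) = 0)
    (hej : ∀ p : ℝ[X], 1 ≤ p.natDegree → p.roots.card = p.natDegree → p.roots.Nodup →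
      ∀ r : ℝ[X], r.natDegree < p.natDegree → ∑ y ∈ p.roots.toFinset, r.eval y / p.derivative.eval y =
        r.coeff (p.natDegree - 1) / p.leadingCoeff)
    (u : ℝ → ℝ) (hu : ∀ c ∈ g.derivative.roots, 0 < -(u c) / g.derivative.derivative.eval c)
    (s : ℕ) (hs1 : 1 ≤ s) (hs2 : s ≤ g.natDegree) :
    ∃ A B : ℝ[X], A.Monic ∧ A.natDegree = s - 1 ∧ B.degree < ((g.natDegree - s : ℕ) : WithBot ℕ) ∧
      (∀ c ∈ g.derivative.roots, A.eval c * u c + B.eval c = 0) ∧
      (∀ r : ℝ[X], r.degree < ((s - 1 : ℕ) : WithBot ℕ) →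
        ∑ c ∈ g.derivative.roots.toFinset,
          -(u c) / g.derivative.derivative.eval c * (A.eval c * r.eval c) = 0) := by
  classical
  have hd2 := h.deg
  have hnd : g.derivative.natDegree = g.natDegree - 1 :=
    Polynomial.natDegree_derivative _
  set Cr := g.derivative.roots.toFinset with hCr
  have hcard : Cr.card = g.natDegree - 1 := by
    rw [hCr, Multiset.toFinset_card_of_nodup hc.nodup, hc.card]
  have hΩ : ∀ c ∈ Cr, 0 < -(u c) / g.derivative.derivative.eval c := by
    intro c hcc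
    exact hu c (Multiset.mem_toFinset.1 hcc)
  obtain ⟨A, hA1, hA2, hA3⟩ := hdisc Cr (fun c => -(u c) / g.derivative.derivative.eval c) hΩ (s - 1)
    (by omega)
  set B : ℝ[X] := -Lagrange.interpolate Cr id (fun c => A.eval c * u c) with hB
  have hBe : ∀ c ∈ Cr, B.eval c = -(A.eval c * u c) := by
    intro c hcc
    rw [hB, Polynomial.eval_neg]
    congr 1
    exact Lagrange.eval_interpolate_at_node (v := id) (fun c => A.eval c * u c) (Set.injOn_id _) hcc
  have hBd : B.degree < ((g.natDegree - 1 : ℕ) : WithBot ℕ) := by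
    rw [hB, Polynomial.degree_neg, ← hcard]
    exact Lagrange.degree_interpolate_lt _ (Set.injOn_id _)
  refine ⟨A, B, hA1, hA2, ?_, ?_, hA3⟩
  · by_contra hcon
    rw [not_lt] at hcon
    have hB0 : B ≠ 0 := by
      intro h0
      rw [h0, Polynomial.degree_zero] at hcon
      exact absurd hcon (by simp)
    rw [Polynomial.degree_eq_natDegree hB0] at hcon hBd
    have h1 : g.natDegree - s ≤ B.natDegree := by exact_mod_cast hcon
    have h2 : B.natDegree < g.natDegree - 1 := by exact_mod_cast hBd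
    set e := g.natDegree - 2 - B.natDegree with he
    have h3 := hA3 (X ^ e) (by
      rw [Polynomial.degree_X_pow]
      have : e < s - 1 := by omega
      exact_mod_cast this)
    have hnr : (B * X ^ e).natDegree = g.natDegree - 2 := by
      rw [Polynomial.natDegree_mul_X_pow _ hB0]; omega
    have h4 := hej g.derivative (by omega) (by rw [hc.card, hnd]) hc.nodup (B * X ^ e) (by
      rw [hnr, hnd]; omega)
    have h5 : ∑ y ∈ g.derivative.roots.toFinset, (B * X ^ e).eval y / g.derivative.derivative.eval y = 0 := by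
      rw [← h3]
      refine Finset.sum_congr rfl fun c hcc => ?_
      rw [Polynomial.eval_mul, hBe c hcc]
      ring
    rw [h5, hnd, show g.natDegree - 1 - 1 = (B * X ^ e).natDegree by rw [hnr]; omega,
      Polynomial.coeff_natDegree] at h4
    have h6 : (B * X ^ e).leadingCoeff ≠ 0 := by
      rw [Polynomial.leadingCoeff_ne_zero]
      exact mul_ne_zero hB0 (pow_ne_zero _ Polynomial.X_ne_zero)
    have h7 : g.derivative.leadingCoeff ≠ 0 := by
      rw [Polynomial.leadingCoeff_ne_zero]
      intro h0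
      rw [h0] at hnd
      simp at hnd
      omega
    exact (div_ne_zero h6 h7) h4.symm
  · intro c hcc
    rw [hBe c (Multiset.mem_toFinset.2 hcc)]; ring

end Pool.Agent.Helper368.Bel

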