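import Pool.Agent.Helper368.Bel.Defs

set_option autoImplicit false

open MeasureTheory Filter Topology Polynomial

namespace Pool.Agent.Helper368.Bel

/-- Setting: a probability measure on `[ξ, η]` without atoms and its monic orthogonal polynomials. -/
structure OS (μ : Measure ℝ) (ξ η : ℝ) (P : ℕ → ℝ[X]) : Prop where
  prob : IsProbabilityMeasure μ
  supp : μ (Set.Icc ξ η)ᶜ = 0
  na : ∀ x, μ {x} = 0
  monic : ∀ n, (P n).Monic
  deg : ∀ n, (P n).natDegree = n
  orth : ∀ n k, k < n → ∫ x, (P n).eval x * x ^ k ∂μ = 0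

variable {μ : Measure ℝ} {ξ η : ℝ} {P : ℕ → ℝ[X]}

/-- integration of polynomials -/
noncomputable def LL (μ : Measure ℝ) (p : ℝ[X]) : ℝ := ∫ x, p.eval x ∂μ

theorem OS.ae_mem (h : OS μ ξ η P) : ∀ᵐ x ∂μ, x ∈ Set.Icc ξ η := by
  rw [ae_iff]; exact h.supp

theorem OS.integrable (h : OS μ ξ η P) {f : ℝ → ℝ} (hf : Continuous f) : Integrable f μ := by
  have := h.prob
  obtain ⟨C, hC⟩ : ∃ C, ∀ x ∈ Set.Icc ξ η, ‖f x‖ ≤ C :=
    (isCompact_Icc).exists_bound_of_continuousOn hf.continuousOn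
  exact Integrable.mono' (integrable_const C) hf.aestronglyMeasurable (h.ae_mem.mono fun x hx => hC x hx)

theorem OS.integrable_poly (h : OS μ ξ η P) (p : ℝ[X]) : Integrable (fun x => p.eval x) μ :=
  h.integrable p.continuous

theorem OS.LL_add (h : OS μ ξ η P) (p q : ℝ[X]) : LL μ (p + q) = LL μ p + LL μ q := by
  unfold LL
  simp only [eval_add]
  exact integral_add (h.integrable_poly p) (h.integrable_poly q)

theorem OS.LL_sub (h : OS μ ξ η P) (p q : ℝ[X]) : LL μ (p - q) = LL μ p - LL μ q := by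
  unfold LL
  simp only [eval_sub]
  exact integral_sub (h.integrable_poly p) (h.integrable_poly q)

theorem LL_C_mul (c : ℝ) (p : ℝ[X]) : LL μ (C c * p) = c * LL μ p := by
  unfold LL
  simp only [eval_mul, eval_C]
  exact integral_const_mul _ _

theorem LL_zero : LL μ 0 = 0 := by unfold LL; simp

theorem LL_neg (p : ℝ[X]) : LL μ (-p) = - LL μ p := by
  unfold LL; simp only [eval_neg]; exact integral_neg _

theorem OS.LL_sum (h : OS μ ξ η P) {ι : Type*} (s : Finset ι) (p : ι → ℝ[X]) :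
    LL μ (∑ i ∈ s, p i) = ∑ i ∈ s, LL μ (p i) := by
  classical
  induction s using Finset.induction_on with
  | empty => simp [LL_zero]
  | insert a s ha ih => rw [Finset.sum_insert ha, h.LL_add, ih, Finset.sum_insert ha]

theorem OS.LL_mono (h : OS μ ξ η P) {p q : ℝ[X]} (hpq : ∀ x ∈ Set.Icc ξ η, p.eval x ≤ q.eval x) :
    LL μ p ≤ LL μ q :=
  integral_mono_ae (h.integrable_poly p) (h.integrable_poly q) (h.ae_mem.mono fun x hx => hpq x hx)

theorem OS.orth_poly (h : OS μ ξ η P) (n : ℕ) (r : ℝ[X]) (hr : r.degree < n) :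
    LL μ (P n * r) = 0 := by
  have e : r = ∑ k ∈ Finset.range n, C (r.coeff k) * X ^ k := by
    rcases eq_or_ne r 0 with rfl | h0
    · simp
    · exact as_sum_range_C_mul_X_pow' r ((natDegree_lt_iff_degree_lt h0).2 hr)
  rw [e, Finset.mul_sum, h.LL_sum]
  apply Finset.sum_eq_zero
  intro k hk
  rw [mul_left_comm, LL_C_mul]
  have := h.orth n k (Finset.mem_range.1 hk)
  unfold LL
  simp only [eval_mul, eval_pow, eval_X]
  rw [this, mul_zero]

theorem OS.finite_null (h : OS μ ξ η P) {s : Set ℝ} (hs : s.Finite) : μ s = 0 := by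
  have : s = ⋃ x ∈ s, {x} := by simp
  rw [this, measure_biUnion_null_iff hs.countable]
  exact fun x _ => h.na x

theorem OS.LL_nonneg (h : OS μ ξ η P) {p : ℝ[X]} (h0 : ∀ x ∈ Set.Icc ξ η, 0 ≤ p.eval x) : 0 ≤ LL μ p := by
  have := h.LL_mono (p := 0) (q := p) (by simpa using h0)
  rwa [LL_zero] at this

/-- Strict positivity. -/
theorem OS.LL_pos (h : OS μ ξ η P) {p : ℝ[X]} (h0 : ∀ x ∈ Set.Icc ξ η, 0 ≤ p.eval x) (hp : p ≠ 0) :
    0 < LL μ p := by
  have := h.prob
  have hnn : 0 ≤ᵐ[μ] fun x => p.eval x := h.ae_mem.mono fun x hx => h0 x hx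
  rw [lt_iff_le_and_ne]
  refine ⟨h.LL_nonneg h0, fun h2 => ?_⟩
  have h3 := (integral_eq_zero_iff_of_nonneg_ae hnn (h.integrable_poly p)).1 h2.symm
  have h4 : ∀ᵐ x ∂μ, x ∉ (p.roots.toFinset : Set ℝ) := by
    rw [ae_iff]
    refine measure_mono_null ?_ (h.finite_null (Finset.finite_toSet p.roots.toFinset))
    intro x hx
    exact not_not.1 hx
  have h5 : ∀ᵐ _ ∂μ, False := by
    filter_upwards [h3, h4] with x hx1 hx2
    apply hx2
    simp only [Finset.mem_coe, Multiset.mem_toFinset, mem_roots hp]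
    exact hx1
  rw [ae_iff] at h5
  simp at h5

theorem OS.sq_pos (h : OS μ ξ η P) {p : ℝ[X]} (hp : p ≠ 0) : 0 < LL μ (p * p) :=
  h.LL_pos (fun x _ => by rw [eval_mul]; exact mul_self_nonneg _) (mul_ne_zero hp hp)

/-- squared norms -/
noncomputable def hh (μ : Measure ℝ) (P : ℕ → ℝ[X]) (n : ℕ) : ℝ := LL μ (P n * P n)

theorem OS.hh_pos (h : OS μ ξ η P) (n : ℕ) : 0 < hh μ P n := h.sq_pos (h.monic n).ne_zero

theorem degree_sub_lt_of_monic {p q : ℝ[X]} {n : ℕ} (hp : p.Monic) (hq : q.Monic) (dp : p.natDegree = n)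
    (dq : q.natDegree = n) : (p - q).degree < n := by
  have e1 : p.degree = n := by rw [degree_eq_natDegree hp.ne_zero, dp]
  have e2 : q.degree = n := by rw [degree_eq_natDegree hq.ne_zero, dq]
  have := degree_sub_lt_left (e1.trans e2.symm) hp.ne_zero (by rw [hp.leadingCoeff, hq.leadingCoeff])
  rwa [e1] at this

theorem OS.P_mul_monic (h : OS μ ξ η P) {n : ℕ} {q : ℝ[X]} (hq : q.Monic) (dq : q.natDegree = n) :
    LL μ (P n * q) = hh μ P n := by
  have h1 := h.orth_poly n (q - P n) (degree_sub_lt_of_monic hq (h.monic n) dq (h.deg n))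
  rw [mul_sub, h.LL_sub] at h1
  unfold hh
  linarith

theorem OS.sq_monic_ge (h : OS μ ξ η P) {n : ℕ} {q : ℝ[X]} (hq : q.Monic) (dq : q.natDegree = n) :
    hh μ P n ≤ LL μ (q * q) := by
  have h1 : 0 ≤ LL μ ((q - P n) * (q - P n)) :=
    h.LL_nonneg fun x _ => by rw [eval_mul]; exact mul_self_nonneg _
  have e : (q - P n) * (q - P n) = q * q - C 2 * (P n * q) + P n * P n := by
    rw [map_ofNat]; ring
  rw [e, h.LL_add, h.LL_sub, LL_C_mul, h.P_mul_monic hq dq] at h1
  unfold hh at *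
  linarith

/-- uniqueness of the monic orthogonal polynomial -/
theorem OS.eq_of_orth (h : OS μ ξ η P) {n : ℕ} {q : ℝ[X]} (hq : q.Monic) (dq : q.natDegree = n)
    (ho : ∀ r : ℝ[X], r.degree < n → LL μ (q * r) = 0) : q = P n := by
  by_contra hne
  have hne' : q - P n ≠ 0 := sub_ne_zero.2 hne
  have hd := degree_sub_lt_of_monic hq (h.monic n) dq (h.deg n)
  have h1 := ho _ hd
  have h2 := h.orth_poly n _ hd
  have h3 := h.sq_pos hne'
  rw [sub_mul, h.LL_sub, h1, h2] at h3
  linarith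

theorem OS.P_ne (h : OS μ ξ η P) (n : ℕ) {z : ℝ} (hz : z ∉ Set.Ioo ξ η) : (P n).eval z ≠ 0 := by
  intro h0
  obtain ⟨q, hq⟩ := dvd_iff_isRoot.2 (show (P n).IsRoot z from h0)
  have hq0 : q ≠ 0 := by
    rintro rfl
    rw [mul_zero] at hq
    exact (h.monic n).ne_zero hq
  have hd : q.degree < n := by
    have h1 : (P n).degree = n := by rw [degree_eq_natDegree (h.monic n).ne_zero, h.deg n]
    rw [hq, degree_mul, degree_X_sub_C] at h1
    have h2 : q.degree = q.natDegree := degree_eq_natDegree hq0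
    rw [h2] at h1 ⊢
    have h3 : 1 + q.natDegree = n := by exact_mod_cast h1
    exact_mod_cast (by omega : q.natDegree < n)
  have h1 := h.orth_poly n q hd
  rw [hq, mul_assoc] at h1
  have hne : (X - C z) * (q * q) ≠ 0 := mul_ne_zero (X_sub_C_ne_zero z) (mul_ne_zero hq0 hq0)
  rw [Set.mem_Ioo, not_and_or, not_lt, not_lt] at hz
  rcases hz with hz | hz
  · have h2 := h.LL_pos (p := (X - C z) * (q * q)) (fun x hx => by
      simp only [eval_mul, eval_sub, eval_X, eval_C]
      exact mul_nonneg (by linarith [hx.1]) (mul_self_nonneg _)) hne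
    rw [h1] at h2
    exact lt_irrefl _ h2
  · have h2 := h.LL_pos (p := -((X - C z) * (q * q))) (fun x hx => by
      simp only [eval_mul, eval_sub, eval_X, eval_C, eval_neg]
      have : (x - z) * (q.eval x * q.eval x) ≤ 0 :=
        mul_nonpos_of_nonpos_of_nonneg (by linarith [hx.2]) (mul_self_nonneg _)
      linarith) (neg_ne_zero.2 hne)
    rw [LL_neg, h1] at h2
    linarith

/-- Ratio functions. -/
noncomputable def NN (P : ℕ → ℝ[X]) (n : ℕ) (z : ℝ) : ℝ := (P (n + 1)).eval z / (P n).eval z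

/-- The kernel polynomial. -/
theorem OS.kernel (h : OS μ ξ η P) (n : ℕ) {z : ℝ} (hz : z ∉ Set.Ioo ξ η) :
    ∃ q : ℝ[X], q.Monic ∧ q.natDegree = n ∧ P (n + 1) - C (NN P n z) * P n = (X - C z) * q := by
  have h0 := h.P_ne n hz
  have hr : (P (n + 1) - C (NN P n z) * P n).IsRoot z := by
    unfold NN
    simp only [IsRoot, eval_sub, eval_mul, eval_C]
    field_simp
    ring
  obtain ⟨q, hq⟩ := dvd_iff_isRoot.2 hr
  have hlt : (C (NN P n z) * P n).degree < (P (n + 1)).degree := by
    refine lt_of_le_of_lt (b := (P n).degree) ?_ ?_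
    · rw [← smul_eq_C_mul]; exact degree_smul_le _ _
    · rw [degree_eq_natDegree (h.monic n).ne_zero, degree_eq_natDegree (h.monic (n + 1)).ne_zero, h.deg, h.deg]
      exact_mod_cast Nat.lt_succ_self n
  have hm : (P (n + 1) - C (NN P n z) * P n).Monic := (h.monic (n + 1)).sub_of_left hlt
  have hdg : (P (n + 1) - C (NN P n z) * P n).natDegree = n + 1 := by
    rw [natDegree_sub_eq_left_of_natDegree_lt, h.deg]
    refine lt_of_le_of_lt (natDegree_C_mul_le _ _) ?_
    rw [h.deg, h.deg]; omega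
  have hqm : q.Monic := by
    rw [hq] at hm
    exact (monic_X_sub_C z).of_mul_monic_left hm
  refine ⟨q, hqm, ?_, hq⟩
  rw [hq, (monic_X_sub_C z).natDegree_mul hqm, natDegree_X_sub_C] at hdg
  omega

theorem OS.kernel_int (h : OS μ ξ η P) {n : ℕ} {z : ℝ} {q : ℝ[X]}
    (e : P (n + 1) - C (NN P n z) * P n = (X - C z) * q) {r : ℝ[X]} (hr : r.natDegree ≤ n) :
    LL μ ((C z - X) * (q * r)) = NN P n z * LL μ (P n * r) := by
  have e1 : (C z - X) * (q * r) = C (NN P n z) * (P n * r) - P (n + 1) * r := by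
    linear_combination r * e
  rw [e1, h.LL_sub, LL_C_mul, h.orth_poly (n + 1) r, sub_zero]
  refine lt_of_le_of_lt degree_le_natDegree ?_
  exact_mod_cast Nat.lt_succ_of_le hr

theorem OS.kernel_main (h : OS μ ξ η P) (n : ℕ) {z : ℝ} (hz : z ∉ Set.Ioo ξ η) :
    ∃ q : ℝ[X], q.Monic ∧ q.natDegree = n ∧ LL μ ((C z - X) * (q * q)) = NN P n z * hh μ P n ∧
      LL μ ((C z - X) * (P n * P n)) = NN P n z * hh μ P n +
        LL μ ((C z - X) * ((P n - q) * (P n - q))) := by
  obtain ⟨q, hq, dq, e⟩ := h.kernel n hz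
  have h1 := h.kernel_int e (r := q) dq.le
  rw [h.P_mul_monic hq dq] at h1
  refine ⟨q, hq, dq, h1, ?_⟩
  have h2 := h.kernel_int e (r := P n) (h.deg n).le
  rw [h.P_mul_monic (h.monic n) (h.deg n)] at h2
  have e2 : (C z - X) * (P n * P n) =
      (C 2 * ((C z - X) * (q * P n)) - (C z - X) * (q * q)) + (C z - X) * ((P n - q) * (P n - q)) := by
    rw [map_ofNat]; ring
  rw [e2, h.LL_add, h.LL_sub, LL_C_mul, h1, h2]
  ring

theorem OS.NN_right (h : OS μ ξ η P) (n : ℕ) {z : ℝ} (hz : η ≤ z) :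
    0 < NN P n z ∧ z - η ≤ NN P n z ∧ NN P n z ≤ z - ξ := by
  have hz' : z ∉ Set.Ioo ξ η := fun h => absurd h.2 (not_lt.2 hz)
  obtain ⟨q, hq, dq, e1, e2⟩ := h.kernel_main n hz'
  have hp := h.hh_pos n
  have hne : (C z - X) * (q * q) ≠ 0 := by
    apply mul_ne_zero _ (mul_ne_zero hq.ne_zero hq.ne_zero)
    rw [← neg_sub, neg_ne_zero]
    exact X_sub_C_ne_zero z
  have k1 : 0 < LL μ ((C z - X) * (q * q)) := by
    apply h.LL_pos _ hne
    intro x hx
    simp only [eval_mul, eval_sub, eval_X, eval_C]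
    exact mul_nonneg (by linarith [hx.2]) (mul_self_nonneg _)
  rw [e1] at k1
  refine ⟨(pos_iff_pos_of_mul_pos k1).2 hp, ?_, ?_⟩
  · have k2 : (z - η) * hh μ P n ≤ NN P n z * hh μ P n := by
      rw [← e1]
      calc (z - η) * hh μ P n ≤ (z - η) * LL μ (q * q) :=
            mul_le_mul_of_nonneg_left (h.sq_monic_ge hq dq) (by linarith)
        _ = LL μ (C (z - η) * (q * q)) := (LL_C_mul _ _).symm
        _ ≤ _ := by
          apply h.LL_mono
          intro x hx
          simp only [eval_mul, eval_sub, eval_X, eval_C]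
          exact mul_le_mul_of_nonneg_right (by linarith [hx.2]) (mul_self_nonneg _)
    exact le_of_mul_le_mul_right k2 hp
  · have k3 : 0 ≤ LL μ ((C z - X) * ((P n - q) * (P n - q))) := by
      apply h.LL_nonneg
      intro x hx
      simp only [eval_mul, eval_sub, eval_X, eval_C]
      exact mul_nonneg (by linarith [hx.2]) (mul_self_nonneg _)
    have k2 : NN P n z * hh μ P n ≤ (z - ξ) * hh μ P n := by
      calc NN P n z * hh μ P n ≤ LL μ ((C z - X) * (P n * P n)) := by linarith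
        _ ≤ LL μ (C (z - ξ) * (P n * P n)) := by
          apply h.LL_mono
          intro x hx
          simp only [eval_mul, eval_sub, eval_X, eval_C]
          exact mul_le_mul_of_nonneg_right (by linarith [hx.1]) (mul_self_nonneg _)
        _ = _ := LL_C_mul _ _
    exact le_of_mul_le_mul_right k2 hp

theorem OS.NN_left (h : OS μ ξ η P) (n : ℕ) {z : ℝ} (hz : z ≤ ξ) :
    NN P n z < 0 ∧ ξ - z ≤ -NN P n z ∧ -NN P n z ≤ η - z := by
  have hz' : z ∉ Set.Ioo ξ η := fun h => absurd h.1 (not_lt.2 hz)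
  obtain ⟨q, hq, dq, e1, e2⟩ := h.kernel_main n hz'
  have hp := h.hh_pos n
  have hne : -((C z - X) * (q * q)) ≠ 0 := by
    rw [neg_ne_zero]
    apply mul_ne_zero _ (mul_ne_zero hq.ne_zero hq.ne_zero)
    rw [← neg_sub, neg_ne_zero]
    exact X_sub_C_ne_zero z
  have k1 : 0 < LL μ (-((C z - X) * (q * q))) := by
    apply h.LL_pos _ hne
    intro x hx
    simp only [eval_mul, eval_sub, eval_X, eval_C, eval_neg]
    have : (z - x) * (q.eval x * q.eval x) ≤ 0 :=
      mul_nonpos_of_nonpos_of_nonneg (by linarith [hx.1]) (mul_self_nonneg _)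
    linarith
  rw [LL_neg, e1] at k1
  have hneg : NN P n z < 0 := by
    by_contra hc
    push Not at hc
    have := mul_nonneg hc hp.le
    linarith
  refine ⟨hneg, ?_, ?_⟩
  · have k2 : (ξ - z) * hh μ P n ≤ -NN P n z * hh μ P n := by
      have e3 : -NN P n z * hh μ P n = LL μ (-((C z - X) * (q * q))) := by
        rw [LL_neg, e1]; ring
      rw [e3]
      calc (ξ - z) * hh μ P n ≤ (ξ - z) * LL μ (q * q) :=
            mul_le_mul_of_nonneg_left (h.sq_monic_ge hq dq) (by linarith)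
        _ = LL μ (C (ξ - z) * (q * q)) := (LL_C_mul _ _).symm
        _ ≤ _ := by
          apply h.LL_mono
          intro x hx
          simp only [eval_mul, eval_sub, eval_X, eval_C, eval_neg]
          have := mul_le_mul_of_nonneg_right (show ξ - z ≤ x - z by linarith [hx.1]) (mul_self_nonneg (q.eval x))
          linarith
    exact le_of_mul_le_mul_right k2 hp
  · have k3 : 0 ≤ LL μ (-((C z - X) * ((P n - q) * (P n - q)))) := by
      apply h.LL_nonneg
      intro x hx
      simp only [eval_mul, eval_sub, eval_X, eval_C, eval_neg]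
      have : (z - x) * (((P n).eval x - q.eval x) * ((P n).eval x - q.eval x)) ≤ 0 :=
        mul_nonpos_of_nonpos_of_nonneg (by linarith [hx.1]) (mul_self_nonneg _)
      linarith
    rw [LL_neg] at k3
    have k2 : (z - η) * hh μ P n ≤ NN P n z * hh μ P n := by
      calc (z - η) * hh μ P n = LL μ (C (z - η) * (P n * P n)) := (LL_C_mul _ _).symm
        _ ≤ LL μ ((C z - X) * (P n * P n)) := by
          apply h.LL_mono
          intro x hx
          simp only [eval_mul, eval_sub, eval_X, eval_C]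
          exact mul_le_mul_of_nonneg_right (by linarith [hx.2]) (mul_self_nonneg _)
        _ ≤ _ := by linarith
    have := le_of_mul_le_mul_right k2 hp
    linarith

end Pool.Agent.Helper368.Bel
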