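import Pool.Agent.Helper368.Bel.Defs
import Pool.Agent.Helper368.Bel.OPB

set_option autoImplicit false

open MeasureTheory Filter Topology Polynomial

namespace Pool.Agent.Helper368.Bel


variable {μ : Measure ℝ} {ξ η : ℝ} {P : ℕ → ℝ[X]}


theorem dvd_aux {p W : ℝ[X]} (hp0 : p ≠ 0) (hcard : p.roots.card = p.natDegree) (hnd : p.roots.Nodup)
    (hv : ∀ c ∈ p.roots, W.eval c = 0) : p ∣ W := by
  rcases eq_or_ne W 0 with rfl | hW
  · exact dvd_zero _
  have h1 : (p.roots.map fun a => X - C a).prod ∣ W := by
    rw [Multiset.prod_X_sub_C_dvd_iff_le_roots hW]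
    rw [Multiset.le_iff_subset hnd]
    intro c hc
    rw [mem_roots hW]
    exact hv c hc
  rw [← C_leadingCoeff_mul_prod_multiset_X_sub_C hcard]
  have hu : IsUnit (C p.leadingCoeff) := isUnit_C.2 (isUnit_iff_ne_zero.2 (leadingCoeff_ne_zero.2 hp0))
  exact (hu.mul_left_dvd).2 h1

/-- almost every fibre is simple -/
theorem OS.ae_simple (h : OS μ ξ η P) {g : ℝ[X]} (hg : 2 ≤ g.natDegree) (hR : RD g ξ η)
    (hK : μ (KK g ξ η)ᶜ = 0) :
    ∀ᵐ t ∂μ, (g - C t).roots.card = g.natDegree ∧ (g - C t).roots.Nodup ∧
      ∀ y ∈ (g - C t).roots, g.eval y = t ∧ g.derivative.eval y ≠ 0 := by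
  have h1 : ∀ᵐ t ∂μ, t ∈ KK g ξ η := by
    rw [ae_iff]; exact hK
  have h2 : ∀ᵐ t ∂μ, t ∉ ((g.derivative.roots.map fun c => g.eval c).toFinset : Set ℝ) := by
    rw [ae_iff]
    refine measure_mono_null ?_ (h.finite_null (Finset.finite_toSet (g.derivative.roots.map fun c => g.eval c).toFinset))
    intro x hx
    exact not_not.1 hx
  have hg'0 : g.derivative ≠ 0 := derivative_ne_zero.2 (by omega)
  filter_upwards [h1, h2] with t ht1 ht2
  have hp0 : g - C t ≠ 0 := by
    intro h0
    have : g = C t := by linear_combination h0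
    rw [this] at hg
    simp at hg
  have hy : ∀ y, (g - C t).IsRoot y → g.eval y = t ∧ g.derivative.eval y ≠ 0 := by
    intro y hy
    have e1 : g.eval y = t := by
      have : (g - C t).eval y = 0 := hy
      rw [eval_sub, eval_C] at this
      linarith
    refine ⟨e1, fun e2 => ht2 ?_⟩
    simp only [Finset.mem_coe, Multiset.mem_toFinset, Multiset.mem_map]
    exact ⟨y, (mem_roots hg'0).2 e2, e1⟩
  refine ⟨hR.card_roots t ht1, ?_, fun y hy' => hy y ((mem_roots hp0).1 hy')⟩
  rw [Multiset.nodup_iff_count_le_one]
  intro y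
  rw [count_roots]
  by_contra hc
  push Not at hc
  rw [one_lt_rootMultiplicity_iff_isRoot hp0] at hc
  have h3 := (hy y hc.1).2
  apply h3
  have := hc.2
  rw [derivative_sub, derivative_C, sub_zero] at this
  exact this

/-- The block formula. -/
theorem block_formula {g : ℝ[X]} (hR : RD g ξ η) (hC : CF g ξ η) (h : OS μ ξ η P)
    (hK : μ (KK g ξ η)ᶜ = 0) (hbal : Bal g μ)
    (hej : ∀ (q : ℝ[X]), q.natDegree ≤ 2 * g.natDegree - 2 →
      ∃ κ : ℝ, (q.natDegree < g.natDegree - 1 → κ = 0) ∧
        ∀ t, (g - C t).roots.card = g.natDegree → (g - C t).roots.Nodup →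
          ∑ y ∈ (g - C t).roots.toFinset, q.eval y / g.derivative.eval y = κ)
    (n s : ℕ) (hs1 : 1 ≤ s) (hs2 : s ≤ g.natDegree) (A B : ℝ[X]) (hA : A.Monic)
    (dA : A.natDegree = s - 1) (dB : B.degree < ((g.natDegree - s : ℕ) : WithBot ℕ))
    (hAB : ∀ c ∈ g.derivative.roots,
      A.eval c * (P (n + 1)).eval (g.eval c) + B.eval c * (P n).eval (g.eval c) = 0) :
    A * (P (n + 1)).comp g + B * (P n).comp g =
      C (g.leadingCoeff ^ n / g.natDegree) * (g.derivative * P (n * g.natDegree + s)) := by
  have hprob := h.prob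
  have hd2 : 2 ≤ g.natDegree := hR.deg
  have hae := h.ae_simple hd2 hR hK
  obtain ⟨d, hd⟩ : ∃ d, d = g.natDegree := ⟨_, rfl⟩
  obtain ⟨a, ha⟩ : ∃ a, a = g.leadingCoeff := ⟨_, rfl⟩
  rw [← hd] at hd2 hs2 dB hej hae
  have hg0 : g ≠ 0 := by
    rintro rfl
    simp at hd
    omega
  have ha0 : a ≠ 0 := by rw [ha]; exact leadingCoeff_ne_zero.2 hg0
  have hdR : (d : ℝ) ≠ 0 := by
    have : d ≠ 0 := by omega
    exact_mod_cast this
  have hg'0 : g.derivative ≠ 0 := derivative_ne_zero.2 (by omega)
  have hg'd : g.derivative.natDegree = d - 1 := by rw [natDegree_derivative, hd]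
  have hg'l : g.derivative.leadingCoeff = a * d := by rw [leadingCoeff_derivative, hd, ha]
  obtain ⟨W, hW⟩ : ∃ W, W = A * (P (n + 1)).comp g + B * (P n).comp g := ⟨_, rfl⟩
  rw [← hW, ← ha, ← hd]
  have hWe : ∀ y, W.eval y = A.eval y * (P (n + 1)).eval (g.eval y) + B.eval y * (P n).eval (g.eval y) := by
    intro y
    rw [hW]
    simp only [eval_add, eval_mul, eval_comp]
  have hdvd : g.derivative ∣ W :=
    dvd_aux hg'0 (by rw [natDegree_derivative]; exact hC.card) hC.nodup (fun c hc => by
      rw [hWe]; exact hAB c hc)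
  obtain ⟨R, hWR⟩ := hdvd
  have hPm : ((P (n + 1)).comp g).natDegree = (n + 1) * d := by rw [natDegree_comp, h.deg, hd]
  have hPl : ((P (n + 1)).comp g).leadingCoeff = a ^ (n + 1) := by
    rw [leadingCoeff_comp (by omega), (h.monic _).leadingCoeff, one_mul, h.deg, ha]
  have hPn0 : (P (n + 1)).comp g ≠ 0 := by
    intro h0
    rw [h0, leadingCoeff_zero] at hPl
    exact pow_ne_zero (n + 1) ha0 hPl.symm
  have hAP : (A * (P (n + 1)).comp g).natDegree = (s - 1) + (n + 1) * d := by
    rw [hA.natDegree_mul' hPn0, dA, hPm]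
  have hAP0 : A * (P (n + 1)).comp g ≠ 0 := mul_ne_zero hA.ne_zero hPn0
  have hAl : (A * (P (n + 1)).comp g).leadingCoeff = a ^ (n + 1) := by
    rw [leadingCoeff_mul, hA.leadingCoeff, one_mul, hPl]
  have hBn : B = 0 ∨ B.natDegree < d - s := by
    rcases eq_or_ne B 0 with hB | hB
    · left; exact hB
    · right
      rw [degree_eq_natDegree hB] at dB
      exact_mod_cast dB
  have hBdeg : (B * (P n).comp g).degree < (A * (P (n + 1)).comp g).degree := by
    rcases hBn with hB | hB
    · rw [hB, zero_mul, degree_zero]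
      exact bot_lt_iff_ne_bot.2 (degree_ne_bot.2 hAP0)
    · rw [degree_eq_natDegree hAP0, hAP]
      refine lt_of_le_of_lt degree_le_natDegree ?_
      have h1 : (B * (P n).comp g).natDegree ≤ B.natDegree + n * d := by
        refine le_trans natDegree_mul_le ?_
        rw [natDegree_comp, h.deg, hd]
      have h2 : (B * (P n).comp g).natDegree < (s - 1) + (n + 1) * d := by
        have : (n + 1) * d = n * d + d := by ring
        omega
      exact_mod_cast h2
  have hWd : W.natDegree = (s - 1) + (n + 1) * d := by
    rw [hW, natDegree_add_eq_left_of_degree_lt hBdeg, hAP]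
  have hWl : W.leadingCoeff = a ^ (n + 1) := by
    rw [hW, leadingCoeff_add_of_degree_lt' hBdeg, hAl]
  have hW0 : W ≠ 0 := by
    intro h0
    rw [h0, leadingCoeff_zero] at hWl
    exact pow_ne_zero (n + 1) ha0 hWl.symm
  have hR0 : R ≠ 0 := by
    rintro rfl
    rw [mul_zero] at hWR
    exact hW0 hWR
  have hRd : R.natDegree = n * d + s := by
    have h1 : W.natDegree = g.derivative.natDegree + R.natDegree := by
      rw [hWR, natDegree_mul hg'0 hR0]
    rw [hWd, hg'd] at h1
    have : (n + 1) * d = n * d + d := by ring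
    omega
  have hRl : R.leadingCoeff = a ^ n / d := by
    have h1 : W.leadingCoeff = g.derivative.leadingCoeff * R.leadingCoeff := by
      rw [hWR, leadingCoeff_mul]
    rw [hWl, hg'l] at h1
    field_simp
    have h2 : a * a ^ n = a * (R.leadingCoeff * d) := by
      rw [← pow_succ', h1]; ring
    exact (mul_left_cancel₀ ha0 h2).symm
  have hkey : ∀ j k : ℕ, j < d → j + k * d < n * d + s → LL μ (R * (X ^ j * g ^ k)) = 0 := by
    intro j k hj hjk
    have hkn : k ≤ n := by
      by_contra hc
      push Not at hc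
      have h1 : (n + 1) * d ≤ k * d := Nat.mul_le_mul_right d hc
      have : (n + 1) * d = n * d + d := by ring
      omega
    obtain ⟨κA, -, hκA⟩ := hej (A * X ^ j) (by
      refine le_trans natDegree_mul_le ?_
      rw [dA, natDegree_X_pow]
      omega)
    obtain ⟨κB, hκB0, hκB⟩ := hej (B * X ^ j) (by
      refine le_trans natDegree_mul_le ?_
      rw [natDegree_X_pow]
      rcases hBn with hB | hB
      · rw [hB, natDegree_zero]; omega
      · omega)
    have h1 : LL μ (R * (X ^ j * g ^ k)) =
        LL μ (C (1 / (d : ℝ)) * (C κA * (P (n + 1) * X ^ k) + C κB * (P n * X ^ k))) := by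
      have e := hbal (R * (X ^ j * g ^ k))
      unfold LL
      rw [e]
      apply integral_congr_ae
      filter_upwards [hae] with t ht
      obtain ⟨ht1, ht2, ht3⟩ := ht
      have eA := hκA t ht1 ht2
      have eB := hκB t ht1 ht2
      have e1 : (((g - C t).roots.map fun y => (R * (X ^ j * g ^ k)).eval y).sum) =
          ∑ y ∈ (g - C t).roots.toFinset, (R * (X ^ j * g ^ k)).eval y := by
        rw [Finset.sum, Multiset.toFinset_val, Multiset.dedup_eq_self.2 ht2]
      rw [e1, ← hd]
      have e2 : ∑ y ∈ (g - C t).roots.toFinset, (R * (X ^ j * g ^ k)).eval y =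
          t ^ k * (P (n + 1)).eval t * κA + t ^ k * (P n).eval t * κB := by
        rw [← eA, ← eB, Finset.mul_sum, Finset.mul_sum, ← Finset.sum_add_distrib]
        apply Finset.sum_congr rfl
        intro y hy
        rw [Multiset.mem_toFinset] at hy
        obtain ⟨hy1, hy2⟩ := ht3 y hy
        have hw := hWe y
        rw [hWR, eval_mul, hy1] at hw
        simp only [eval_mul, eval_pow, eval_X, hy1]
        field_simp
        linear_combination (y ^ j * t ^ k) * hw
      rw [e2]
      simp only [eval_mul, eval_add, eval_C, eval_pow, eval_X]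
      field_simp
    rw [h1, LL_C_mul, h.LL_add, LL_C_mul, LL_C_mul]
    have h2 : LL μ (P (n + 1) * X ^ k) = 0 := by
      apply h.orth_poly
      rw [degree_X_pow]
      exact_mod_cast Nat.lt_succ_of_le hkn
    rw [h2]
    rcases hkn.lt_or_eq with hk | hk
    · have h3 : LL μ (P n * X ^ k) = 0 := by
        apply h.orth_poly
        rw [degree_X_pow]
        exact_mod_cast hk
      rw [h3]; ring
    · subst hk
      have h4 : κB = 0 := by
        apply hκB0
        rcases hBn with hB | hB
        · rw [hB, zero_mul, natDegree_zero]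
          omega
        · refine lt_of_le_of_lt natDegree_mul_le ?_
          rw [natDegree_X_pow]
          omega
      rw [h4]; ring
  have hstrong : ∀ N : ℕ, ∀ q : ℝ[X], q.natDegree = N → ∀ k, q.natDegree + k * d < n * d + s →
      LL μ (R * (q * g ^ k)) = 0 := by
    intro N
    induction N using Nat.strong_induction_on with
    | _ N ih =>
      intro q hq k hk
      rcases lt_or_ge q.natDegree d with hlt | hge
      · have e : R * (q * g ^ k) =
            ∑ j ∈ Finset.range (q.natDegree + 1), C (q.coeff j) * (R * (X ^ j * g ^ k)) := by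
          conv_lhs => rw [as_sum_range_C_mul_X_pow q]
          rw [Finset.sum_mul, Finset.mul_sum]
          apply Finset.sum_congr rfl
          intro j _
          ring
        rw [e, h.LL_sum]
        apply Finset.sum_eq_zero
        intro j hj
        rw [Finset.mem_range] at hj
        rw [LL_C_mul, hkey j k (by omega) (by omega), mul_zero]
      · have hdq : g.degree ≤ q.degree := by
          have hq0 : q ≠ 0 := by
            rintro rfl
            rw [natDegree_zero] at hge
            omega
          rw [degree_eq_natDegree hg0, degree_eq_natDegree hq0, ← hd]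
          exact_mod_cast hge
        have hsum := degree_add_div hg0 hdq
        have hq0 : q ≠ 0 := by
          rintro rfl
          rw [natDegree_zero] at hge
          omega
        have hqg0 : q / g ≠ 0 := by
          intro h0
          rw [h0, degree_zero, WithBot.add_bot] at hsum
          exact (degree_ne_bot.2 hq0) hsum.symm
        have hnd : d + (q / g).natDegree = q.natDegree := by
          rw [degree_eq_natDegree hg0, degree_eq_natDegree hqg0, degree_eq_natDegree hq0, ← hd] at hsum
          exact_mod_cast hsum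
        have hmod : (q % g).natDegree < d := by
          rw [hd]
          exact natDegree_mod_lt q (by omega)
        have e : R * (q * g ^ k) = R * ((q / g) * g ^ (k + 1)) + R * ((q % g) * g ^ k) := by
          conv_lhs => rw [← EuclideanDomain.div_add_mod q g]
          ring
        rw [e, h.LL_add, ih (q / g).natDegree (by omega) (q / g) rfl (k + 1), ih (q % g).natDegree (by omega) (q % g) rfl k, add_zero]
        · omega
        · have : (k + 1) * d = k * d + d := by ring
          omega
  have han : a ^ n ≠ 0 := pow_ne_zero n ha0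
  have hcne : ((d : ℝ) / a ^ n) ≠ 0 := div_ne_zero hdR han
  have hmon : (C ((d : ℝ) / a ^ n) * R).Monic := by
    unfold Monic
    rw [leadingCoeff_mul, leadingCoeff_C, hRl]
    field_simp
  have hfin : C ((d : ℝ) / a ^ n) * R = P (n * d + s) := by
    apply h.eq_of_orth hmon
    · rw [natDegree_C_mul hcne, hRd]
    · intro r hr
      rw [mul_assoc, LL_C_mul]
      rcases eq_or_ne r 0 with hr0 | hr0
      · rw [hr0, mul_zero, LL_zero, mul_zero]
      · have h5 : r.natDegree < n * d + s := by
          rw [degree_eq_natDegree hr0] at hr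
          exact_mod_cast hr
        have := hstrong r.natDegree r rfl 0 (by rw [zero_mul, add_zero]; exact h5)
        rw [pow_zero, mul_one] at this
        rw [this, mul_zero]
  rw [← hfin, hWR]
  have e : C (a ^ n / (d : ℝ)) * C ((d : ℝ) / a ^ n) = 1 := by
    rw [← C_mul, ← C_1]
    congr 1
    field_simp
  linear_combination (-(g.derivative * R)) * e

end Pool.Agent.Helper368.Bel
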