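import Pool.Agent.Helper368.Bel.Defs
import Pool.Agent.Helper368.Bel.OPB

set_option autoImplicit false

open MeasureTheory Filter Topology Polynomial

namespace Pool.Agent.Helper368.Bel


variable {μ : Measure ℝ} {ξ η : ℝ} {P : ℕ → ℝ[X]}


/-- weights at the critical points -/
noncomputable def Om (g : ℝ[X]) (P : ℕ → ℝ[X]) (n : ℕ) (c : ℝ) : ℝ :=
  -(g.natDegree * NN P n (g.eval c)) / g.derivative.derivative.eval c

/-- the discrete functional on the nodes `z` and the critical points -/
noncomputable def MM (g : ℝ[X]) (P : ℕ → ℝ[X]) (n : ℕ) (z : ℝ) (q : ℝ[X]) : ℝ :=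
  g.natDegree * NN P n (g.eval z) / g.derivative.eval z * q.eval z +
    ∑ c ∈ g.derivative.roots.toFinset, Om g P n c / (z - c) * q.eval c


theorem Om_pos {g : ℝ[X]} (hR : RD g ξ η) (hC : CF g ξ η) (h : OS μ ξ η P) (n : ℕ) :
    ∀ c ∈ g.derivative.roots, 0 < Om g P n c := by
  intro c hc
  have hd : (0 : ℝ) < g.natDegree := by
    have := hR.deg
    exact_mod_cast (by omega : 0 < g.natDegree)
  unfold Om
  rcases lt_or_gt_of_ne (hC.snd c hc) with h2 | h2
  · have h3 := hC.sign c hc η hR.right
    have h4 : η ≤ g.eval c := by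
      by_contra hcon
      push Not at hcon
      have := mul_pos_of_neg_of_neg (sub_neg.2 hcon) h2
      linarith
    have h5 := (h.NN_right n h4).1
    apply div_pos_of_neg_of_neg _ h2
    have := mul_pos hd h5
    linarith
  · have h3 := hC.sign c hc ξ hR.left
    have h4 : g.eval c ≤ ξ := by
      by_contra hcon
      push Not at hcon
      have := mul_pos (sub_pos.2 hcon) h2
      linarith
    have h5 := (h.NN_left n h4).1
    apply div_pos _ h2
    have := mul_pos hd (neg_pos.2 h5)
    linarith

theorem gc_notin {g : ℝ[X]} (hR : RD g ξ η) (hC : CF g ξ η) {c : ℝ} (hc : c ∈ g.derivative.roots) :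
    g.eval c ∉ Set.Ioo ξ η := by
  rintro ⟨h1, h2⟩
  rcases lt_or_gt_of_ne (hC.snd c hc) with h3 | h3
  · have h4 := hC.sign c hc η hR.right
    have := mul_pos_of_neg_of_neg (sub_neg.2 h2) h3
    linarith
  · have h4 := hC.sign c hc ξ hR.left
    have := mul_pos (sub_pos.2 h1) h3
    linarith

theorem notin_of_signs {s y : ℝ} (hlt : ξ < η) (hs : s ≠ 0) (h1 : 0 ≤ s * (y - ξ))
    (h2 : 0 ≤ s * (y - η)) : y ∉ Set.Ioo ξ η := by
  rintro ⟨h3, h4⟩
  rcases lt_or_gt_of_ne hs with h5 | h5
  · have := mul_neg_of_neg_of_pos h5 (sub_pos.2 h3)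
    linarith
  · have := mul_neg_of_pos_of_neg h5 (sub_neg.2 h4)
    linarith

theorem gz_notin {g : ℝ[X]} (hR : RD g ξ η) (hC : CF g ξ η) {z : ℝ} (hz : z ∉ Set.Ioo ξ η) :
    g.eval z ∉ Set.Ioo ξ η := by
  have hg0 : g ≠ 0 := by
    rintro rfl
    have := hR.deg
    simp at this
  have ha : g.leadingCoeff ≠ 0 := leadingCoeff_ne_zero.2 hg0
  rw [Set.mem_Ioo, not_and_or, not_lt, not_lt] at hz
  rcases hz with hz | hz
  · have hs : (-1) ^ g.natDegree * g.leadingCoeff ≠ 0 := mul_ne_zero (pow_ne_zero _ (by norm_num)) ha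
    have key : ∀ t ∈ KK g ξ η, 0 ≤ (-1) ^ g.natDegree * g.leadingCoeff * (g.eval z - t) := by
      intro t ht
      rcases hz.lt_or_eq with h1 | h1
      · exact (hC.left z h1 t ht).le
      · subst h1
        have hcont : Continuous fun x => (-1) ^ g.natDegree * g.leadingCoeff * (g.eval x - t) :=
          continuous_const.mul (g.continuous.sub continuous_const)
        have ht' : Tendsto (fun x => (-1) ^ g.natDegree * g.leadingCoeff * (g.eval x - t)) (𝓝[<] z)
            (𝓝 ((-1) ^ g.natDegree * g.leadingCoeff * (g.eval z - t))) :=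
          (hcont.tendsto z).mono_left nhdsWithin_le_nhds
        exact ge_of_tendsto ht' (eventually_nhdsWithin_of_forall fun x hx => (hC.left x hx t ht).le)
    exact notin_of_signs hR.lt hs (key ξ hR.left) (key η hR.right)
  · have key : ∀ t ∈ KK g ξ η, 0 ≤ g.leadingCoeff * (g.eval z - t) := by
      intro t ht
      rcases hz.lt_or_eq with h1 | h1
      · exact (hC.right z h1 t ht).le
      · subst h1
        have hcont : Continuous fun x => g.leadingCoeff * (g.eval x - t) :=
          continuous_const.mul (g.continuous.sub continuous_const)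
        have ht' : Tendsto (fun x => g.leadingCoeff * (g.eval x - t)) (𝓝[>] η)
            (𝓝 (g.leadingCoeff * (g.eval η - t))) :=
          (hcont.tendsto η).mono_left nhdsWithin_le_nhds
        exact ge_of_tendsto ht' (eventually_nhdsWithin_of_forall fun x hx => (hC.right x hx t ht).le)
    exact notin_of_signs hR.lt ha (key ξ hR.left) (key η hR.right)

theorem MM_add (g : ℝ[X]) (n : ℕ) (z : ℝ) (p q : ℝ[X]) :
    MM g P n z (p + q) = MM g P n z p + MM g P n z q := by
  unfold MM
  simp only [eval_add, mul_add, Finset.sum_add_distrib]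
  ring

theorem MM_C_mul (g : ℝ[X]) (n : ℕ) (z : ℝ) (b : ℝ) (q : ℝ[X]) :
    MM g P n z (C b * q) = b * MM g P n z q := by
  unfold MM
  simp only [eval_mul, eval_C, mul_add, Finset.mul_sum]
  congr 1
  · ring
  · exact Finset.sum_congr rfl fun c _ => by ring

theorem MM_neg (g : ℝ[X]) (n : ℕ) (z : ℝ) (q : ℝ[X]) :
    MM g P n z (-q) = - MM g P n z q := by
  have := MM_C_mul (P := P) g n z (-1) q
  rw [map_neg, map_one, neg_one_mul, neg_one_mul] at this
  exact this

theorem MM_sub (g : ℝ[X]) (n : ℕ) (z : ℝ) (p q : ℝ[X]) :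
    MM g P n z (p - q) = MM g P n z p - MM g P n z q := by
  rw [sub_eq_add_neg, MM_add, MM_neg]; ring

section
variable {g : ℝ[X]}

theorem comp_id (hR : RD g ξ η) (hC : CF g ξ η) (h : OS μ ξ η P)
    (hAB : ∀ n s : ℕ, 1 ≤ s → s ≤ g.natDegree → ∃ A B : ℝ[X], A.Monic ∧ A.natDegree = s - 1 ∧
      B.degree < ((g.natDegree - s : ℕ) : WithBot ℕ) ∧
      (∀ c ∈ g.derivative.roots,
        A.eval c * (P (n + 1)).eval (g.eval c) + B.eval c * (P n).eval (g.eval c) = 0) ∧
      (∀ r : ℝ[X], r.degree < ((s - 1 : ℕ) : WithBot ℕ) →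
        ∑ c ∈ g.derivative.roots.toFinset, Om g P n c * (A.eval c * r.eval c) = 0) ∧
      A * (P (n + 1)).comp g + B * (P n).comp g =
        C (g.leadingCoeff ^ n / g.natDegree) * (g.derivative * P (n * g.natDegree + s)))
    (n : ℕ) : (P n).comp g = C (g.leadingCoeff ^ n) * P (n * g.natDegree) := by
  have hd : (g.natDegree : ℝ) ≠ 0 := by
    have := hR.deg
    exact_mod_cast (by omega : g.natDegree ≠ 0)
  rcases n with _ | n
  · have h0 : P 0 = 1 := by
      have := h.deg 0
      exact (h.monic 0).natDegree_eq_zero.1 this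
    rw [zero_mul, h0]
    simp
  · obtain ⟨A, B, hA, dA, hB, h1, -, h2⟩ := hAB n g.natDegree (by have := hR.deg; omega) le_rfl
    have hB0 : B = 0 := by
      rw [Nat.sub_self] at hB
      by_contra hne
      rw [degree_eq_natDegree hne] at hB
      exact absurd (by exact_mod_cast hB : B.natDegree < 0) (Nat.not_lt_zero _)
    subst hB0
    have hAr : ∀ c ∈ g.derivative.roots, A.eval c = 0 := by
      intro c hc
      have h3 := h1 c hc
      rw [eval_zero, zero_mul, add_zero] at h3
      exact (mul_eq_zero.1 h3).resolve_right (h.P_ne _ (gc_notin hR hC hc))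
    have hle : g.derivative.roots ≤ A.roots := by
      rw [Multiset.le_iff_subset hC.nodup]
      intro c hc
      rw [mem_roots hA.ne_zero]
      exact hAr c hc
    have hcard : g.derivative.roots.card = A.natDegree := by rw [hC.card, dA]
    have hroots : g.derivative.roots = A.roots := by
      apply Multiset.eq_of_le_of_card_le hle
      rw [hcard]
      exact card_roots' A
    have hAp := prod_multiset_X_sub_C_of_monic_of_roots_card_eq hA (by rw [← hroots, hcard])
    have hDp := C_leadingCoeff_mul_prod_multiset_X_sub_C (p := g.derivative)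
      (by rw [hC.card, natDegree_derivative])
    rw [hroots, hAp] at hDp
    have h3 : A * ((P (n + 1)).comp g) = A * (C (g.leadingCoeff ^ (n + 1)) * P ((n + 1) * g.natDegree)) := by
      rw [zero_mul, add_zero] at h2
      rw [h2, ← hDp, leadingCoeff_derivative]
      have e1 : (n + 1) * g.natDegree = n * g.natDegree + g.natDegree := by ring
      rw [e1]
      have e2 : C (g.leadingCoeff ^ n / (g.natDegree : ℝ)) * C (g.leadingCoeff * g.natDegree) =
          C (g.leadingCoeff ^ (n + 1)) := by
        rw [← C_mul]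
        congr 1
        field_simp
        exact (pow_succ _ _).symm
      rw [← e2]
      ring
    exact mul_left_cancel₀ hA.ne_zero h3

theorem rep (hR : RD g ξ η) (hC : CF g ξ η) (h : OS μ ξ η P)
    (hej : ∀ p : ℝ[X], 1 ≤ p.natDegree → p.roots.card = p.natDegree → p.roots.Nodup →
      ∀ r : ℝ[X], r.natDegree < p.natDegree → ∑ y ∈ p.roots.toFinset, r.eval y / p.derivative.eval y =
        r.coeff (p.natDegree - 1) / p.leadingCoeff)
    (hcomp : ∀ n, (P n).comp g = C (g.leadingCoeff ^ n) * P (n * g.natDegree))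
    {n s : ℕ} (hs : 1 ≤ s) (hsd : s ≤ g.natDegree) {A B : ℝ[X]}
    (hB : B.degree < ((g.natDegree - s : ℕ) : WithBot ℕ))
    (h1 : ∀ c ∈ g.derivative.roots,
        A.eval c * (P (n + 1)).eval (g.eval c) + B.eval c * (P n).eval (g.eval c) = 0)
    (h2 : A * (P (n + 1)).comp g + B * (P n).comp g =
        C (g.leadingCoeff ^ n / g.natDegree) * (g.derivative * P (n * g.natDegree + s)))
    {z : ℝ} (hz : z ∉ Set.Ioo ξ η) {r : ℝ[X]} (hr : r.degree < (s : WithBot ℕ)) :
    MM g P n z (A * r) =
      (P (n * g.natDegree + s)).eval z / (P (n * g.natDegree)).eval z * r.eval z := by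
  classical
  have hdeg := hR.deg
  have hd : (g.natDegree : ℝ) ≠ 0 := by exact_mod_cast (by omega : g.natDegree ≠ 0)
  have hg0 : g ≠ 0 := by
    rintro rfl
    simp at hdeg
  have ha : g.leadingCoeff ≠ 0 := leadingCoeff_ne_zero.2 hg0
  have hD0 : g.derivative ≠ 0 := derivative_ne_zero.2 (by omega)
  have hzr : z ∉ g.derivative.roots := fun hh => hz (hC.mem z hh)
  have hDz : g.derivative.eval z ≠ 0 := fun hh => hzr ((mem_roots hD0).2 hh)
  have hPz : (P (n * g.natDegree)).eval z ≠ 0 := h.P_ne _ hz
  have hPgz : (P n).eval (g.eval z) ≠ 0 := h.P_ne _ (gz_notin hR hC hz)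
  -- the polynomial p
  have hXz : (X - C z : ℝ[X]) ≠ 0 := X_sub_C_ne_zero z
  have hp0 : (X - C z) * g.derivative ≠ 0 := mul_ne_zero hXz hD0
  have hproots : ((X - C z) * g.derivative).roots = {z} + g.derivative.roots := by
    rw [roots_mul hp0, roots_X_sub_C]
  have hpdeg : ((X - C z) * g.derivative).natDegree = g.natDegree := by
    rw [natDegree_mul hXz hD0, natDegree_X_sub_C, natDegree_derivative]; omega
  have hpcard : ((X - C z) * g.derivative).roots.card = ((X - C z) * g.derivative).natDegree := by
    rw [hproots, hpdeg, Multiset.card_add, Multiset.card_singleton, hC.card]; omega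
  have hpnodup : ((X - C z) * g.derivative).roots.Nodup := by
    rw [hproots, Multiset.singleton_add]
    exact Multiset.nodup_cons.2 ⟨hzr, hC.nodup⟩
  have hpfin : ((X - C z) * g.derivative).roots.toFinset = insert z g.derivative.roots.toFinset := by
    rw [hproots, Multiset.singleton_add, Multiset.toFinset_cons]
  have hBr : (B * r).degree < ((g.natDegree - 1 : ℕ) : WithBot ℕ) := by
    rcases eq_or_ne B 0 with hB0 | hB0
    · rw [hB0, zero_mul, degree_zero]; exact WithBot.bot_lt_coe _
    rcases eq_or_ne r 0 with hr0 | hr0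
    · rw [hr0, mul_zero, degree_zero]; exact WithBot.bot_lt_coe _
    rw [degree_mul, degree_eq_natDegree hB0, degree_eq_natDegree hr0]
    rw [degree_eq_natDegree hB0] at hB
    rw [degree_eq_natDegree hr0] at hr
    have hB' : B.natDegree < g.natDegree - s := by exact_mod_cast hB
    have hr' : r.natDegree < s := by exact_mod_cast hr
    exact_mod_cast (by omega : B.natDegree + r.natDegree < g.natDegree - 1)
  have hBrn : (B * r).natDegree < g.natDegree := by
    rcases eq_or_ne (B * r) 0 with h0 | h0
    · rw [h0, natDegree_zero]; omega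
    · rw [degree_eq_natDegree h0] at hBr
      have : (B * r).natDegree < g.natDegree - 1 := by exact_mod_cast hBr
      omega
  have hsum := hej ((X - C z) * g.derivative) (by rw [hpdeg]; omega) hpcard hpnodup (B * r)
    (by rw [hpdeg]; exact hBrn)
  rw [hpdeg, coeff_eq_zero_of_degree_lt hBr, zero_div, hpfin, Finset.sum_insert (by
    rw [Multiset.mem_toFinset]; exact hzr)] at hsum
  have hder : ((X - C z) * g.derivative).derivative =
      g.derivative + (X - C z) * g.derivative.derivative := by
    rw [derivative_mul, derivative_X_sub_C, one_mul]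
  rw [hder] at hsum
  simp only [eval_add, eval_mul, eval_sub, eval_X, eval_C, sub_self, zero_mul, add_zero] at hsum
  have hterm : ∀ c ∈ g.derivative.roots.toFinset,
      B.eval c * r.eval c / (g.derivative.eval c + (c - z) * g.derivative.derivative.eval c) =
        -(1 / g.natDegree * (Om g P n c / (z - c) * (A.eval c * r.eval c))) := by
    intro c hc
    rw [Multiset.mem_toFinset] at hc
    have hc0 : g.derivative.eval c = 0 := (mem_roots hD0).1 hc
    have hcz : z - c ≠ 0 := by
      intro hh
      have : z = c := by linarith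
      exact hzr (this ▸ hc)
    have hcz' : c - z ≠ 0 := by
      intro hh; apply hcz; linarith
    have hs2 := hC.snd c hc
    have hPc := h.P_ne n (gc_notin hR hC hc)
    have hBc : B.eval c = -(A.eval c * NN P n (g.eval c)) := by
      have := h1 c hc
      unfold NN
      field_simp
      linarith
    rw [hc0, zero_add, hBc]
    unfold Om
    have e : (c - z) = -(z - c) := by ring
    rw [e]
    field_simp
  rw [Finset.sum_congr rfl hterm, Finset.sum_neg_distrib, ← Finset.mul_sum] at hsum
  have hS : ∑ c ∈ g.derivative.roots.toFinset, Om g P n c / (z - c) * (A.eval c * r.eval c) =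
      g.natDegree * (B.eval z * r.eval z / g.derivative.eval z) := by
    have : B.eval z * r.eval z / g.derivative.eval z = 1 / g.natDegree *
      ∑ c ∈ g.derivative.roots.toFinset, Om g P n c / (z - c) * (A.eval c * r.eval c) := by linarith
    rw [this]
    field_simp
  unfold MM
  simp only [eval_mul]
  rw [hS]
  have hid : A.eval z * NN P n (g.eval z) + B.eval z =
      1 / g.natDegree * (g.derivative.eval z *
        ((P (n * g.natDegree + s)).eval z / (P (n * g.natDegree)).eval z)) := by
    have h3 := congrArg (eval z) h2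
    simp only [eval_add, eval_mul, eval_comp, eval_C] at h3
    have h4 : (P n).eval (g.eval z) = g.leadingCoeff ^ n * (P (n * g.natDegree)).eval z := by
      have := congrArg (eval z) (hcomp n)
      simpa only [eval_mul, eval_comp, eval_C] using this
    have h5 : A.eval z * NN P n (g.eval z) + B.eval z =
        (g.leadingCoeff ^ n / g.natDegree * (g.derivative.eval z * (P (n * g.natDegree + s)).eval z)) /
          (P n).eval (g.eval z) := by
      rw [← h3]
      unfold NN
      field_simp
    rw [h5, h4]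
    have : g.leadingCoeff ^ n ≠ 0 := pow_ne_zero _ ha
    field_simp
  have e1 : g.natDegree * NN P n (g.eval z) / g.derivative.eval z * (A.eval z * r.eval z) +
      g.natDegree * (B.eval z * r.eval z / g.derivative.eval z) =
      g.natDegree * r.eval z / g.derivative.eval z * (A.eval z * NN P n (g.eval z) + B.eval z) := by
    ring
  rw [e1, hid]
  field_simp

end

theorem vf {g : ℝ[X]} (hR : RD g ξ η) (hC : CF g ξ η) (h : OS μ ξ η P)
    (hej : ∀ p : ℝ[X], 1 ≤ p.natDegree → p.roots.card = p.natDegree → p.roots.Nodup →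
      ∀ r : ℝ[X], r.natDegree < p.natDegree → ∑ y ∈ p.roots.toFinset, r.eval y / p.derivative.eval y =
        r.coeff (p.natDegree - 1) / p.leadingCoeff)
    (hAB : ∀ n s : ℕ, 1 ≤ s → s ≤ g.natDegree → ∃ A B : ℝ[X], A.Monic ∧ A.natDegree = s - 1 ∧
      B.degree < ((g.natDegree - s : ℕ) : WithBot ℕ) ∧
      (∀ c ∈ g.derivative.roots,
        A.eval c * (P (n + 1)).eval (g.eval c) + B.eval c * (P n).eval (g.eval c) = 0) ∧
      (∀ r : ℝ[X], r.degree < ((s - 1 : ℕ) : WithBot ℕ) →
        ∑ c ∈ g.derivative.roots.toFinset, Om g P n c * (A.eval c * r.eval c) = 0) ∧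
      A * (P (n + 1)).comp g + B * (P n).comp g =
        C (g.leadingCoeff ^ n / g.natDegree) * (g.derivative * P (n * g.natDegree + s)))
    (n : ℕ) :
    (∀ z, z ∉ Set.Ioo ξ η → NN P (n * g.natDegree) z = MM g P n z 1) ∧
    (∀ s : ℕ, 1 ≤ s → s < g.natDegree → ∃ A : ℝ[X], A.Monic ∧ A.natDegree = s - 1 ∧
      (∀ r : ℝ[X], r.degree < ((s - 1 : ℕ) : WithBot ℕ) →
        ∑ c ∈ g.derivative.roots.toFinset, Om g P n c * (A.eval c * r.eval c) = 0) ∧
      ∀ z, z ∉ Set.Ioo ξ η → ∃ π : ℝ[X], π.Monic ∧ π.natDegree = s ∧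
        (∀ r : ℝ[X], r.degree < (s : WithBot ℕ) → MM g P n z (π * r) = 0) ∧
        NN P (n * g.natDegree + s) z *
          (∑ c ∈ g.derivative.roots.toFinset, Om g P n c * (A.eval c * A.eval c)) =
            MM g P n z (π * π)) := by
  have hdeg := hR.deg
  have hcomp := comp_id hR hC h hAB
  constructor
  · intro z hz
    obtain ⟨A, B, hA, dA, hB, h1, -, h2⟩ := hAB n 1 le_rfl (by omega)
    have hA1 : A = 1 := hA.natDegree_eq_zero.1 (by rw [dA])
    have h3 := rep hR hC h hej hcomp le_rfl (by omega) hB h1 h2 hz (r := 1) (by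
      rw [degree_one]; exact_mod_cast Nat.zero_lt_one)
    rw [hA1, mul_one, eval_one, mul_one] at h3
    rw [h3]
    rfl
  · intro s hs hsd
    obtain ⟨A, B, hA, dA, hB, h1, ho, h2⟩ := hAB n s hs hsd.le
    refine ⟨A, hA, dA, ho, ?_⟩
    intro z hz
    obtain ⟨A', B', hA', dA', hB', h1', -, h2'⟩ := hAB n (s + 1) (by omega) hsd
    have hPz : (P (n * g.natDegree)).eval z ≠ 0 := h.P_ne _ hz
    have hPs : (P (n * g.natDegree + s)).eval z ≠ 0 := h.P_ne _ hz
    have repA : ∀ {r : ℝ[X]}, r.degree < (s : WithBot ℕ) → MM g P n z (A * r) =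
        (P (n * g.natDegree + s)).eval z / (P (n * g.natDegree)).eval z * r.eval z :=
      fun hr => rep hR hC h hej hcomp hs hsd.le hB h1 h2 hz hr
    have repA' : ∀ {r : ℝ[X]}, r.degree < ((s + 1 : ℕ) : WithBot ℕ) → MM g P n z (A' * r) =
        (P (n * g.natDegree + (s + 1))).eval z / (P (n * g.natDegree)).eval z * r.eval z :=
      fun hr => rep hR hC h hej hcomp (by omega) hsd hB' h1' h2' hz hr
    have hdA : A.natDegree < s := by rw [dA]; omega
    have hdA' : A'.natDegree = s := by rw [dA']; omega
    have hAdeg : A.degree < (s : WithBot ℕ) := by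
      rw [degree_eq_natDegree hA.ne_zero]; exact_mod_cast hdA
    have hA'deg : A'.degree = (s : WithBot ℕ) := by
      rw [degree_eq_natDegree hA'.ne_zero, hdA']
    set ν : ℝ := NN P (n * g.natDegree + s) z with hν
    have hνA : (C ν * A).degree < A'.degree := by
      rw [hA'deg]
      refine lt_of_le_of_lt ?_ hAdeg
      rw [← smul_eq_C_mul]; exact degree_smul_le _ _
    have hπm : (A' - C ν * A).Monic := hA'.sub_of_left hνA
    have hπd : (A' - C ν * A).natDegree = s := by
      rw [natDegree_sub_eq_left_of_natDegree_lt, hdA']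
      refine lt_of_le_of_lt (natDegree_C_mul_le _ _) ?_
      rw [hdA']; exact hdA
    have hψ : (P (n * g.natDegree + (s + 1))).eval z / (P (n * g.natDegree)).eval z =
        ν * ((P (n * g.natDegree + s)).eval z / (P (n * g.natDegree)).eval z) := by
      rw [hν]
      unfold NN
      rw [← add_assoc]
      field_simp
    have horth : ∀ r : ℝ[X], r.degree < (s : WithBot ℕ) → MM g P n z ((A' - C ν * A) * r) = 0 := by
      intro r hr
      have e : (A' - C ν * A) * r = A' * r - C ν * (A * r) := by ring
      rw [e, MM_sub, MM_C_mul, repA hr, repA' (hr.trans (by exact_mod_cast Nat.lt_succ_self s)), hψ]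
      ring
    refine ⟨A' - C ν * A, hπm, hπd, horth, ?_⟩
    set π := A' - C ν * A with hπ
    have hπdeg : π.degree = (s : WithBot ℕ) := by
      rw [degree_eq_natDegree hπm.ne_zero, hπd]
    have e1 : MM g P n z (π * π) = (P (n * g.natDegree + (s + 1))).eval z / (P (n * g.natDegree)).eval z * π.eval z := by
      have e : π * π = A' * π - C ν * (π * A) := by
        rw [hπ]; ring
      rw [e, MM_sub, MM_C_mul, horth A hAdeg, repA' (by rw [hπdeg]; exact_mod_cast Nat.lt_succ_self s)]
      ring
    have hD0 : g.derivative ≠ 0 := derivative_ne_zero.2 (by omega)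
    have hzr : z ∉ g.derivative.roots := fun hh => hz (hC.mem z hh)
    have e2 : MM g P n z ((C z - X) * (A * A)) =
        ∑ c ∈ g.derivative.roots.toFinset, Om g P n c * (A.eval c * A.eval c) := by
      unfold MM
      simp only [eval_mul, eval_sub, eval_C, eval_X, sub_self, zero_mul, mul_zero, zero_add]
      apply Finset.sum_congr rfl
      intro c hc
      rw [Multiset.mem_toFinset] at hc
      have hcz : z - c ≠ 0 := by
        intro hh
        have : z = c := by linarith
        exact hzr (this ▸ hc)
      field_simp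
    -- rho
    have hXA : ((X - C z) * A).Monic := (monic_X_sub_C z).mul hA
    have hXAd : ((X - C z) * A).natDegree = s := by
      rw [(monic_X_sub_C z).natDegree_mul hA, natDegree_X_sub_C, dA]; omega
    set ρ := (X - C z) * A - π with hρ
    have hρd : ρ.degree < (s : WithBot ℕ) := degree_sub_lt_of_monic hXA hπm hXAd hπd
    have hρz : ρ.eval z = - π.eval z := by
      rw [hρ]; simp
    have e3 : MM g P n z ((C z - X) * (A * A)) =
        (P (n * g.natDegree + s)).eval z / (P (n * g.natDegree)).eval z * π.eval z := by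
      have e : (C z - X) * (A * A) = -(π * A + A * ρ) := by
        rw [hρ]; ring
      rw [e, MM_neg, MM_add, horth A hAdeg, repA hρd, hρz]
      ring
    rw [← e2, e3, e1, hψ]
    ring

end Pool.Agent.Helper368.Bel
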