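import Pool.Agent.Helper368.Bel.Mn

set_option autoImplicit false

open MeasureTheory Filter Topology Polynomial

namespace Pool.Agent.Helper368.Bel

/-- the critical points -/
noncomputable def Cr (g : ℝ[X]) : Finset ℝ := g.derivative.roots.toFinset

/-- constants at the nodes -/
noncomputable def kap (g : ℝ[X]) (x u : ℝ) : ℝ :=
  if u = x then g.natDegree / |g.derivative.eval x|
  else g.natDegree / (|g.derivative.derivative.eval u| * |x - u|)

noncomputable def kinf (g : ℝ[X]) (u : ℝ) : ℝ := g.natDegree / |g.derivative.derivative.eval u|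

noncomputable def FF (g : ℝ[X]) (Y : ℝ → ℝ) (s : ℕ) (x : ℝ) : ℝ :=
  mn (insert x (Cr g)) (fun u => kap g x u * Y (g.eval u)) s

noncomputable def HH (g : ℝ[X]) (Y : ℝ → ℝ) (s : ℕ) : ℝ :=
  if s = 0 then 1 else mn (Cr g) (fun u => kinf g u * Y (g.eval u)) (s - 1)

/-- the system of absolute values of ratios of consecutive orthogonal polynomials -/
structure Sys (g : ℝ[X]) (ξ η : ℝ) (y : ℕ → ℝ → ℝ) : Prop where
  pos : ∀ n x, x ∉ Set.Ioo ξ η → 0 < y n x
  lowR : ∀ n x, η ≤ x → x - η ≤ y n x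
  uppR : ∀ n x, η ≤ x → y n x ≤ x - ξ
  lowL : ∀ n x, x ≤ ξ → ξ - x ≤ y n x
  uppL : ∀ n x, x ≤ ξ → y n x ≤ η - x
  monoR : ∀ n x x', η ≤ x → x ≤ x' → x' - x ≤ y n x' - y n x
  monoL : ∀ n x x', x' ≤ x → x ≤ ξ → x - x' ≤ y n x' - y n x
  vf : ∀ n s x, s < g.natDegree → x ∉ Set.Ioo ξ η →
    y (n * g.natDegree + s) x * HH g (y n) s = FF g (y n) s x

/-- normalised distance -/
noncomputable def rho (ξ η x : ℝ) : ℝ := max |x - ξ| |x - η| / (η - ξ)

end Pool.Agent.Helper368.Bel
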