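import Pool.Agent.Helper368.Bel.JK
import Pool.Agent.Helper368.Bel.Sys

set_option autoImplicit false

open MeasureTheory Filter Topology Polynomial

namespace Pool.Agent.Helper368.Bel

variable {μ : Measure ℝ} {ξ η : ℝ} {P : ℕ → ℝ[X]}


theorem svf_om {g : ℝ[X]} {n : ℕ} {c : ℝ} (hOm : 0 < Om g P n c) :
    kinf g c * |NN P n (g.eval c)| = Om g P n c := by
  have h1 : |Om g P n c| = kinf g c * |NN P n (g.eval c)| := by
    unfold Om kinf
    rw [abs_div, abs_neg, abs_mul, Nat.abs_cast]
    ring
  rw [← h1, abs_of_pos hOm]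

theorem svf_deriv_eval {g : ℝ[X]} (hR : RD g ξ η) (hC : CF g ξ η) (z : ℝ) :
    g.derivative.eval z = g.leadingCoeff * g.natDegree *
      (g.derivative.roots.map (fun c => z - c)).prod := by
  have h1 : g.derivative.natDegree = g.natDegree - 1 := Polynomial.natDegree_derivative g
  have h2 : Multiset.card g.derivative.roots = g.derivative.natDegree := by rw [h1]; exact hC.card
  have h3 := C_leadingCoeff_mul_prod_multiset_X_sub_C h2
  have h4 : g.derivative.leadingCoeff = g.leadingCoeff * g.natDegree :=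
    Polynomial.leadingCoeff_derivative g
  conv_lhs => rw [← h3]
  rw [eval_mul, eval_C, h4, eval_multiset_prod, Multiset.map_map]
  congr 2
  apply Multiset.map_congr rfl
  intro c _
  simp

theorem svf_prod_pos (m : Multiset ℝ) (z : ℝ) (h : ∀ c ∈ m, c < z) :
    0 < (m.map (fun c => z - c)).prod := by
  induction m using Multiset.induction_on with
  | empty => simp
  | cons a m ih =>
    rw [Multiset.map_cons, Multiset.prod_cons]
    exact mul_pos (by linarith [h a (Multiset.mem_cons_self a m)])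
      (ih fun c hc => h c (Multiset.mem_cons_of_mem hc))

theorem svf_prod_neg (m : Multiset ℝ) (z : ℝ) (h : ∀ c ∈ m, z < c) :
    0 < (-1) ^ (Multiset.card m) * (m.map (fun c => z - c)).prod := by
  induction m using Multiset.induction_on with
  | empty => simp
  | cons a m ih =>
    rw [Multiset.map_cons, Multiset.prod_cons, Multiset.card_cons, pow_succ]
    have h1 := ih fun c hc => h c (Multiset.mem_cons_of_mem hc)
    have h2 : z - a < 0 := by linarith [h a (Multiset.mem_cons_self a m)]
    have e : (-1 : ℝ) ^ (Multiset.card m) * -1 * ((z - a) * (m.map (fun c => z - c)).prod) =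
      (-(z - a)) * ((-1) ^ (Multiset.card m) * (m.map (fun c => z - c)).prod) := by ring
    rw [e]
    exact mul_pos (by linarith) h1

theorem svf_lead_ne {g : ℝ[X]} (hR : RD g ξ η) : g.leadingCoeff ≠ 0 := by
  rw [Ne, leadingCoeff_eq_zero]
  rintro rfl
  have := hR.deg
  simp at this

/-- sign on the right -/
theorem svf_sign_right {g : ℝ[X]} (hR : RD g ξ η) (hC : CF g ξ η) (h : OS μ ξ η P)
    (hgz : ∀ z, z ∉ Set.Ioo ξ η → g.eval z ∉ Set.Ioo ξ η) (n : ℕ) {z : ℝ} (hz : η ≤ z) :
    0 < NN P n (g.eval z) / g.derivative.eval z := by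
  have ha := svf_lead_ne hR
  have hd : (0 : ℝ) < g.natDegree := by
    have := hR.deg
    exact_mod_cast (by omega : 0 < g.natDegree)
  have hpr := svf_prod_pos g.derivative.roots z
    (fun c hc => lt_of_lt_of_le (hC.mem c hc).2 hz)
  have hde := svf_deriv_eval hR hC z
  have hclosed : ∀ t ∈ KK g ξ η, 0 ≤ g.leadingCoeff * (g.eval z - t) := by
    intro t ht
    have hcl : IsClosed {x : ℝ | 0 ≤ g.leadingCoeff * (g.eval x - t)} := by
      apply isClosed_le continuous_const
      have := g.continuous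
      fun_prop
    have hsub : Set.Ioi η ⊆ {x : ℝ | 0 ≤ g.leadingCoeff * (g.eval x - t)} :=
      fun x hx => (hC.right x hx t ht).le
    have h1 := closure_minimal hsub hcl
    rw [closure_Ioi] at h1
    exact h1 hz
  have h1 := hclosed ξ hR.left
  have h2 := hclosed η hR.right
  have hz' : z ∉ Set.Ioo ξ η := fun hh => absurd hh.2 (not_lt.2 hz)
  have hg := hgz z hz'
  have hlt := hR.lt
  rw [Set.mem_Ioo, not_and_or, not_lt, not_lt] at hg
  rcases lt_or_gt_of_ne ha with ha | ha
  · have h3 : g.eval z ≤ ξ := by nlinarith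
    have h4 := (h.NN_left n h3).1
    have h5 : g.derivative.eval z < 0 := by
      rw [hde]
      exact mul_neg_of_neg_of_pos (mul_neg_of_neg_of_pos ha hd) hpr
    exact div_pos_of_neg_of_neg h4 h5
  · have h3 : η ≤ g.eval z := by nlinarith
    have h4 := (h.NN_right n h3).1
    have h5 : 0 < g.derivative.eval z := by
      rw [hde]
      positivity
    exact div_pos h4 h5

/-- sign on the left -/
theorem svf_sign_left {g : ℝ[X]} (hR : RD g ξ η) (hC : CF g ξ η) (h : OS μ ξ η P)
    (hgz : ∀ z, z ∉ Set.Ioo ξ η → g.eval z ∉ Set.Ioo ξ η) (n : ℕ) {z : ℝ} (hz : z ≤ ξ) :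
    NN P n (g.eval z) / g.derivative.eval z < 0 := by
  have ha := svf_lead_ne hR
  have hd2 := hR.deg
  have hd : (0 : ℝ) < g.natDegree := by
    exact_mod_cast (by omega : 0 < g.natDegree)
  have hpr := svf_prod_neg g.derivative.roots z
    (fun c hc => lt_of_le_of_lt hz (hC.mem c hc).1)
  rw [hC.card] at hpr
  have hde := svf_deriv_eval hR hC z
  have hclosed : ∀ t ∈ KK g ξ η, 0 ≤ (-1) ^ g.natDegree * g.leadingCoeff * (g.eval z - t) := by
    intro t ht
    have hcl : IsClosed {x : ℝ | 0 ≤ (-1) ^ g.natDegree * g.leadingCoeff * (g.eval x - t)} := by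
      apply isClosed_le continuous_const
      have := g.continuous
      fun_prop
    have hsub : Set.Iio ξ ⊆ {x : ℝ | 0 ≤ (-1) ^ g.natDegree * g.leadingCoeff * (g.eval x - t)} :=
      fun x hx => (hC.left x hx t ht).le
    have h1 := closure_minimal hsub hcl
    rw [closure_Iio] at h1
    exact h1 hz
  have h1 := hclosed ξ hR.left
  have h2 := hclosed η hR.right
  have hz' : z ∉ Set.Ioo ξ η := fun hh => absurd hh.1 (not_lt.2 hz)
  have hg := hgz z hz'
  have hlt := hR.lt
  rw [Set.mem_Ioo, not_and_or, not_lt, not_lt] at hg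
  have hpow : (-1 : ℝ) ^ g.natDegree = - (-1) ^ (g.natDegree - 1) := by
    have : g.natDegree = (g.natDegree - 1) + 1 := by omega
    conv_lhs => rw [this]
    rw [pow_succ]; ring
  set e : ℝ := (-1) ^ (g.natDegree - 1) with he
  have he1 : e = 1 ∨ e = -1 := neg_one_pow_eq_or ℝ _
  rw [hpow] at h1 h2
  set a := g.leadingCoeff with hadef
  set Q := (g.derivative.roots.map (fun c => z - c)).prod with hQ
  have hea : e * a ≠ 0 := by
    rcases he1 with h0 | h0 <;> rw [h0] <;> simpa using ha
  rcases lt_or_gt_of_ne hea with hea | hea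
  · -- e a < 0
    have h3 : η ≤ g.eval z := by nlinarith
    have h4 := (h.NN_right n h3).1
    have h5 : g.derivative.eval z < 0 := by
      rw [hde]
      have e2 : a * g.natDegree * Q = (e * a) * g.natDegree * (e * Q) := by
        rcases he1 with h0 | h0 <;> rw [h0] <;> ring
      rw [e2]
      exact mul_neg_of_neg_of_pos (mul_neg_of_neg_of_pos hea hd) hpr
    exact div_neg_of_pos_of_neg h4 h5
  · have h3 : g.eval z ≤ ξ := by nlinarith
    have h4 := (h.NN_left n h3).1
    have h5 : 0 < g.derivative.eval z := by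
      rw [hde]
      have e2 : a * g.natDegree * Q = (e * a) * g.natDegree * (e * Q) := by
        rcases he1 with h0 | h0 <;> rw [h0] <;> ring
      rw [e2]
      exact mul_pos (mul_pos hea hd) hpr
    exact div_neg_of_neg_of_pos h4 h5

/-- the functional as a positive sum -/
theorem svf_MM {g : ℝ[X]} (hR : RD g ξ η) (hC : CF g ξ η) (h : OS μ ξ η P)
    (hOm : ∀ n, ∀ c ∈ g.derivative.roots, 0 < Om g P n c)
    (hgz : ∀ z, z ∉ Set.Ioo ξ η → g.eval z ∉ Set.Ioo ξ η) (n : ℕ) {z : ℝ} (hz : z ∉ Set.Ioo ξ η) :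
    ∃ σ : ℝ, (∀ m, |NN P m z| = σ * NN P m z) ∧ ∀ q : ℝ[X], σ * MM g P n z q =
      ∑ u ∈ insert z (Cr g), (kap g z u * |NN P n (g.eval u)|) * q.eval u := by
  have hzc : z ∉ Cr g := by
    intro hh
    exact hz (hC.mem z (Multiset.mem_toFinset.1 hh))
  obtain ⟨σ, hσ1, hσ2, hσ3⟩ : ∃ σ : ℝ, (∀ m, |NN P m z| = σ * NN P m z) ∧
      (∀ c ∈ g.derivative.roots, σ / (z - c) = 1 / |z - c|) ∧
      σ * (NN P n (g.eval z) / g.derivative.eval z) =
        |NN P n (g.eval z)| / |g.derivative.eval z| := by
    have hz1 := hz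
    rw [Set.mem_Ioo, not_and_or, not_lt, not_lt] at hz1
    rcases hz1 with hz1 | hz1
    · refine ⟨-1, fun m => ?_, fun c hc => ?_, ?_⟩
      · rw [abs_of_neg (h.NN_left m hz1).1]; ring
      · have hcz : z - c < 0 := by linarith [(hC.mem c hc).1]
        rw [abs_of_neg hcz, neg_div, one_div, one_div, inv_neg]
      · have h1 := svf_sign_left hR hC h hgz n hz1
        rw [← abs_div, abs_of_neg h1]; ring
    · refine ⟨1, fun m => ?_, fun c hc => ?_, ?_⟩
      · rw [abs_of_pos (h.NN_right m hz1).1]; ring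
      · have hcz : 0 < z - c := by linarith [(hC.mem c hc).2]
        rw [abs_of_pos hcz]
      · have h1 := svf_sign_right hR hC h hgz n hz1
        rw [← abs_div, abs_of_pos h1]; ring
  refine ⟨σ, hσ1, fun q => ?_⟩
  rw [Finset.sum_insert hzc]
  unfold MM
  rw [mul_add]
  congr 1
  · have e1 : kap g z z = g.natDegree / |g.derivative.eval z| := by simp [kap]
    rw [e1]
    have e2 : σ * (g.natDegree * NN P n (g.eval z) / g.derivative.eval z * q.eval z) =
        g.natDegree * (σ * (NN P n (g.eval z) / g.derivative.eval z)) * q.eval z := by ring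
    rw [e2, hσ3]; ring
  · rw [Finset.mul_sum]
    apply Finset.sum_congr rfl
    intro c hc
    have hc' : c ∈ g.derivative.roots := Multiset.mem_toFinset.1 hc
    have hcz : c ≠ z := by
      rintro rfl
      exact hzc hc
    have e1 : kap g z c = kinf g c * (1 / |z - c|) := by
      unfold kap kinf
      rw [if_neg hcz]
      rw [← div_div]; ring
    have e2 : σ * (Om g P n c / (z - c) * q.eval c) = Om g P n c * (σ / (z - c)) * q.eval c := by
      ring
    rw [e1, e2, hσ2 c hc', ← svf_om (hOm n c hc')]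
    ring

theorem sys_vf {g : ℝ[X]} (hR : RD g ξ η) (hC : CF g ξ η) (h : OS μ ξ η P)
    (hOm : ∀ n, ∀ c ∈ g.derivative.roots, 0 < Om g P n c)
    (hgz : ∀ z, z ∉ Set.Ioo ξ η → g.eval z ∉ Set.Ioo ξ η)
    (hvf : ∀ n : ℕ,
      (∀ z, z ∉ Set.Ioo ξ η → NN P (n * g.natDegree) z = MM g P n z 1) ∧
      (∀ s : ℕ, 1 ≤ s → s < g.natDegree → ∃ A : ℝ[X], A.Monic ∧ A.natDegree = s - 1 ∧
        (∀ r : ℝ[X], r.degree < ((s - 1 : ℕ) : WithBot ℕ) →
          ∑ c ∈ g.derivative.roots.toFinset, Om g P n c * (A.eval c * r.eval c) = 0) ∧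
        ∀ z, z ∉ Set.Ioo ξ η → ∃ π : ℝ[X], π.Monic ∧ π.natDegree = s ∧
          (∀ r : ℝ[X], r.degree < (s : WithBot ℕ) → MM g P n z (π * r) = 0) ∧
          NN P (n * g.natDegree + s) z *
            (∑ c ∈ g.derivative.roots.toFinset, Om g P n c * (A.eval c * A.eval c)) =
              MM g P n z (π * π))) :
    ∀ n s z, s < g.natDegree → z ∉ Set.Ioo ξ η →
      |NN P (n * g.natDegree + s) z| * HH g (fun x => |NN P n x|) s = FF g (fun x => |NN P n x|) s z := by
  intro n s z hs hz
  obtain ⟨σ, hσ1, hσ⟩ := svf_MM hR hC h hOm hgz n hz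
  have hw : ∀ u ∈ insert z (Cr g), 0 ≤ kap g z u * |NN P n (g.eval u)| := by
    intro u _
    apply mul_nonneg _ (abs_nonneg _)
    unfold kap
    split_ifs <;> positivity
  rcases Nat.eq_zero_or_pos s with h0 | h0
  · subst h0
    unfold HH FF
    rw [if_pos rfl, mul_one, add_zero, hσ1, (hvf n).1 z hz, hσ, mn_zero hw]
    apply Finset.sum_congr rfl
    intro u _
    simp
  · obtain ⟨A, hA, dA, oA, hπ⟩ := (hvf n).2 s h0 hs
    obtain ⟨π, hπm, hπd, hπo, hπe⟩ := hπ z hz
    have hHH : HH g (fun x => |NN P n x|) s = ∑ c ∈ g.derivative.roots.toFinset,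
        Om g P n c * (A.eval c * A.eval c) := by
      unfold HH
      rw [if_neg (by omega)]
      have hmn : mn (Cr g) (fun u => kinf g u * |NN P n (g.eval u)|) (s - 1) =
          mn (Cr g) (Om g P n) (s - 1) := by
        apply mn_congr
        intro u hu
        exact svf_om (hOm n u (Multiset.mem_toFinset.1 hu))
      have hi := isMn_of_orth (U := Cr g) (w := Om g P n) (j := s - 1)
        (fun u hu => (hOm n u (Multiset.mem_toFinset.1 hu)).le) hA dA oA
      rw [hmn, hi.2.2.2]
      apply Finset.sum_congr rfl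
      intro u _
      ring
    have hFF : FF g (fun x => |NN P n x|) s z = σ * MM g P n z (π * π) := by
      have hi := isMn_of_orth (U := insert z (Cr g))
        (w := fun u => kap g z u * |NN P n (g.eval u)|) (j := s) hw hπm hπd (by
          intro r hr
          have h1 := hσ (π * r)
          rw [hπo r hr, mul_zero] at h1
          rw [h1]
          apply Finset.sum_congr rfl
          intro u _
          rw [eval_mul])
      unfold FF
      rw [hi.2.2.2, hσ]
      apply Finset.sum_congr rfl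
      intro u _
      rw [eval_mul]; ring
    rw [hHH, hFF, hσ1, ← hπe]
    ring

end Pool.Agent.Helper368.Bel
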