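import Pool.Agent.Helper368.Bel.JK
import Pool.Agent.Helper368.Bel.Sys

set_option autoImplicit false

open MeasureTheory Filter Topology Polynomial

namespace Pool.Agent.Helper368.Bel

variable {μ : Measure ℝ} {ξ η : ℝ} {P : ℕ → ℝ[X]}

/-- diagonal recurrence coefficient -/
noncomputable def bb (μ : Measure ℝ) (P : ℕ → ℝ[X]) (n : ℕ) : ℝ := LL μ (X * (P n * P n)) / hh μ P n

theorem OS.P_zero (h : OS μ ξ η P) : P 0 = 1 :=
  (h.monic 0).natDegree_eq_zero.1 (h.deg 0)

theorem OS.decomp (h : OS μ ξ η P) (n : ℕ) (r : ℝ[X]) (hr : r.degree < (n + 1 : ℕ)) :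
    ∃ (α : ℝ) (s : ℝ[X]), s.degree < n ∧ r = C α * P n + s := by
  refine ⟨r.coeff n, r - C (r.coeff n) * P n, ?_, by ring⟩
  rw [degree_lt_iff_coeff_zero]
  intro m hm
  rw [degree_lt_iff_coeff_zero] at hr
  rw [coeff_sub, coeff_C_mul]
  rcases hm.eq_or_lt with rfl | hlt
  · have : (P n).coeff n = 1 := by
      have := (h.monic n).coeff_natDegree
      rwa [h.deg n] at this
    rw [this]; ring
  · have h1 : (P n).coeff m = 0 := coeff_eq_zero_of_natDegree_lt (by rw [h.deg n]; exact hlt)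
    rw [h1, hr m (by omega)]; ring

theorem OS.P_one (h : OS μ ξ η P) : P 1 = X - C (bb μ P 0) := by
  symm
  refine h.eq_of_orth (monic_X_sub_C _) (natDegree_X_sub_C _) ?_
  intro r hr
  obtain ⟨α, s, hs, e⟩ := h.decomp 0 r (by simpa using hr)
  have hs0 : s = 0 := by
    rw [← degree_eq_bot]
    exact Nat.WithBot.lt_zero_iff.1 (by simpa using hs)
  have hp := h.hh_pos 0
  have h1 : (X - C (bb μ P 0)) * r = C α * (X * (P 0 * P 0) - C (bb μ P 0) * (P 0 * P 0)) := by
    rw [e, hs0, h.P_zero]; ring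
  rw [h1, LL_C_mul, h.LL_sub, LL_C_mul]
  have h2 : LL μ (P 0 * P 0) = hh μ P 0 := rfl
  rw [h2, bb]
  field_simp
  ring

/-- three term recurrence -/
theorem OS.recur (h : OS μ ξ η P) (n : ℕ) :
    P (n + 2) = (X - C (bb μ P (n + 1))) * P (n + 1) - C (hh μ P (n + 1) / hh μ P n) * P n := by
  symm
  have hm : ((X - C (bb μ P (n + 1))) * P (n + 1)).Monic := (monic_X_sub_C _).mul (h.monic _)
  have hdg : ((X - C (bb μ P (n + 1))) * P (n + 1)).natDegree = n + 2 := by
    rw [(monic_X_sub_C _).natDegree_mul (h.monic _), natDegree_X_sub_C, h.deg]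
    omega
  have hlt : (C (hh μ P (n + 1) / hh μ P n) * P n).natDegree <
      ((X - C (bb μ P (n + 1))) * P (n + 1)).natDegree := by
    rw [hdg]
    refine lt_of_le_of_lt (natDegree_C_mul_le _ _) ?_
    rw [h.deg]; omega
  refine h.eq_of_orth ?_ ?_ ?_
  · exact hm.sub_of_left (degree_lt_degree hlt)
  · rw [natDegree_sub_eq_left_of_natDegree_lt hlt, hdg]
  · intro r hr
    obtain ⟨α, s, hs, e⟩ := h.decomp (n + 1) r (by exact_mod_cast hr)
    obtain ⟨β, t, ht, e'⟩ := h.decomp n s hs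
    have hp := h.hh_pos n
    have hp1 := h.hh_pos (n + 1)
    have dP : (P n).degree < (n + 1 : ℕ) := by
      rw [degree_eq_natDegree (h.monic n).ne_zero, h.deg]
      exact_mod_cast Nat.lt_succ_self n
    have ht1 : t.degree < (n + 1 : ℕ) := ht.trans (by exact_mod_cast Nat.lt_succ_self n)
    have hXt : (X * t).degree < ((n + 1 : ℕ) : WithBot ℕ) := by
      rcases eq_or_ne t 0 with h0 | h0
      · rw [h0, mul_zero, degree_zero]; exact WithBot.bot_lt_coe _
      · rw [degree_eq_natDegree (mul_ne_zero X_ne_zero h0), natDegree_X_mul h0]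
        rw [degree_eq_natDegree h0] at ht
        have : t.natDegree < n := by exact_mod_cast ht
        exact_mod_cast (by omega : t.natDegree + 1 < n + 1)
    have o1 : LL μ (P (n + 1) * P n) = 0 := h.orth_poly (n + 1) _ dP
    have o2 : LL μ (P (n + 1) * t) = 0 := h.orth_poly (n + 1) _ ht1
    have o3 : LL μ (P (n + 1) * (X * t)) = 0 := h.orth_poly (n + 1) _ hXt
    have o4 : LL μ (P n * t) = 0 := h.orth_poly n _ ht
    have o5 : LL μ (P (n + 1) * (X * P n)) = hh μ P (n + 1) := by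
      apply h.P_mul_monic
      · exact monic_X.mul (h.monic n)
      · rw [monic_X.natDegree_mul (h.monic n), natDegree_X, h.deg]; omega
    have o6 : LL μ (X * (P (n + 1) * P (n + 1))) = bb μ P (n + 1) * hh μ P (n + 1) := by
      rw [bb]; field_simp
    have h1 : ((X - C (bb μ P (n + 1))) * P (n + 1) - C (hh μ P (n + 1) / hh μ P n) * P n) * r =
        (C α * ((X * (P (n + 1) * P (n + 1)) - C (bb μ P (n + 1)) * (P (n + 1) * P (n + 1))) -
          C (hh μ P (n + 1) / hh μ P n) * (P (n + 1) * P n)) +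
        C β * ((P (n + 1) * (X * P n) - C (bb μ P (n + 1)) * (P (n + 1) * P n)) -
          C (hh μ P (n + 1) / hh μ P n) * (P n * P n))) +
        ((P (n + 1) * (X * t) - C (bb μ P (n + 1)) * (P (n + 1) * t)) -
          C (hh μ P (n + 1) / hh μ P n) * (P n * t)) := by
      rw [e, e']; ring
    rw [h1, h.LL_add, h.LL_add, LL_C_mul, LL_C_mul]
    simp only [h.LL_sub, LL_C_mul, o1, o2, o3, o4, o5, o6]
    have h2 : LL μ (P n * P n) = hh μ P n := rfl
    have h3 : LL μ (P (n + 1) * P (n + 1)) = hh μ P (n + 1) := rfl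
    rw [h2, h3]
    field_simp
    ring

theorem OS.NN_zero (h : OS μ ξ η P) (z : ℝ) : NN P 0 z = z - bb μ P 0 := by
  unfold NN
  rw [zero_add, h.P_one, h.P_zero]
  simp

theorem OS.NN_succ (h : OS μ ξ η P) (n : ℕ) {z : ℝ} (hz : z ∉ Set.Ioo ξ η) :
    NN P (n + 1) z = z - bb μ P (n + 1) - (hh μ P (n + 1) / hh μ P n) / NN P n z := by
  have h1 := h.P_ne n hz
  have h2 := h.P_ne (n + 1) hz
  have hp := h.hh_pos n
  unfold NN
  rw [show n + 1 + 1 = n + 2 from rfl, h.recur n]
  simp only [eval_sub, eval_mul, eval_X, eval_C]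
  field_simp

theorem OS.NN_mono_right (h : OS μ ξ η P) (n : ℕ) {x x' : ℝ} (hx : η ≤ x) (hxx : x ≤ x') :
    x' - x ≤ NN P n x' - NN P n x := by
  induction n with
  | zero => rw [h.NN_zero, h.NN_zero]; linarith
  | succ n ih =>
    have hz : x ∉ Set.Ioo ξ η := fun h => absurd h.2 (not_lt.2 hx)
    have hz' : x' ∉ Set.Ioo ξ η := fun h => absurd h.2 (not_lt.2 (hx.trans hxx))
    rw [h.NN_succ n hz, h.NN_succ n hz']
    have p1 := (h.NN_right n hx).1
    have p2 := (h.NN_right n (hx.trans hxx)).1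
    have hle : NN P n x ≤ NN P n x' := by linarith
    have ha : 0 < hh μ P (n + 1) / hh μ P n := div_pos (h.hh_pos _) (h.hh_pos _)
    have : (hh μ P (n + 1) / hh μ P n) / NN P n x' ≤ (hh μ P (n + 1) / hh μ P n) / NN P n x :=
      div_le_div_of_nonneg_left ha.le p1 hle
    linarith

theorem OS.NN_mono_left (h : OS μ ξ η P) (n : ℕ) {x x' : ℝ} (hxx : x' ≤ x) (hx : x ≤ ξ) :
    x - x' ≤ NN P n x - NN P n x' := by
  induction n with
  | zero => rw [h.NN_zero, h.NN_zero]; linarith
  | succ n ih =>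
    have hz : x ∉ Set.Ioo ξ η := fun h => absurd h.1 (not_lt.2 hx)
    have hz' : x' ∉ Set.Ioo ξ η := fun h => absurd h.1 (not_lt.2 (hxx.trans hx))
    rw [h.NN_succ n hz, h.NN_succ n hz']
    have p1 := (h.NN_left n hx).1
    have p2 := (h.NN_left n (hxx.trans hx)).1
    have hle : NN P n x' ≤ NN P n x := by linarith
    have ha : 0 < hh μ P (n + 1) / hh μ P n := div_pos (h.hh_pos _) (h.hh_pos _)
    have : (hh μ P (n + 1) / hh μ P n) / NN P n x ≤ (hh μ P (n + 1) / hh μ P n) / NN P n x' := by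
      have h5 : (hh μ P (n + 1) / hh μ P n) / (-NN P n x') ≤
          (hh μ P (n + 1) / hh μ P n) / (-NN P n x) :=
        div_le_div_of_nonneg_left ha.le (by linarith) (by linarith)
      rw [div_neg, div_neg] at h5
      linarith
    linarith

end Pool.Agent.Helper368.Bel
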