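import Pool.Agent.Helper368.Bel.JK
import Pool.Agent.Helper368.Bel.Sys

set_option autoImplicit false

open MeasureTheory Filter Topology Polynomial

namespace Pool.Agent.Helper368.Bel

variable {μ : Measure ℝ} {ξ η : ℝ} {P : ℕ → ℝ[X]}

theorem pow_card_le_prod_aux (s : Multiset ℝ) (f : ℝ → ℝ) {r : ℝ} (hr : 0 ≤ r)
    (h : ∀ y ∈ s, r ≤ f y) : r ^ s.card ≤ (s.map f).prod := by
  induction s using Multiset.induction_on with
  | empty => simp
  | cons a s ih =>
    rw [Multiset.card_cons, Multiset.map_cons, Multiset.prod_cons, pow_succ']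
    have h1 := h a (Multiset.mem_cons_self a s)
    have h2 := ih (fun y hy => h y (Multiset.mem_cons_of_mem hy))
    exact mul_le_mul h1 h2 (pow_nonneg hr _) (hr.trans h1)

theorem ratio_aux {g : ℝ[X]} {ξ η : ℝ} (hR : RD g ξ η) {t : ℝ} (ht : t ∈ KK g ξ η) {e : ℝ}
    (he : g.eval e ≠ t) (x : ℝ) :
    |g.eval x - t| / |g.eval e - t| = ((g - C t).roots.map (fun y => |x - y| / |e - y|)).prod := by
  have hd : (g - C t).natDegree = g.natDegree := natDegree_sub_C
  have hc := hR.card_roots t ht
  have hf := C_leadingCoeff_mul_prod_multiset_X_sub_C (p := g - C t) (by rw [hc, hd])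
  have hev : ∀ z : ℝ, |g.eval z - t| = |(g - C t).leadingCoeff| * ((g - C t).roots.map (fun y => |z - y|)).prod := by
    intro z
    have h1 := congrArg (fun p => |p.eval z|) hf
    simp only [eval_mul, eval_C, eval_sub, abs_mul] at h1
    rw [← h1, eval_multiset_prod, Multiset.map_map]
    congr 1
    have h2 : ∀ s : Multiset ℝ, |(s.map (fun y => z - y)).prod| = (s.map (fun y => |z - y|)).prod := by
      intro s
      induction s using Multiset.induction_on with
      | empty => simp
      | cons a s ih => rw [Multiset.map_cons, Multiset.prod_cons, abs_mul, ih, Multiset.map_cons, Multiset.prod_cons]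
    rw [← h2]
    congr 2
    refine Multiset.map_congr rfl fun y _ => ?_
    simp
  have hne : |g.eval e - t| ≠ 0 := abs_ne_zero.2 (sub_ne_zero.2 he)
  have hl : |(g - C t).leadingCoeff| ≠ 0 := by
    intro h0
    rw [hev e, h0, zero_mul] at hne
    exact hne rfl
  rw [hev x, hev e, mul_div_mul_left _ _ hl, Multiset.prod_map_div]

theorem endpoint_aux {ξ η b v : ℝ} (hb : b ≠ 0) (hv : v ∈ Set.Icc ξ η) (h1 : 0 ≤ b * (v - ξ))
    (h2 : 0 ≤ b * (v - η)) : v = ξ ∨ v = η := by
  rcases lt_or_gt_of_ne hb with h | h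
  · left
    have : v - ξ ≤ 0 := by
      by_contra hcon
      push Not at hcon
      have := mul_neg_of_neg_of_pos h hcon
      linarith
    exact le_antisymm (by linarith) hv.1
  · right
    have : 0 ≤ v - η := by
      by_contra hcon
      push Not at hcon
      have := mul_neg_of_pos_of_neg h hcon
      linarith
    exact le_antisymm hv.2 (by linarith)

theorem eval_mem_Icc_of_KK {g : ℝ[X]} {ξ η x : ℝ} (h : x ∈ KK g ξ η) : g.eval x ∈ Set.Icc ξ η := by
  have := h 1
  simpa using this

theorem right_endpoint_aux {g : ℝ[X]} {ξ η : ℝ} (hR : RD g ξ η) (hC : CF g ξ η) :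
    g.eval η = ξ ∨ g.eval η = η := by
  have hg0 : g ≠ 0 := by
    rintro rfl
    have := hR.deg
    simp at this
  have key : ∀ t ∈ KK g ξ η, 0 ≤ g.leadingCoeff * (g.eval η - t) := by
    intro t ht
    have hcont : Tendsto (fun x => g.leadingCoeff * (g.eval x - t)) (𝓝[>] η) (𝓝 (g.leadingCoeff * (g.eval η - t))) := by
      have : Continuous (fun x : ℝ => g.leadingCoeff * (g.eval x - t)) := by fun_prop
      exact (this.tendsto η).mono_left nhdsWithin_le_nhds
    refine ge_of_tendsto hcont ?_
    filter_upwards [self_mem_nhdsWithin] with x hx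
    exact (hC.right x hx t ht).le
  exact endpoint_aux (leadingCoeff_ne_zero.2 hg0) (eval_mem_Icc_of_KK hR.right) (key ξ hR.left) (key η hR.right)

theorem left_endpoint_aux {g : ℝ[X]} {ξ η : ℝ} (hR : RD g ξ η) (hC : CF g ξ η) :
    g.eval ξ = ξ ∨ g.eval ξ = η := by
  have hg0 : g ≠ 0 := by
    rintro rfl
    have := hR.deg
    simp at this
  have key : ∀ t ∈ KK g ξ η, 0 ≤ ((-1) ^ g.natDegree * g.leadingCoeff) * (g.eval ξ - t) := by
    intro t ht
    have hcont : Tendsto (fun x => ((-1) ^ g.natDegree * g.leadingCoeff) * (g.eval x - t)) (𝓝[<] ξ)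
        (𝓝 (((-1) ^ g.natDegree * g.leadingCoeff) * (g.eval ξ - t))) := by
      have : Continuous (fun x : ℝ => ((-1) ^ g.natDegree * g.leadingCoeff) * (g.eval x - t)) := by fun_prop
      exact (this.tendsto ξ).mono_left nhdsWithin_le_nhds
    refine ge_of_tendsto hcont ?_
    filter_upwards [self_mem_nhdsWithin] with x hx
    exact (hC.left x hx t ht).le
  refine endpoint_aux (mul_ne_zero (pow_ne_zero _ (by norm_num)) (leadingCoeff_ne_zero.2 hg0))
    (eval_mem_Icc_of_KK hR.left) (key ξ hR.left) (key η hR.right)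

theorem KK_sub_Icc {g : ℝ[X]} {ξ η x : ℝ} (h : x ∈ KK g ξ η) : x ∈ Set.Icc ξ η := by
  have := h 0
  simpa using this

theorem rho_growth_core {g : ℝ[X]} {ξ η : ℝ} (hR : RD g ξ η) {e x r : ℝ} (hr : 0 ≤ r)
    (he : g.eval e = ξ ∨ g.eval e = η)
    (hcmp : ∀ y ∈ Set.Icc ξ η, y ≠ e → r ≤ |x - y| / |e - y|) :
    r ^ g.natDegree ≤ rho ξ η (g.eval x) := by
  have hlt := hR.lt
  have hpos : 0 < η - ξ := sub_pos.2 hlt
  have main : ∀ t ∈ KK g ξ η, g.eval e ≠ t → |g.eval e - t| = η - ξ → |g.eval x - t| ≤ max |g.eval x - ξ| |g.eval x - η| →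
      r ^ g.natDegree ≤ rho ξ η (g.eval x) := by
    intro t ht hne habs hle
    have h1 := ratio_aux hR ht hne x
    have h2 : r ^ g.natDegree ≤ |g.eval x - t| / |g.eval e - t| := by
      rw [h1, ← hR.card_roots t ht]
      refine pow_card_le_prod_aux _ _ hr fun y hy => ?_
      have hne0 : g - C t ≠ 0 := by
        intro h0; rw [h0] at hy; simp at hy
      have hy' : g.eval y = t := by
        have := (mem_roots hne0).1 hy
        rw [IsRoot.def, eval_sub, eval_C, sub_eq_zero] at this
        exact this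
      refine hcmp y (KK_sub_Icc (hR.roots_mem t ht y hy')) ?_
      rintro rfl
      exact hne hy'
    refine h2.trans ?_
    rw [habs, rho]
    exact div_le_div_of_nonneg_right hle hpos.le
  rcases he with h | h
  · refine main η hR.right (by rw [h]; exact hlt.ne) ?_ (le_max_right _ _)
    rw [h, abs_sub_comm, abs_of_pos hpos]
  · refine main ξ hR.left (by rw [h]; exact hlt.ne') ?_ (le_max_left _ _)
    rw [h, abs_of_pos hpos]

theorem rho_growth {g : ℝ[X]} {ξ η : ℝ} (hR : RD g ξ η) (hC : CF g ξ η) {x : ℝ} (hx : x ∉ Set.Ioo ξ η) :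
    (rho ξ η x) ^ g.natDegree ≤ rho ξ η (g.eval x) := by
  have hlt := hR.lt
  have hpos : 0 < η - ξ := sub_pos.2 hlt
  have hr0 : 0 ≤ rho ξ η x := div_nonneg ((abs_nonneg _).trans (le_max_left _ _)) hpos.le
  rcases le_or_gt η x with hx1 | hx1
  · -- x ≥ η
    have hrho : rho ξ η x = (x - ξ) / (η - ξ) := by
      rw [rho, abs_of_nonneg (by linarith : 0 ≤ x - ξ), abs_of_nonneg (by linarith : 0 ≤ x - η),
        max_eq_left (by linarith)]
    refine rho_growth_core hR hr0 (right_endpoint_aux hR hC) ?_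
    intro y hy hne
    have hy2 : y < η := lt_of_le_of_ne hy.2 hne
    rw [hrho, abs_of_nonneg (by linarith : 0 ≤ x - y), abs_of_pos (by linarith : 0 < η - y),
      div_le_div_iff₀ hpos (by linarith)]
    have h3 := hy.1
    nlinarith [mul_nonneg (sub_nonneg.2 h3) (sub_nonneg.2 hx1)]
  · have hx2 : x ≤ ξ := by
      by_contra hcon
      push Not at hcon
      exact hx ⟨hcon, hx1⟩
    have hrho : rho ξ η x = (η - x) / (η - ξ) := by
      rw [rho, abs_of_nonpos (by linarith : x - ξ ≤ 0), abs_of_nonpos (by linarith : x - η ≤ 0),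
        max_eq_right (by linarith)]
      ring
    refine rho_growth_core hR hr0 (left_endpoint_aux hR hC) ?_
    intro y hy hne
    have hy2 : ξ < y := lt_of_le_of_ne hy.1 (Ne.symm hne)
    rw [hrho, abs_of_nonpos (by linarith : x - y ≤ 0), abs_of_neg (by linarith : ξ - y < 0),
      div_le_div_iff₀ hpos (by linarith)]
    have h3 := hy.2
    nlinarith [mul_nonneg (sub_nonneg.2 h3) (sub_nonneg.2 hx2)]

theorem exists_escape {g : ℝ[X]} {ξ η : ℝ} (hR : RD g ξ η) (hC : CF g ξ η) :
    ∃ c ∈ Cr g, g.eval c ∉ Set.Icc ξ η := by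
  by_contra hcon
  push Not at hcon
  have hlt := hR.lt
  have hder : g.derivative ≠ 0 := by
    intro h0
    have := natDegree_eq_zero_of_derivative_eq_zero h0
    have := hR.deg
    omega
  have hcrit : ∀ c : ℝ, g.derivative.eval c = 0 → g.eval c ∈ Set.Icc ξ η := by
    intro c hc
    refine hcon c ?_
    rw [Cr, Multiset.mem_toFinset, mem_roots hder]
    exact hc
  have hpt : ∀ x ∈ Set.Icc ξ η, (IsLocalMax (fun y => g.eval y) x ∨ IsLocalMin (fun y => g.eval y) x ∨ x = ξ ∨ x = η) →
      g.eval x ∈ Set.Icc ξ η := by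
    intro x _ h
    rcases h with h | h | h | h
    · refine hcrit x ?_
      have := h.deriv_eq_zero
      rwa [Polynomial.deriv] at this
    · refine hcrit x ?_
      have := h.deriv_eq_zero
      rwa [Polynomial.deriv] at this
    · rw [h]; exact eval_mem_Icc_of_KK hR.left
    · rw [h]; exact eval_mem_Icc_of_KK hR.right
  have hcont : ContinuousOn (fun y => g.eval y) (Set.Icc ξ η) := g.continuous.continuousOn
  have hne : (Set.Icc ξ η).Nonempty := Set.nonempty_Icc.2 hlt.le
  obtain ⟨x1, hx1, hmax⟩ := isCompact_Icc.exists_isMaxOn hne hcont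
  obtain ⟨x2, hx2, hmin⟩ := isCompact_Icc.exists_isMinOn hne hcont
  have hcases : ∀ x ∈ Set.Icc ξ η, Set.Icc ξ η ∈ 𝓝 x ∨ x = ξ ∨ x = η := by
    intro x hx
    rcases eq_or_lt_of_le hx.1 with h | h
    · right; left; exact h.symm
    · rcases eq_or_lt_of_le hx.2 with h' | h'
      · right; right; exact h'
      · left; exact Icc_mem_nhds h h'
  have g1 : g.eval x1 ∈ Set.Icc ξ η := by
    refine hpt x1 hx1 ?_
    rcases hcases x1 hx1 with h | h | h
    · left; exact hmax.isLocalMax h
    · right; right; left; exact h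
    · right; right; right; exact h
  have g2 : g.eval x2 ∈ Set.Icc ξ η := by
    refine hpt x2 hx2 ?_
    rcases hcases x2 hx2 with h | h | h
    · right; left; exact hmin.isLocalMin h
    · right; right; left; exact h
    · right; right; right; exact h
  have hmaps : ∀ x ∈ Set.Icc ξ η, g.eval x ∈ Set.Icc ξ η := by
    intro x hx
    exact ⟨g2.1.trans (hmin hx), (hmax hx : g.eval x ≤ g.eval x1).trans g1.2⟩
  refine hR.noint ξ η hlt ?_
  intro x hx n
  induction n with
  | zero => simpa using hx
  | succ n ih =>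
    rw [Function.iterate_succ_apply']
    exact hmaps _ ih

end Pool.Agent.Helper368.Bel
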