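import Pool.Agent.Helper368.Bel.Defs
import Pool.Agent.Helper368.Bel.JH

set_option autoImplicit false

open MeasureTheory Filter Topology Polynomial

namespace Pool.Agent.Helper368.Bel

/-- minimum of a discrete quadratic form over monic polynomials of degree `j` -/
noncomputable def mn (U : Finset ℝ) (w : ℝ → ℝ) (j : ℕ) : ℝ :=
  sInf {t : ℝ | ∃ q : ℝ[X], q.Monic ∧ q.natDegree = j ∧ t = ∑ u ∈ U, w u * (q.eval u) ^ 2}

/-- `π` is the minimiser -/
def IsMn (U : Finset ℝ) (w : ℝ → ℝ) (j : ℕ) (π : ℝ[X]) : Prop :=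
  π.Monic ∧ π.natDegree = j ∧
    (∀ r : ℝ[X], r.degree < (j : WithBot ℕ) → ∑ u ∈ U, w u * (π.eval u * r.eval u) = 0) ∧
    mn U w j = ∑ u ∈ U, w u * (π.eval u) ^ 2

section
variable {U : Finset ℝ} {w w' : ℝ → ℝ} {j : ℕ}

theorem mn_le (hw : ∀ u ∈ U, 0 ≤ w u) {q : ℝ[X]} (hq : q.Monic) (dq : q.natDegree = j) :
    mn U w j ≤ ∑ u ∈ U, w u * (q.eval u) ^ 2 := by
  refine csInf_le ⟨0, ?_⟩ ⟨q, hq, dq, rfl⟩
  rintro t ⟨p, _, _, rfl⟩
  exact Finset.sum_nonneg fun u hu => mul_nonneg (hw u hu) (sq_nonneg _)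

theorem le_mn {t : ℝ} (h : ∀ q : ℝ[X], q.Monic → q.natDegree = j → t ≤ ∑ u ∈ U, w u * (q.eval u) ^ 2) :
    t ≤ mn U w j := by
  refine le_csInf ⟨_, X ^ j, monic_X_pow j, natDegree_X_pow j, rfl⟩ ?_
  rintro s ⟨p, hp, dp, rfl⟩
  exact h p hp dp

theorem mn_nonneg (hw : ∀ u ∈ U, 0 ≤ w u) : 0 ≤ mn U w j :=
  le_mn fun _ _ _ => Finset.sum_nonneg fun u hu => mul_nonneg (hw u hu) (sq_nonneg _)

theorem isMn_of_orth (hw : ∀ u ∈ U, 0 ≤ w u) {π : ℝ[X]} (hm : π.Monic) (dm : π.natDegree = j)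
    (ho : ∀ r : ℝ[X], r.degree < (j : WithBot ℕ) → ∑ u ∈ U, w u * (π.eval u * r.eval u) = 0) :
    IsMn U w j π := by
  refine ⟨hm, dm, ho, le_antisymm (mn_le hw hm dm) (le_mn fun q hq dq => ?_)⟩
  have hr : (q - π).degree < (j : WithBot ℕ) := by
    by_cases h0 : j = 0
    · have h1 : q = 1 := hq.natDegree_eq_zero.1 (by omega)
      have h2 : π = 1 := hm.natDegree_eq_zero.1 (by omega)
      rw [h1, h2, sub_self, degree_zero]; exact WithBot.bot_lt_coe _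
    · have := degree_sub_lt (p := q) (q := π) (by rw [degree_eq_natDegree hq.ne_zero, degree_eq_natDegree hm.ne_zero, dq, dm])
        hq.ne_zero (by rw [hq.leadingCoeff, hm.leadingCoeff])
      rwa [degree_eq_natDegree hq.ne_zero, dq] at this
  have h1 := ho _ hr
  have h2 : ∑ u ∈ U, w u * (q.eval u) ^ 2 = ∑ u ∈ U, w u * (π.eval u) ^ 2
      + 2 * ∑ u ∈ U, w u * (π.eval u * (q - π).eval u) + ∑ u ∈ U, w u * ((q - π).eval u) ^ 2 := by
    rw [Finset.mul_sum, ← Finset.sum_add_distrib, ← Finset.sum_add_distrib]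
    refine Finset.sum_congr rfl fun u _ => ?_
    rw [eval_sub]; ring
  rw [h2, h1]
  have h3 : 0 ≤ ∑ u ∈ U, w u * ((q - π).eval u) ^ 2 :=
    Finset.sum_nonneg fun u hu => mul_nonneg (hw u hu) (sq_nonneg _)
  linarith

theorem exists_isMn (hw : ∀ u ∈ U, 0 < w u) (hj : j ≤ U.card) : ∃ π, IsMn U w j π := by
  obtain ⟨A, hA, dA, ho⟩ := disc_op U w hw j hj
  exact ⟨A, isMn_of_orth (fun u hu => (hw u hu).le) hA dA ho⟩

theorem monic_ne_on {q : ℝ[X]} (hq : q.Monic) (dq : q.natDegree = j) (hj : j < U.card) :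
    ∃ u ∈ U, q.eval u ≠ 0 := by
  by_contra hcon
  push Not at hcon
  have h1 : U ⊆ q.roots.toFinset := fun u hu => by
    rw [Multiset.mem_toFinset, mem_roots hq.ne_zero]; exact hcon u hu
  have h2 := Finset.card_le_card h1
  have h3 := Multiset.toFinset_card_le q.roots
  have h4 := card_roots' q
  omega

theorem mn_pos (hw : ∀ u ∈ U, 0 < w u) (hj : j < U.card) : 0 < mn U w j := by
  obtain ⟨π, hm, dm, _, he⟩ := exists_isMn hw hj.le
  rw [he]
  obtain ⟨u, hu, hne⟩ := monic_ne_on hm dm hj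
  exact Finset.sum_pos' (fun u hu => mul_nonneg (hw u hu).le (sq_nonneg _))
    ⟨u, hu, mul_pos (hw u hu) (by positivity)⟩

theorem mn_le_mul {l : ℝ} (hw : ∀ u ∈ U, 0 ≤ w u) (hl : 0 ≤ l) (h : ∀ u ∈ U, w u ≤ l * w' u) :
    mn U w j ≤ l * mn U w' j := by
  rcases hl.eq_or_lt with h0 | h0
  · have h1 := mn_le hw (monic_X_pow (R := ℝ) j) (natDegree_X_pow j)
    refine h1.trans ?_
    rw [← h0, zero_mul]
    refine Finset.sum_nonpos fun u hu => ?_
    have h2 := h u hu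
    rw [← h0, zero_mul] at h2
    exact mul_nonpos_of_nonpos_of_nonneg h2 (sq_nonneg _)
  · have h1 : l⁻¹ * mn U w j ≤ mn U w' j := by
      refine le_mn fun q hq dq => ?_
      have h2 := mn_le hw hq dq
      rw [inv_mul_le_iff₀ h0]
      refine h2.trans ?_
      rw [Finset.mul_sum]
      refine Finset.sum_le_sum fun u hu => ?_
      have := mul_le_mul_of_nonneg_right (h u hu) (sq_nonneg (q.eval u))
      linarith
    rwa [inv_mul_le_iff₀ h0] at h1

theorem mn_zero (hw : ∀ u ∈ U, 0 ≤ w u) : mn U w 0 = ∑ u ∈ U, w u := by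
  refine le_antisymm ?_ (le_mn fun q hq dq => ?_)
  · have := mn_le (j := 0) hw (monic_one (R := ℝ)) natDegree_one
    simpa using this
  · rw [hq.natDegree_eq_zero.1 dq]; simp

theorem mn_congr (h : ∀ u ∈ U, w u = w' u) : mn U w j = mn U w' j := by
  unfold mn
  congr 1
  ext t
  constructor
  · rintro ⟨q, h1, h2, rfl⟩
    exact ⟨q, h1, h2, Finset.sum_congr rfl fun u hu => by rw [h u hu]⟩
  · rintro ⟨q, h1, h2, rfl⟩
    exact ⟨q, h1, h2, Finset.sum_congr rfl fun u hu => by rw [h u hu]⟩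

end

end Pool.Agent.Helper368.Bel
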